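import Pool.Agent.T9h44.LS4.Stm2
import Pool.Agent.N558.LS.MUL

/-!
# Local smoothing in the mean over flat metrics (helper44): one dyadic shell
-/

set_option autoImplicit false

namespace Pool.Agent.T9h44.LS4

open MeasureTheory Real Pool.Agent.N303.LS Pool.Agent.N558.LS
open scoped ENNReal SchwartzMap RealInnerProductSpace FourierTransform ComplexConjugate

variable {n : ℕ}

lemma vp : MeasurePreserving (WithLp.ofLp : E n → (Fin n → ℝ)) volume volume :=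
  PiLp.volume_preserving_ofLp (Fin n)

lemma vp' : MeasurePreserving (WithLp.toLp 2 : (Fin n → ℝ) → E n) volume volume :=
  PiLp.volume_preserving_toLp (Fin n)

lemma lint_E (f : (Fin n → ℝ) → ℝ≥0∞) :
    ∫⁻ x : E n, f x.ofLp = ∫⁻ x : Fin n → ℝ, f x :=
  vp.lintegral_comp_emb (MeasurableEquiv.toLp 2 (Fin n → ℝ)).symm.measurableEmbedding f

lemma lint_E' (f : E n → ℝ≥0∞) :
    ∫⁻ x : Fin n → ℝ, f (WithLp.toLp 2 x) = ∫⁻ x : E n, f x :=
  vp'.lintegral_comp_emb (MeasurableEquiv.toLp 2 (Fin n → ℝ)).measurableEmbedding f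

lemma continuous_Ng (g : Fin n → ℝ) : Continuous (Ng g) := by
  unfold Ng
  fun_prop

lemma Ng_nonneg (g : Fin n → ℝ) (ξ : E n) : 0 ≤ Ng g ξ := Real.sqrt_nonneg _

lemma Ng_neg (g : Fin n → ℝ) (ξ : E n) : Ng g (-ξ) = Ng g ξ := by
  unfold Ng
  simp

lemma Ng_scale (g : Fin n → ℝ) (R : ℝ) (hR : 0 < R) (ξ : E n) :
    Real.sqrt (Qd (fun i => (g i)⁻¹) (R⁻¹ • ξ)) = R⁻¹ * Ng g ξ := by
  unfold Ng Qd
  rw [show (∑ i, (g i)⁻¹ * (R⁻¹ • ξ) i ^ 2) = (R⁻¹) ^ 2 * ∑ i, ξ i ^ 2 / g i by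
    rw [Finset.mul_sum]
    refine Finset.sum_congr rfl fun i _ => ?_
    simp only [PiLp.smul_apply, smul_eq_mul]
    ring, Real.sqrt_mul (by positivity), Real.sqrt_sq (by positivity)]

lemma exp_split (g : Fin n → ℝ) (R t : ℝ) (hR : 0 < R) (ht : 0 < t) (ξ : E n) :
    Complex.exp (((2 * π * t * Ng g ξ : ℝ) : ℂ) * Complex.I) =
      ((Real.exp (2 * π / t * Real.sqrt (Qd (fun i => (g i)⁻¹) (R⁻¹ • ξ))) : ℝ) : ℂ) *
        Complex.exp (2 * π * Complex.I * (Ng g ξ : ℝ) * tau R⁻¹ t) := by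
  rw [Ng_scale g R hR ξ, Complex.ofReal_exp, ← Complex.exp_add]
  congr 1
  unfold tau
  have ht' : (t : ℂ) ≠ 0 := by exact_mod_cast ht.ne'
  have hR' : (R : ℂ) ≠ 0 := by exact_mod_cast hR.ne'
  push_cast
  have hI : Complex.I * Complex.I = -1 := Complex.I_mul_I
  field_simp
  linear_combination (-(Ng g ξ : ℂ)) * hI

lemma norm_tau (y t : ℝ) (hy0 : 0 < y) (hy : y ≤ 1) (ht : t ∈ Set.Icc (1 : ℝ) 2) :
    ‖tau y t‖ ≤ 3 := by
  unfold tau
  refine (norm_add_le _ _).trans ?_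
  rw [norm_mul, Complex.norm_I, mul_one, Complex.norm_real, Complex.norm_real, Real.norm_eq_abs,
    Real.norm_eq_abs, abs_of_pos (by linarith [ht.1]), abs_of_pos (by
      have := ht.1
      positivity)]
  have h1 : y / t ≤ 1 := by
    rw [div_le_one (by linarith [ht.1])]
    linarith [ht.1]
  linarith [ht.2]

lemma norm_const (g : Fin n → ℝ) (hg : g ∈ box n) (y t : ℝ) (hy0 : 0 < y) (hy : y ≤ 1)
    (ht : t ∈ Set.Icc (1 : ℝ) 2) :
    ‖(((∏ i, g i) ^ (1 / 2 : ℝ) : ℝ) : ℂ) *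
        Complex.exp (Complex.I * (π * ((n : ℝ) - 1) / 4 : ℝ)) * tau y t‖ ≤
      ((2 : ℝ) ^ n) ^ (1 / 2 : ℝ) * 3 := by
  rw [norm_mul, norm_mul]
  have h1 : ‖Complex.exp (Complex.I * (π * ((n : ℝ) - 1) / 4 : ℝ))‖ = 1 := by
    rw [mul_comm]
    exact Complex.norm_exp_ofReal_mul_I _
  have h0 : 0 ≤ ∏ i, g i := Finset.prod_nonneg fun i _ => by linarith [(hg i).1]
  have h2 : ∏ i, g i ≤ 2 ^ n := by
    calc ∏ i, g i ≤ ∏ i : Fin n, (2 : ℝ) :=
          Finset.prod_le_prod (fun i _ => by linarith [(hg i).1]) fun i _ => (hg i).2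
      _ = _ := by simp
  rw [h1, mul_one, Complex.norm_real, Real.norm_of_nonneg (by positivity)]
  exact mul_le_mul (Real.rpow_le_rpow h0 h2 (by norm_num)) (norm_tau y t hy0 hy ht)
    (norm_nonneg _) (by positivity)

/-- one shell, positive sign -/
theorem hi_plus (p : ℝ) (hp : 1 ≤ p) (ε : ℝ) (hL : LinkSt n) (hR : RoughEst n p ε)
    (m : (Fin n → ℝ) → ℝ → E n → ℝ) (C : ℝ) (hC : 0 < C)
    (hM : ∀ t ∈ Set.Icc (1 : ℝ) 2, ∀ g ∈ box n, ∀ κ ∈ Set.Icc (0 : ℝ) 1, ∀ R : ℝ, 0 < R →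
      MulB C p fun ξ => ((Real.exp (2 * π / t * Real.sqrt (Qd (fun i => (g i)⁻¹) (R⁻¹ • ξ))) *
        m g κ (R⁻¹ • ξ) : ℝ) : ℂ)) :
    ∃ K : ℝ, 0 < K ∧ ∀ (h : 𝓢(E n, ℂ)) (R : ℝ), 1 ≤ R →
      ∫⁻ g in box n, ∫⁻ t in Set.Icc (1 : ℝ) 2, ∫⁻ x : E n,
        ‖inv (fun ξ => Complex.exp (((2 * π * t * Ng g ξ : ℝ) : ℂ) * Complex.I) *
          ((m g ((R⁻¹) ^ 2) (R⁻¹ • ξ) : ℝ) : ℂ) * 𝓕 (h : E n → ℂ) ξ) x‖ₑ ^ p ≤
      ENNReal.ofReal (K * R ^ ((p - 2) / 2 + ε)) * ∫⁻ x : E n, ‖h x‖ₑ ^ p := by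
  obtain ⟨C2, hC2, hR⟩ := hR
  have hp0 : 0 < p := by linarith
  set c0 : ℝ := ((2 : ℝ) ^ n) ^ (1 / 2 : ℝ) * 3 with hc0
  have hc0p : 0 < c0 := by positivity
  refine ⟨C ^ p * c0 ^ p * C2, by positivity, ?_⟩
  intro h R hR1
  have hR0 : 0 < R := by linarith
  have hRi : R⁻¹ ≤ 1 := inv_le_one_of_one_le₀ hR1
  set F : (Fin n → ℝ) → ℂ := fun u => h (WithLp.toLp 2 u) with hF
  have hFm : Measurable F := h.continuous.measurable.comp (MeasurableEquiv.toLp 2 _).measurable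
  have hFi : Integrable F :=
    (vp'.integrable_comp_emb (MeasurableEquiv.toLp 2 (Fin n → ℝ)).measurableEmbedding).2
      h.integrable
  have hFb : ∃ B : ℝ, ∀ u, ‖F u‖ ≤ B := by
    obtain ⟨B, hB⟩ := h.decay 0 0
    refine ⟨B, fun u => ?_⟩
    have := hB.2 (WithLp.toLp 2 u)
    simpa using this
  have hFp : ∫⁻ u, ‖F u‖ₑ ^ p = ∫⁻ x : E n, ‖h x‖ₑ ^ p := lint_E' fun x => ‖h x‖ₑ ^ p
  have h1 := hR F hFm hFi hFb R⁻¹ (by positivity) hRi
  rw [hFp] at h1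
  calc ∫⁻ g in box n, ∫⁻ t in Set.Icc (1 : ℝ) 2, ∫⁻ x : E n,
        ‖inv (fun ξ => Complex.exp (((2 * π * t * Ng g ξ : ℝ) : ℂ) * Complex.I) *
          ((m g ((R⁻¹) ^ 2) (R⁻¹ • ξ) : ℝ) : ℂ) * 𝓕 (h : E n → ℂ) ξ) x‖ₑ ^ p
      ≤ ∫⁻ g in box n, ∫⁻ t in Set.Icc (1 : ℝ) 2, ENNReal.ofReal (C ^ p * c0 ^ p) *
          ∫⁻ x : Fin n → ℝ, ‖∫ u, Ker n R⁻¹ (t ^ 2 - R⁻¹ ^ 2 / t ^ 2) g (x - u) * F u‖ₑ ^ p := by
        refine setLIntegral_mono' measurableSet_box fun g hg => ?_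
        refine setLIntegral_mono' measurableSet_Icc fun t ht => ?_
        have ht0 : 0 < t := by linarith [ht.1]
        have h2 : (fun ξ => Complex.exp (((2 * π * t * Ng g ξ : ℝ) : ℂ) * Complex.I) *
          ((m g ((R⁻¹) ^ 2) (R⁻¹ • ξ) : ℝ) : ℂ) * 𝓕 (h : E n → ℂ) ξ) =
          fun ξ => ((Real.exp (2 * π / t * Real.sqrt (Qd (fun i => (g i)⁻¹) (R⁻¹ • ξ))) *
            m g ((R⁻¹) ^ 2) (R⁻¹ • ξ) : ℝ) : ℂ) *
            (Complex.exp (2 * π * Complex.I * (Ng g ξ : ℝ) * tau R⁻¹ t) *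
              𝓕 (h : E n → ℂ) ξ) := by
          funext ξ
          rw [exp_split g R t hR0 ht0 ξ]
          push_cast
          ring
        rw [h2]
        have hGi : Integrable fun ξ : E n =>
            Complex.exp (2 * π * Complex.I * (Ng g ξ : ℝ) * tau R⁻¹ t) * 𝓕 (h : E n → ℂ) ξ := by
          refine (fou_int h).bdd_mul (c := 1) ?_ (Filter.Eventually.of_forall fun ξ => ?_)
          · have := continuous_Ng g
            exact (by fun_prop : Continuous fun ξ : E n =>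
              Complex.exp (2 * π * Complex.I * (Ng g ξ : ℝ) * tau R⁻¹ t)).aestronglyMeasurable
          · rw [Complex.norm_exp]
            have e : (2 * π * Complex.I * (Ng g ξ : ℝ) * tau R⁻¹ t).re =
                -(2 * π * Ng g ξ * (R⁻¹ / t)) := by
              unfold tau
              have : (2 * π * Complex.I * (Ng g ξ : ℝ) * ((t : ℂ) + ((R⁻¹ / t : ℝ) : ℂ) *
                  Complex.I)) = ((-(2 * π * Ng g ξ * (R⁻¹ / t)) : ℝ) : ℂ) +
                  ((2 * π * Ng g ξ * t : ℝ) : ℂ) * Complex.I := by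
                push_cast
                have hI : Complex.I * Complex.I = -1 := Complex.I_mul_I
                linear_combination (2 * (π : ℂ) * (Ng g ξ : ℂ) * ((R : ℂ)⁻¹ / (t : ℂ))) * hI
              rw [this]
              simp
            rw [e, Real.exp_le_one_iff]
            have := Ng_nonneg g ξ
            have h3 : 0 ≤ 2 * π * Ng g ξ * (R⁻¹ / t) := by positivity
            linarith
        have h3 := hM t ht g hg ((R⁻¹) ^ 2) ⟨by positivity, by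
          have : 0 ≤ R⁻¹ := by positivity
          nlinarith⟩ R hR0 _ hGi
        refine h3.trans ?_
        rw [ENNReal.ofReal_mul (p := C ^ p) (by positivity),
          mul_assoc (ENNReal.ofReal (C ^ p))]
        refine mul_le_mul' le_rfl ?_
        rw [← lint_E fun x => ‖∫ u, Ker n R⁻¹ (t ^ 2 - R⁻¹ ^ 2 / t ^ 2) g (x - u) * F u‖ₑ ^ p,
          ← lintegral_const_mul' _ _ ENNReal.ofReal_ne_top]
        refine lintegral_mono fun x => ?_
        rw [hL g (fun i => by linarith [(hg i).1]) R⁻¹ t (by positivity) ht0 h x, enorm_mul,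
          ENNReal.mul_rpow_of_nonneg _ _ hp0.le]
        refine mul_le_mul' ?_ le_rfl
        rw [← ENNReal.ofReal_rpow_of_nonneg hc0p.le hp0.le]
        refine ENNReal.rpow_le_rpow ?_ hp0.le
        rw [← ofReal_norm]
        exact ENNReal.ofReal_le_ofReal (norm_const g hg R⁻¹ t (by positivity) hRi ht)
    _ = ENNReal.ofReal (C ^ p * c0 ^ p) * ∫⁻ g in box n, ∫⁻ t in Set.Icc (1 : ℝ) 2,
          ∫⁻ x : Fin n → ℝ, ‖∫ u, Ker n R⁻¹ (t ^ 2 - R⁻¹ ^ 2 / t ^ 2) g (x - u) * F u‖ₑ ^ p := by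
        rw [← lintegral_const_mul' _ _ ENNReal.ofReal_ne_top]
        refine lintegral_congr fun g => ?_
        rw [← lintegral_const_mul' _ _ ENNReal.ofReal_ne_top]
    _ ≤ ENNReal.ofReal (C ^ p * c0 ^ p) * (ENNReal.ofReal (C2 * R⁻¹ ^ (-((p - 2) / 2 + ε))) *
          ∫⁻ x : E n, ‖h x‖ₑ ^ p) := mul_le_mul' le_rfl h1
    _ = _ := by
        rw [← mul_assoc, ← ENNReal.ofReal_mul (by positivity)]
        congr 2
        rw [Real.inv_rpow hR0.le, ← Real.rpow_neg hR0.le, neg_neg]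
        ring

end Pool.Agent.T9h44.LS4
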