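import Pool.Agent.T9h44.LS4.A2

/-!
# Local smoothing in the mean over flat metrics (helper44): Plancherel
-/

set_option autoImplicit false

namespace Pool.Agent.T9h44.LS4

open MeasureTheory Real Pool.Agent.TH280.LS
open scoped ENNReal ComplexConjugate

variable {n : ℕ}

lemma lint_diag (D : Fin n → ℝ) (hD : ∀ i, 0 < D i) (f : (Fin n → ℝ) → ℝ≥0∞) (hf : Measurable f) :
    ENNReal.ofReal (∏ i, D i) * ∫⁻ x : Fin n → ℝ, f (fun i => D i * x i) = ∫⁻ y, f y := by
  classical
  have hdet : (Matrix.diagonal D).det = ∏ i, D i := Matrix.det_diagonal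
  have hpos : 0 < ∏ i, D i := Finset.prod_pos fun i _ => hD i
  have h := Real.smul_map_diagonal_volume_pi (D := D) (by rw [hdet]; exact hpos.ne')
  conv_rhs => rw [← h]
  rw [lintegral_smul_measure, lintegral_map hf, hdet, abs_of_pos hpos, smul_eq_mul]
  · congr 1
    refine lintegral_congr fun x => ?_
    congr 1
    ext i
    rw [Matrix.toLin'_apply, Matrix.mulVec_diagonal]
  · exact (LinearMap.continuous_of_finiteDimensional _).measurable

lemma q_sub (g x u : Fin n → ℝ) :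
    q g (x - u) = q g x + q g u + ∑ i, (-2 * (g i * x i * u i)) := by
  unfold q
  rw [← Finset.sum_add_distrib, ← Finset.sum_add_distrib]
  refine Finset.sum_congr rfl fun i _ => ?_
  rw [Pi.sub_apply]
  ring

lemma os_cross (σ : ℝ) (g x u : Fin n → ℝ) :
    os σ (∑ i, (-2 * (g i * x i * u i))) = e (∑ i, (σ * g i * x i) * u i) := by
  have key : -(π * σ * ∑ i, (-2 * (g i * x i * u i))) =
      2 * π * ∑ i, (σ * g i * x i) * u i := by
    rw [Finset.mul_sum, Finset.mul_sum, ← Finset.sum_neg_distrib]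
    refine Finset.sum_congr rfl fun i _ => ?_
    ring
  unfold os e
  rw [key]

/-- Plancherel in space -/
theorem planch_x (σ : ℝ) (hσ : 0 < σ) (g : Fin n → ℝ) (hg : ∀ i, 1 ≤ g i)
    (H : (Fin n → ℝ) → ℂ) (h1 : Integrable H) (h2 : MemLp H 2) :
    ∫⁻ x, ‖∫ u, os σ (q g (x - u)) * H u‖ₑ ^ 2 ≤
      ENNReal.ofReal ((σ ^ n)⁻¹) * ∫⁻ u, ‖H u‖ₑ ^ 2 := by
  have hcq : Continuous fun u : Fin n → ℝ => os σ (q g u) :=
    continuous_os.comp (continuous_const.prodMk (continuous_q.comp (Continuous.prodMk_right g)))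
  set H' : (Fin n → ℝ) → ℂ := fun u => os σ (q g u) * H u with hH'
  have hn : ∀ u, ‖H' u‖ = ‖H u‖ := fun u => by rw [hH']; simp only [norm_mul, norm_os, one_mul]
  have h1' : Integrable H' := h1.bdd_mul (c := 1) hcq.aestronglyMeasurable
    (Filter.Eventually.of_forall fun z => (norm_os _ _).le)
  have h2' : MemLp H' 2 := h2.of_le h1'.aestronglyMeasurable
    (Filter.Eventually.of_forall fun u => (hn u).le)
  set Φ : (Fin n → ℝ) → ℂ := fun y => ∫ η, e (∑ i, y i * η i) * H' η with hΦ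
  have hΦc : Continuous Φ := by
    refine continuous_of_dominated (bound := fun z => ‖H' z‖) (fun y => ?_)
      (fun y => Filter.Eventually.of_forall fun z => ?_) h1'.norm
      (Filter.Eventually.of_forall fun z => ?_)
    · refine AEStronglyMeasurable.mul ?_ h1'.aestronglyMeasurable
      exact (continuous_e.comp (by fun_prop)).aestronglyMeasurable
    · rw [norm_mul, norm_e, one_mul]
    · exact (continuous_e.comp (by fun_prop)).mul continuous_const
  have e1 : ∀ x, ‖∫ u, os σ (q g (x - u)) * H u‖ₑ ^ 2 =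
      (fun y => ‖Φ y‖ₑ ^ 2) (fun i => (σ * g i) * x i) := by
    intro x
    have e2 : (∫ u, os σ (q g (x - u)) * H u) = os σ (q g x) * Φ (fun i => (σ * g i) * x i) := by
      simp only [hΦ]
      rw [← integral_const_mul]
      refine integral_congr_ae (Filter.Eventually.of_forall fun u => ?_)
      simp only [hH']
      rw [q_sub, os_add, os_add, os_cross]
      ring
    rw [e2]
    simp only [enorm_mul]
    rw [show ‖os σ (q g x)‖ₑ = 1 by rw [← ofReal_norm, norm_os, ENNReal.ofReal_one], one_mul]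
  simp_rw [e1]
  have h3 := lint_diag (fun i => σ * g i) (fun i => mul_pos hσ (lt_of_lt_of_le one_pos (hg i)))
    (fun y => ‖Φ y‖ₑ ^ 2) (hΦc.measurable.enorm.pow_const 2)
  have h4 := ftm_planch H' h1' h2'
  rw [h4] at h3
  have h5 : ∫⁻ u, ‖H' u‖ₑ ^ 2 = ∫⁻ u, ‖H u‖ₑ ^ 2 := by
    refine lintegral_congr fun u => ?_
    rw [← ofReal_norm, ← ofReal_norm, hn]
  rw [h5] at h3
  rw [← h3, ← mul_assoc]
  refine le_mul_of_one_le_left zero_le ?_
  rw [← ENNReal.ofReal_mul (by positivity), ← ENNReal.ofReal_one]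
  refine ENNReal.ofReal_le_ofReal ?_
  rw [Finset.prod_mul_distrib, Finset.prod_const, Finset.card_univ, Fintype.card_fin,
    ← mul_assoc, inv_mul_cancel₀ (by positivity), one_mul]
  calc (1 : ℝ) = ∏ i : Fin n, (1 : ℝ) := by simp
    _ ≤ _ := Finset.prod_le_prod (fun _ _ => by norm_num) fun i _ => hg i

/-- Plancherel in time -/
theorem planch_w (G : ℝ → ℂ) (h1 : Integrable G (volume.restrict (Set.Ioi 0)))
    (h2 : MemLp G 2 (volume.restrict (Set.Ioi 0))) :
    ∫⁻ w : ℝ, ‖∫ s in Set.Ioi (0 : ℝ), os s (-w) * G s‖ₑ ^ 2 =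
      2 * ∫⁻ s in Set.Ioi (0 : ℝ), ‖G s‖ₑ ^ 2 := by
  set G' : ℝ → ℂ := Set.indicator (Set.Ioi 0) G with hG'
  have h1' : Integrable G' := (integrable_indicator_iff measurableSet_Ioi).2 h1
  have h2' : MemLp G' 2 := (memLp_indicator_iff_restrict measurableSet_Ioi).2 h2
  set Q : ℝ → ℂ := fun ξ => 2 * G' (2 * ξ) with hQ
  have h1q : Integrable Q := (h1'.comp_mul_left' (by norm_num : (2 : ℝ) ≠ 0)).const_mul 2
  have hQ2 : ∀ ξ, ‖Q ξ‖ₑ ^ 2 = 4 * (fun s => ‖G' s‖ₑ ^ 2) (2 * ξ) := by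
    intro ξ
    simp only [hQ, enorm_mul, mul_pow]
    congr 1
    rw [← ofReal_norm]
    norm_num
  have hG'm : AEMeasurable fun s => ‖G' s‖ₑ ^ 2 := h1'.aestronglyMeasurable.enorm.pow_const 2
  have hscale : ∀ f : ℝ → ℝ≥0∞, AEMeasurable f → ∫⁻ ξ : ℝ, f (2 * ξ) = 2⁻¹ * ∫⁻ s, f s := by
    intro f hf
    have h3 := Measure.addHaar_smul (volume : Measure ℝ) (2 : ℝ)
    have h4 : Measure.map (fun x : ℝ => 2 * x) volume = ENNReal.ofReal |(2 : ℝ)⁻¹| • volume :=
      Real.map_volume_mul_left (by norm_num : (2 : ℝ) ≠ 0)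
    have h5 : ∫⁻ ξ : ℝ, f (2 * ξ) = ∫⁻ s, f s ∂(Measure.map (fun x : ℝ => 2 * x) volume) := by
      rw [lintegral_map' ?_ (by fun_prop)]
      rw [h4]
      exact hf.mono_ac (Measure.AbsolutelyContinuous.rfl.smul_left _)
    rw [h5, h4, lintegral_smul_measure, smul_eq_mul]
    congr 1
    rw [abs_of_pos (by norm_num), ENNReal.ofReal_inv_of_pos (by norm_num), ENNReal.ofReal_ofNat]
  have hQl : ∫⁻ ξ, ‖Q ξ‖ₑ ^ 2 = 2 * ∫⁻ s in Set.Ioi (0 : ℝ), ‖G s‖ₑ ^ 2 := by
    simp_rw [hQ2]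
    rw [lintegral_const_mul' _ _ (by norm_num), hscale _ hG'm, ← mul_assoc]
    congr 1
    · rw [show (4 : ℝ≥0∞) = 2 * 2 by norm_num, mul_assoc, ENNReal.mul_inv_cancel (by norm_num)
        (by norm_num), mul_one]
    · rw [← lintegral_indicator measurableSet_Ioi]
      refine lintegral_congr fun s => ?_
      simp only [hG', Set.indicator]
      split_ifs
      · rfl
      · simp
  have h2q : MemLp Q 2 := by
    refine ⟨h1q.aestronglyMeasurable, ?_⟩
    rw [eLpNorm_lt_top_iff_lintegral_rpow_enorm_lt_top (by norm_num) (by norm_num)]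
    simp only [ENNReal.toReal_ofNat, ENNReal.rpow_ofNat]
    rw [hQl]
    refine ENNReal.mul_lt_top (by norm_num) ?_
    have := h2.2
    rw [eLpNorm_lt_top_iff_lintegral_rpow_enorm_lt_top (by norm_num) (by norm_num)] at this
    simpa only [ENNReal.toReal_ofNat, ENNReal.rpow_ofNat] using this
  rw [← hQl, ← ift_planch Q h1q h2q]
  refine lintegral_congr fun w => ?_
  congr 2
  have e1 : (∫ s in Set.Ioi (0 : ℝ), os s (-w) * G s) = ∫ s : ℝ, os s (-w) * G' s := by
    rw [← integral_indicator measurableSet_Ioi]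
    refine integral_congr_ae (Filter.Eventually.of_forall fun s => ?_)
    simp only [hG', Set.indicator]
    split_ifs
    · rfl
    · simp
  have e2 : ∀ ξ : ℝ, e (w * ξ) * Q ξ = 2 * (fun s => os s (-w) * G' s) (2 * ξ) := by
    intro ξ
    simp only [hQ]
    have : e (w * ξ) = os (2 * ξ) (-w) := by
      unfold e os
      congr 2
      push_cast
      ring
    rw [this]
    ring
  rw [e1]
  simp_rw [e2]
  rw [integral_const_mul, Measure.integral_comp_mul_left (fun s => os s (-w) * G' s) 2]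
  rw [abs_of_pos (by norm_num)]
  rw [Complex.real_smul, ← mul_assoc]
  norm_num

/-- the change of variable `w = t² - y²/t²` -/
lemma lint_time (y : ℝ) (φ : ℝ → ℝ≥0∞) :
    ∫⁻ t in Set.Icc (1 : ℝ) 2, φ (t ^ 2 - y ^ 2 / t ^ 2) ≤ ∫⁻ w, φ w := by
  have hder : ∀ t ∈ Set.Icc (1 : ℝ) 2, HasDerivWithinAt (fun t : ℝ => t ^ 2 - y ^ 2 / t ^ 2)
      (2 * t + 2 * y ^ 2 / t ^ 3) (Set.Icc 1 2) t := by
    intro t ht
    have ht0 : t ≠ 0 := by
      have := ht.1
      linarith
    have h1 : HasDerivAt (fun t : ℝ => t ^ 2) (2 * t) t := by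
      simpa using hasDerivAt_pow 2 t
    have h2 : HasDerivAt (fun t : ℝ => y ^ 2 / t ^ 2) (-(2 * y ^ 2 / t ^ 3)) t := by
      have h3 := (hasDerivAt_const t (y ^ 2)).div h1 (pow_ne_zero 2 ht0)
      refine h3.congr_deriv ?_
      field_simp
      ring
    have h4 := (h1.sub h2).hasDerivWithinAt (s := Set.Icc (1 : ℝ) 2)
    refine h4.congr_deriv ?_
    ring
  have hinj : Set.InjOn (fun t : ℝ => t ^ 2 - y ^ 2 / t ^ 2) (Set.Icc 1 2) := by
    refine StrictMonoOn.injOn ?_
    intro a ha b hb hab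
    have ha0 : 0 < a := by linarith [ha.1]
    have h1 : a ^ 2 < b ^ 2 := by nlinarith [ha.1, hb.1]
    have h2 : y ^ 2 / b ^ 2 ≤ y ^ 2 / a ^ 2 := by
      apply div_le_div_of_nonneg_left (sq_nonneg y) (by positivity) h1.le
    simp only
    linarith
  have h := lintegral_image_eq_lintegral_abs_deriv_mul measurableSet_Icc hder hinj φ
  calc ∫⁻ t in Set.Icc (1 : ℝ) 2, φ (t ^ 2 - y ^ 2 / t ^ 2)
      ≤ ∫⁻ t in Set.Icc (1 : ℝ) 2, ENNReal.ofReal |2 * t + 2 * y ^ 2 / t ^ 3| *
          φ (t ^ 2 - y ^ 2 / t ^ 2) := by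
        refine setLIntegral_mono' measurableSet_Icc fun t ht => ?_
        refine le_mul_of_one_le_left zero_le ?_
        rw [← ENNReal.ofReal_one]
        refine ENNReal.ofReal_le_ofReal (le_trans ?_ (le_abs_self _))
        have h1 := ht.1
        have : 0 ≤ 2 * y ^ 2 / t ^ 3 := by
          have : 0 < t := by linarith
          positivity
        linarith
    _ = ∫⁻ w in (fun t : ℝ => t ^ 2 - y ^ 2 / t ^ 2) '' Set.Icc 1 2, φ w := h.symm
    _ ≤ _ := setLIntegral_le_lintegral _ _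

end Pool.Agent.T9h44.LS4
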