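import Pool.Agent.TH280.LS.Base

/-!
# Local smoothing in the mean over flat metrics (helper44): the one dimensional kernel
-/

set_option autoImplicit false

namespace Pool.Agent.T9h44.LS4

open MeasureTheory Real
open scoped ENNReal

/-- the kernel -/
noncomputable def K1 (l z v : ℝ) : ℝ := Real.exp (-(π * (l * (z ^ 2 - v ^ 2)) ^ 2 / 4))

lemma K1_nonneg (l z v : ℝ) : 0 ≤ K1 l z v := (Real.exp_pos _).le

lemma K1_symm (l z v : ℝ) : K1 l z v = K1 l v z := by
  unfold K1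
  congr 1
  ring

lemma continuous_K1 (l z : ℝ) : Continuous (K1 l z) := by
  unfold K1
  fun_prop

lemma lint_gauss (b c : ℝ) (hb : 0 < b) :
    ∫⁻ v : ℝ, ENNReal.ofReal (Real.exp (-b * (v + c) ^ 2)) = ENNReal.ofReal (√(π / b)) := by
  rw [lintegral_add_right_eq_self (fun v : ℝ => ENNReal.ofReal (Real.exp (-b * v ^ 2))) c,
    ← ofReal_integral_eq_lintegral_ofReal (integrable_exp_neg_mul_sq hb)
      (Filter.Eventually.of_forall fun _ => (Real.exp_pos _).le), integral_gaussian]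

/-- splitting according to the sign -/
lemma split_abs (b z v : ℝ) :
    Real.exp (-b * (|z| - |v|) ^ 2) ≤
      Real.exp (-b * (v + -|z|) ^ 2) + Real.exp (-b * (v + |z|) ^ 2) := by
  rcases abs_cases v with ⟨h, _⟩ | ⟨h, _⟩
  · rw [h]
    have e : (|z| - v) ^ 2 = (v + -|z|) ^ 2 := by ring
    rw [e]
    linarith [Real.exp_pos (-b * (v + |z|) ^ 2)]
  · rw [h]
    have e : (|z| - -v) ^ 2 = (v + |z|) ^ 2 := by ring
    rw [e]
    linarith [Real.exp_pos (-b * (v + -|z|) ^ 2)]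

lemma lint_of_split (l z b C : ℝ) (hb : 0 < b) (hC : 0 ≤ C)
    (h : ∀ v, K1 l z v ≤ C * Real.exp (-b * (|z| - |v|) ^ 2)) :
    ∫⁻ v : ℝ, ENNReal.ofReal (K1 l z v) ≤ ENNReal.ofReal (C * (2 * √(π / b))) := by
  calc ∫⁻ v : ℝ, ENNReal.ofReal (K1 l z v)
      ≤ ∫⁻ v : ℝ, ENNReal.ofReal C * (ENNReal.ofReal (Real.exp (-b * (v + -|z|) ^ 2)) +
          ENNReal.ofReal (Real.exp (-b * (v + |z|) ^ 2))) := by
        refine lintegral_mono fun v => ?_
        rw [← ENNReal.ofReal_add (Real.exp_pos _).le (Real.exp_pos _).le, ← ENNReal.ofReal_mul hC]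
        refine ENNReal.ofReal_le_ofReal ((h v).trans ?_)
        exact mul_le_mul_of_nonneg_left (split_abs b z v) hC
    _ = ENNReal.ofReal C * (ENNReal.ofReal (√(π / b)) + ENNReal.ofReal (√(π / b))) := by
        rw [lintegral_const_mul' _ _ ENNReal.ofReal_ne_top,
          lintegral_add_left (by fun_prop), lint_gauss b _ hb, lint_gauss b _ hb]
    _ = _ := by
        rw [← ENNReal.ofReal_add (Real.sqrt_nonneg _) (Real.sqrt_nonneg _), ← ENNReal.ofReal_mul hC]
        congr 1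
        ring

lemma K1_boundA (l z : ℝ) (hl : 0 < l) (hz : z ≠ 0) :
    ∫⁻ v : ℝ, ENNReal.ofReal (K1 l z v) ≤ ENNReal.ofReal (4 / (l * |z|)) := by
  have hz' : 0 < |z| := abs_pos.2 hz
  have hb : 0 < π * (l * |z|) ^ 2 / 4 := by positivity
  refine (lint_of_split l z (π * (l * |z|) ^ 2 / 4) 1 hb (by norm_num) ?_).trans (le_of_eq ?_)
  · intro v
    unfold K1
    rw [one_mul]
    refine Real.exp_le_exp.2 ?_
    have h1 : (z ^ 2 - v ^ 2) ^ 2 = (|z| - |v|) ^ 2 * (|z| + |v|) ^ 2 := by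
      rw [← sq_abs z, ← sq_abs v]
      ring
    have h2 : |z| ^ 2 ≤ (|z| + |v|) ^ 2 := by
      have := abs_nonneg v
      nlinarith
    have h3 : |z| ^ 2 * (|z| - |v|) ^ 2 ≤ (z ^ 2 - v ^ 2) ^ 2 := by
      rw [h1]
      nlinarith [sq_nonneg (|z| - |v|)]
    have h4 : (l * (z ^ 2 - v ^ 2)) ^ 2 = l ^ 2 * (z ^ 2 - v ^ 2) ^ 2 := by ring
    rw [h4]
    have h5 : l ^ 2 * (|z| ^ 2 * (|z| - |v|) ^ 2) ≤ l ^ 2 * (z ^ 2 - v ^ 2) ^ 2 :=
      mul_le_mul_of_nonneg_left h3 (by positivity)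
    have h6 := mul_le_mul_of_nonneg_left h5 Real.pi_pos.le
    nlinarith
  · congr 1
    have e : π / (π * (l * |z|) ^ 2 / 4) = (2 / (l * |z|)) ^ 2 := by
      field_simp
      norm_num
    rw [e, Real.sqrt_sq (by positivity)]
    ring

lemma K1_boundB (l z : ℝ) (hl : 0 < l) :
    ∫⁻ v : ℝ, ENNReal.ofReal (K1 l z v) ≤ ENNReal.ofReal (Real.exp (π / 4) * (2 * √(2 / l))) := by
  have hb : 0 < π * l / 2 := by positivity
  refine (lint_of_split l z (π * l / 2) (Real.exp (π / 4)) hb (Real.exp_pos _).le ?_).trans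
    (le_of_eq ?_)
  · intro v
    unfold K1
    rw [← Real.exp_add]
    refine Real.exp_le_exp.2 ?_
    have h1 : (z ^ 2 - v ^ 2) ^ 2 = (|z| - |v|) ^ 2 * (|z| + |v|) ^ 2 := by
      rw [← sq_abs z, ← sq_abs v]
      ring
    have h2 : (|z| - |v|) ^ 2 ≤ (|z| + |v|) ^ 2 := by
      have := abs_nonneg v
      have := abs_nonneg z
      nlinarith
    have h3 : ((|z| - |v|) ^ 2) ^ 2 ≤ (z ^ 2 - v ^ 2) ^ 2 := by
      rw [h1]
      nlinarith [sq_nonneg (|z| - |v|)]
    have h5 : l ^ 2 * ((|z| - |v|) ^ 2) ^ 2 ≤ (l * (z ^ 2 - v ^ 2)) ^ 2 := by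
      have e : (l * (z ^ 2 - v ^ 2)) ^ 2 = l ^ 2 * (z ^ 2 - v ^ 2) ^ 2 := by ring
      rw [e]
      exact mul_le_mul_of_nonneg_left h3 (by positivity)
    have h6 : 2 * (l * (|z| - |v|) ^ 2) - 1 ≤ l ^ 2 * ((|z| - |v|) ^ 2) ^ 2 := by
      nlinarith [sq_nonneg (l * (|z| - |v|) ^ 2 - 1)]
    have h7 : π * (2 * (l * (|z| - |v|) ^ 2) - 1) ≤ π * (l * (z ^ 2 - v ^ 2)) ^ 2 :=
      mul_le_mul_of_nonneg_left (h6.trans h5) Real.pi_pos.le
    nlinarith
  · congr 3
    have e : π / (π * l / 2) = 2 / l := by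
      field_simp
    rw [e]

/-- the interpolated bound -/
lemma K1_bound (ε l z : ℝ) (hε : 0 < ε) (hε1 : ε ≤ 1) (hl : 0 < l) (hz : z ≠ 0) :
    ∫⁻ v : ℝ, ENNReal.ofReal (K1 l z v) ≤
      ENNReal.ofReal (8 * Real.exp (π / 4) * (l ^ (-1 + ε / 2) * |z| ^ (-1 + ε))) := by
  have hz' : 0 < |z| := abs_pos.2 hz
  set J := ∫⁻ v : ℝ, ENNReal.ofReal (K1 l z v) with hJ
  have hA := K1_boundA l z hl hz
  have hB := K1_boundB l z hl
  have he1 : 1 ≤ Real.exp (π / 4) := Real.one_le_exp (by positivity)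
  have h1 : J = J ^ (1 - ε) * J ^ ε := by
    by_cases h0 : J = 0
    · rw [h0, ENNReal.zero_rpow_of_pos hε, mul_zero]
    · rw [← ENNReal.rpow_add _ _ h0 (ne_top_of_le_ne_top ENNReal.ofReal_ne_top hA)]
      simp
  rw [h1]
  calc J ^ (1 - ε) * J ^ ε
      ≤ ENNReal.ofReal (4 / (l * |z|)) ^ (1 - ε) *
        ENNReal.ofReal (Real.exp (π / 4) * (2 * √(2 / l))) ^ ε := by
        refine mul_le_mul' (ENNReal.rpow_le_rpow hA (by linarith)) (ENNReal.rpow_le_rpow hB hε.le)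
    _ = ENNReal.ofReal ((4 / (l * |z|)) ^ (1 - ε) * (Real.exp (π / 4) * (2 * √(2 / l))) ^ ε) := by
        rw [ENNReal.ofReal_rpow_of_nonneg (by positivity) (by linarith),
          ENNReal.ofReal_rpow_of_nonneg (by positivity) hε.le, ← ENNReal.ofReal_mul (by positivity)]
    _ ≤ _ := by
        refine ENNReal.ofReal_le_ofReal ?_
        have e1 : (4 / (l * |z|)) ^ (1 - ε) = 4 ^ (1 - ε) * (l ^ (-1 + ε) * |z| ^ (-1 + ε)) := by
          rw [div_eq_mul_inv, Real.mul_rpow (by norm_num) (by positivity), mul_inv,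
            Real.mul_rpow (by positivity) (by positivity), ← Real.rpow_neg_one l,
            ← Real.rpow_neg_one |z|, ← Real.rpow_mul hl.le, ← Real.rpow_mul hz'.le]
          congr 3 <;> ring
        have e2 : (Real.exp (π / 4) * (2 * √(2 / l))) ^ ε =
            (Real.exp (π / 4) * (2 * √2)) ^ ε * l ^ (-(ε / 2)) := by
          have : Real.exp (π / 4) * (2 * √(2 / l)) =
              (Real.exp (π / 4) * (2 * √2)) * l ^ (-(1 / 2) : ℝ) := by
            rw [Real.sqrt_div (by norm_num), Real.sqrt_eq_rpow l, Real.rpow_neg hl.le]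
            field_simp
          rw [this, Real.mul_rpow (by positivity) (by positivity), ← Real.rpow_mul hl.le]
          congr 2
          ring
        have e3 : l ^ (-1 + ε) * l ^ (-(ε / 2)) = l ^ (-1 + ε / 2) := by
          rw [← Real.rpow_add hl]
          congr 1
          ring
        rw [e1, e2]
        have hs2 : √2 ≤ 2 := by
          rw [Real.sqrt_le_left (by norm_num)]
          norm_num
        have h4 : (4 : ℝ) ^ (1 - ε) ≤ (4 * Real.exp (π / 4)) ^ (1 - ε) :=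
          Real.rpow_le_rpow (by norm_num) (by nlinarith) (by linarith)
        have h5 : (Real.exp (π / 4) * (2 * √2)) ^ ε ≤ (4 * Real.exp (π / 4)) ^ ε :=
          Real.rpow_le_rpow (by positivity) (by nlinarith) hε.le
        have h6 : (4 : ℝ) ^ (1 - ε) * (Real.exp (π / 4) * (2 * √2)) ^ ε ≤
            4 * Real.exp (π / 4) := by
          refine (mul_le_mul h4 h5 (by positivity) (by positivity)).trans (le_of_eq ?_)
          rw [← Real.rpow_add (by positivity)]
          simp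
        calc 4 ^ (1 - ε) * (l ^ (-1 + ε) * |z| ^ (-1 + ε)) *
              ((Real.exp (π / 4) * (2 * √2)) ^ ε * l ^ (-(ε / 2)))
            = (4 ^ (1 - ε) * (Real.exp (π / 4) * (2 * √2)) ^ ε) *
              (l ^ (-1 + ε) * l ^ (-(ε / 2)) * |z| ^ (-1 + ε)) := by ring
          _ ≤ (4 * Real.exp (π / 4)) * (l ^ (-1 + ε) * l ^ (-(ε / 2)) * |z| ^ (-1 + ε)) :=
              mul_le_mul_of_nonneg_right h6 (by positivity)
          _ ≤ _ := by
              rw [e3]
              have : 0 ≤ l ^ (-1 + ε / 2) * |z| ^ (-1 + ε) := by positivity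
              nlinarith [Real.exp_pos (π / 4)]

end Pool.Agent.T9h44.LS4
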