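import Pool.Agent.T9h44.LS4.A1

/-!
# Local smoothing in the mean over flat metrics (helper44): the mean over the metrics
-/

set_option autoImplicit false

namespace Pool.Agent.T9h44.LS4

open MeasureTheory Real
open scoped ENNReal ComplexConjugate

variable {n : ℕ}

/-- the metric -/
noncomputable def q (g z : Fin n → ℝ) : ℝ := ∑ i, g i * z i ^ 2

lemma continuous_q : Continuous fun p : (Fin n → ℝ) × (Fin n → ℝ) => q p.1 p.2 := by
  unfold q
  fun_prop

/-- the oscillating Gaussian `exp(-iπ l q)` -/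
noncomputable def os (l v : ℝ) : ℂ := Complex.exp (((-(π * l * v) : ℝ) : ℂ) * Complex.I)

lemma norm_os (l v : ℝ) : ‖os l v‖ = 1 := by
  unfold os
  exact Complex.norm_exp_ofReal_mul_I _

lemma continuous_os : Continuous fun p : ℝ × ℝ => os p.1 p.2 := by
  unfold os
  fun_prop

lemma conj_os (l v : ℝ) : conj (os l v) = os l (-v) := by
  unfold os
  rw [← Complex.exp_conj, map_mul, Complex.conj_ofReal, Complex.conj_I]
  congr 1
  push_cast
  ring

lemma os_add (l v w : ℝ) : os l (v + w) = os l v * os l w := by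
  unfold os
  rw [← Complex.exp_add]
  congr 1
  push_cast
  ring

lemma os_sum (l : ℝ) (f : Fin n → ℝ) : os l (∑ i, f i) = ∏ i, os l (f i) := by
  unfold os
  rw [← Complex.exp_sum]
  congr 1
  rw [← Finset.sum_mul]
  congr 1
  push_cast
  rw [Finset.mul_sum, Finset.sum_neg_distrib]

/-- the Gaussian weight of the metrics -/
noncomputable def Gw (g : Fin n → ℝ) : ℝ := ∏ i, Real.exp (-(π * g i ^ 2))

lemma Gw_pos (g : Fin n → ℝ) : 0 < Gw g := Finset.prod_pos fun _ _ => Real.exp_pos _

lemma continuous_Gw : Continuous (Gw (n := n)) := by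
  unfold Gw
  fun_prop

lemma integrable_g1 : Integrable fun x : ℝ => Real.exp (-(π * x ^ 2)) := by
  have := integrable_exp_neg_mul_sq Real.pi_pos
  simpa only [neg_mul] using this

lemma integrable_Gw : Integrable (Gw (n := n)) := by
  unfold Gw
  exact Integrable.fintype_prod (f := fun _ x => Real.exp (-(π * x ^ 2))) fun _ => integrable_g1

lemma int1 (l c : ℝ) :
    ∫ x : ℝ, ((Real.exp (-(π * x ^ 2)) : ℝ) : ℂ) * os l (x * c) =
      ((Real.exp (-(π * (l * c) ^ 2 / 4)) : ℝ) : ℂ) := by
  have h := fourierIntegral_gaussian (b := (π : ℂ)) (by simpa using Real.pi_pos)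
    (-(π * l * c : ℝ) : ℂ)
  have e : ∀ x : ℝ, ((Real.exp (-(π * x ^ 2)) : ℝ) : ℂ) * os l (x * c) =
      Complex.exp (Complex.I * (-(π * l * c : ℝ) : ℂ) * x) * Complex.exp (-(π : ℂ) * x ^ 2) := by
    intro x
    unfold os
    rw [Complex.ofReal_exp, mul_comm]
    congr 1
    · congr 1
      push_cast
      ring
    · congr 1
      push_cast
      ring
  simp_rw [e]
  rw [h, div_self (by exact_mod_cast Real.pi_ne_zero), Complex.one_cpow, one_mul,
    Complex.ofReal_exp]
  congr 1
  push_cast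
  field_simp

lemma intn (l : ℝ) (z v : Fin n → ℝ) :
    ∫ g : Fin n → ℝ, ((Gw g : ℝ) : ℂ) * (os l (q g z) * conj (os l (q g v))) =
      ((∏ i, K1 l (z i) (v i) : ℝ) : ℂ) := by
  have e : ∀ g : Fin n → ℝ, ((Gw g : ℝ) : ℂ) * (os l (q g z) * conj (os l (q g v))) =
      ∏ i, (((Real.exp (-(π * g i ^ 2)) : ℝ) : ℂ) * os l (g i * (z i ^ 2 - v i ^ 2))) := by
    intro g
    rw [Finset.prod_mul_distrib, ← os_sum, conj_os, ← os_add]
    unfold Gw q
    push_cast
    congr 2
    rw [← sub_eq_add_neg, ← Finset.sum_sub_distrib]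
    refine Finset.sum_congr rfl fun i _ => ?_
    ring
  simp_rw [e]
  rw [integral_fintype_prod_volume_eq_prod
    (f := fun i (x : ℝ) => ((Real.exp (-(π * x ^ 2)) : ℝ) : ℂ) * os l (x * (z i ^ 2 - v i ^ 2))),
    Complex.ofReal_prod]
  refine Finset.prod_congr rfl fun i _ => ?_
  rw [int1]
  unfold K1
  rfl

/-- the mean over the metrics -/
lemma mean_metric (l : ℝ) (B : (Fin n → ℝ) → ℂ) (hB : Integrable B) :
    ∫⁻ g : Fin n → ℝ, ENNReal.ofReal (Gw g) * ‖∫ z, os l (q g z) * B z‖ₑ ^ 2 ≤
      ∫⁻ z : Fin n → ℝ, ∫⁻ v : Fin n → ℝ, ‖B z‖ₑ * ‖B v‖ₑ *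
        ENNReal.ofReal (∏ i, K1 l (z i) (v i)) := by
  set Φ : (Fin n → ℝ) → ℂ := fun g => ∫ z, os l (q g z) * B z with hΦ
  -- measurability and bounds
  have hcq : Continuous fun p : (Fin n → ℝ) × (Fin n → ℝ) => os l (q p.1 p.2) :=
    continuous_os.comp (continuous_const.prodMk continuous_q)
  have hi : ∀ g, Integrable fun z => os l (q g z) * B z := by
    intro g
    refine hB.bdd_mul (c := 1) ?_ (Filter.Eventually.of_forall fun z => (norm_os _ _).le)
    exact (hcq.comp (Continuous.prodMk_right g)).aestronglyMeasurable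
  set M : ℝ := ∫ z, ‖B z‖ with hM
  have hΦb : ∀ g, ‖Φ g‖ ≤ M := by
    intro g
    refine (norm_integral_le_integral_norm _).trans (le_of_eq ?_)
    refine integral_congr_ae (Filter.Eventually.of_forall fun z => ?_)
    simp only [norm_mul, norm_os, one_mul]
  have hΦc : Continuous Φ := by
    refine continuous_of_dominated (bound := fun z => ‖B z‖) (fun g => (hi g).aestronglyMeasurable)
      (fun g => Filter.Eventually.of_forall fun z => ?_) hB.norm
      (Filter.Eventually.of_forall fun z => ?_)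
    · rw [norm_mul, norm_os, one_mul]
    · exact (hcq.comp (Continuous.prodMk_left z)).mul continuous_const
  have hM0 : 0 ≤ M := integral_nonneg fun _ => norm_nonneg _
  have hint : Integrable fun g : Fin n → ℝ => Gw g * ‖Φ g‖ ^ 2 := by
    refine Integrable.mono' (g := fun g => Gw g * M ^ 2) (integrable_Gw.mul_const _)
      (continuous_Gw.mul (hΦc.norm.pow 2)).aestronglyMeasurable
      (Filter.Eventually.of_forall fun g => ?_)
    rw [Real.norm_of_nonneg (by have := Gw_pos g; positivity)]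
    have := hΦb g
    have h2 := Gw_pos g
    gcongr
  have h1 : ∫⁻ g : Fin n → ℝ, ENNReal.ofReal (Gw g) * ‖Φ g‖ₑ ^ 2 =
      ENNReal.ofReal (∫ g, Gw g * ‖Φ g‖ ^ 2) := by
    rw [ofReal_integral_eq_lintegral_ofReal hint
      (Filter.Eventually.of_forall fun g => by have := Gw_pos g; positivity)]
    refine lintegral_congr fun g => ?_
    rw [ENNReal.ofReal_mul (Gw_pos g).le, ENNReal.ofReal_pow (norm_nonneg _), ofReal_norm]
  -- the integral over pairs
  set Ψ : (Fin n → ℝ) → (Fin n → ℝ) × (Fin n → ℝ) → ℂ := fun g p =>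
    ((Gw g : ℝ) : ℂ) * ((os l (q g p.1) * B p.1) * conj (os l (q g p.2) * B p.2)) with hΨ
  have hBc : Integrable fun v => conj (B v) := by
    refine ⟨Complex.continuous_conj.comp_aestronglyMeasurable hB.aestronglyMeasurable, ?_⟩
    have := hB.2
    unfold HasFiniteIntegral at *
    refine lt_of_le_of_lt (lintegral_mono fun v => ?_) this
    rw [← ofReal_norm, ← ofReal_norm, RCLike.norm_conj]
  have hPint : Integrable (Function.uncurry Ψ) (volume.prod (volume.prod volume)) := by
    have h3 : Integrable (fun a : (Fin n → ℝ) × ((Fin n → ℝ) × (Fin n → ℝ)) =>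
        ((Gw a.1 : ℝ) : ℂ) * (B a.2.1 * conj (B a.2.2))) (volume.prod (volume.prod volume)) :=
      (integrable_Gw.ofReal).mul_prod (hB.mul_prod hBc)
    have h4 : Continuous fun a : (Fin n → ℝ) × ((Fin n → ℝ) × (Fin n → ℝ)) =>
        os l (q a.1 a.2.1) * conj (os l (q a.1 a.2.2)) := by
      refine (hcq.comp (by fun_prop :
        Continuous fun a : (Fin n → ℝ) × ((Fin n → ℝ) × (Fin n → ℝ)) => (a.1, a.2.1))).mul ?_
      exact Complex.continuous_conj.comp (hcq.comp (by fun_prop :
        Continuous fun a : (Fin n → ℝ) × ((Fin n → ℝ) × (Fin n → ℝ)) => (a.1, a.2.2)))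
    have h5 := h3.bdd_mul (c := 1) h4.aestronglyMeasurable (Filter.Eventually.of_forall fun a => by
      rw [norm_mul, RCLike.norm_conj, norm_os, norm_os, one_mul])
    refine h5.congr (Filter.Eventually.of_forall fun a => ?_)
    simp only [Function.uncurry, hΨ, map_mul]
    ring
  have h2 : ((∫ g, Gw g * ‖Φ g‖ ^ 2 : ℝ) : ℂ) = ∫ g, ∫ p, Ψ g p ∂(volume.prod volume) := by
    rw [← integral_complex_ofReal]
    refine integral_congr_ae (Filter.Eventually.of_forall fun g => ?_)
    simp only [hΨ]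
    rw [integral_const_mul, integral_prod_mul (fun z => os l (q g z) * B z)
      (fun v => conj (os l (q g v) * B v)), integral_conj]
    push_cast
    congr 1
    rw [← Complex.ofReal_pow, ← Complex.normSq_eq_norm_sq, ← Complex.mul_conj]
  have h3 : (∫ g, ∫ p, Ψ g p ∂(volume.prod volume)) = ∫ p : (Fin n → ℝ) × (Fin n → ℝ),
      B p.1 * conj (B p.2) * ((∏ i, K1 l (p.1 i) (p.2 i) : ℝ) : ℂ) ∂(volume.prod volume) := by
    rw [integral_integral_swap hPint]
    refine integral_congr_ae (Filter.Eventually.of_forall fun p => ?_)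
    simp only [hΨ]
    rw [← intn l p.1 p.2, ← integral_const_mul]
    refine integral_congr_ae (Filter.Eventually.of_forall fun g => ?_)
    simp only [map_mul]
    ring
  rw [h1]
  have h4 : ENNReal.ofReal (∫ g, Gw g * ‖Φ g‖ ^ 2) ≤
      ‖((∫ g, Gw g * ‖Φ g‖ ^ 2 : ℝ) : ℂ)‖ₑ := by
    rw [← ofReal_norm, Complex.norm_real]
    exact ENNReal.ofReal_le_ofReal (le_abs_self _)
  refine h4.trans ?_
  rw [h2, h3]
  refine (enorm_integral_le_lintegral_enorm _).trans ?_
  rw [lintegral_prod _ ?_]
  · refine lintegral_mono fun z => lintegral_mono fun v => ?_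
    simp only [enorm_mul]
    refine le_of_eq ?_
    congr 1
    · congr 1
      rw [← ofReal_norm, ← ofReal_norm, RCLike.norm_conj]
    · rw [← ofReal_norm, Complex.norm_real, Real.norm_of_nonneg]
      exact Finset.prod_nonneg fun i _ => K1_nonneg _ _ _
  · refine AEMeasurable.enorm ?_
    refine AEMeasurable.mul ?_ ?_
    · exact (hB.aestronglyMeasurable.comp_fst.mul hBc.aestronglyMeasurable.comp_snd).aemeasurable
    · refine (Continuous.measurable ?_).aemeasurable
      unfold K1
      fun_prop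

end Pool.Agent.T9h44.LS4
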