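import Pool.Agent.T9h44.LS4.A2

/-!
# Local smoothing in the mean over flat metrics (helper44): the test of Schur
-/

set_option autoImplicit false

namespace Pool.Agent.T9h44.LS4

open MeasureTheory Real
open scoped ENNReal ComplexConjugate

variable {n : ℕ}

/-- the one dimensional weight -/
noncomputable def w1 (ε l z : ℝ) : ℝ≥0∞ :=
  ENNReal.ofReal (8 * Real.exp (π / 4) * l ^ (-1 + ε / 2)) * ENNReal.ofReal |z| ^ (-1 + ε)

lemma K1_w1 (ε l z : ℝ) (hε : 0 < ε) (hε1 : ε < 1) (hl : 0 < l) :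
    ∫⁻ v : ℝ, ENNReal.ofReal (K1 l z v) ≤ w1 ε l z := by
  unfold w1
  by_cases hz : z = 0
  · rw [hz, abs_zero, ENNReal.ofReal_zero, ENNReal.zero_rpow_of_neg (by linarith),
      ENNReal.mul_top (by
        rw [Ne, ENNReal.ofReal_eq_zero, not_le]
        positivity)]
    exact le_top
  · refine (K1_bound ε l z hε hε1.le hl hz).trans (le_of_eq ?_)
    rw [ENNReal.ofReal_rpow_of_pos (abs_pos.2 hz), ← ENNReal.ofReal_mul (by positivity)]
    congr 1
    ring

lemma K1_fin (l z : ℝ) (hl : 0 < l) : ∫⁻ v : ℝ, ENNReal.ofReal (K1 l z v) ≠ ⊤ :=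
  ne_top_of_le_ne_top ENNReal.ofReal_ne_top (K1_boundB l z hl)

lemma K1_integrable (l z : ℝ) (hl : 0 < l) : Integrable (K1 l z) := by
  refine ⟨(continuous_K1 l z).aestronglyMeasurable, ?_⟩
  unfold HasFiniteIntegral
  have h := K1_fin l z hl
  refine lt_of_le_of_lt (le_of_eq ?_) h.lt_top
  refine lintegral_congr fun v => ?_
  rw [← ofReal_norm, Real.norm_of_nonneg (K1_nonneg _ _ _)]

lemma prodK (l : ℝ) (z : Fin n → ℝ) (hl : 0 < l) :
    ∫⁻ v : Fin n → ℝ, ENNReal.ofReal (∏ i, K1 l (z i) (v i)) =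
      ∏ i, ∫⁻ v : ℝ, ENNReal.ofReal (K1 l (z i) v) := by
  have h1 : Integrable fun v : Fin n → ℝ => ∏ i, K1 l (z i) (v i) :=
    Integrable.fintype_prod_dep (f := fun i v => K1 l (z i) v) fun i => K1_integrable l (z i) hl
  rw [← ofReal_integral_eq_lintegral_ofReal h1
    (Filter.Eventually.of_forall fun v => Finset.prod_nonneg fun i _ => K1_nonneg _ _ _),
    integral_fintype_prod_volume_eq_prod (f := fun i v => K1 l (z i) v),
    ENNReal.ofReal_prod_of_nonneg fun i _ => integral_nonneg fun v => K1_nonneg _ _ _]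
  refine Finset.prod_congr rfl fun i _ => ?_
  rw [ofReal_integral_eq_lintegral_ofReal (K1_integrable l (z i) hl)
    (Filter.Eventually.of_forall fun v => K1_nonneg _ _ _)]

lemma mul_le_sq_add (a b : ℝ≥0∞) : a * b ≤ a ^ 2 + b ^ 2 := by
  rcases le_total a b with h | h
  · calc a * b ≤ b * b := mul_le_mul' h le_rfl
      _ = b ^ 2 := (sq b).symm
      _ ≤ _ := le_add_self
  · calc a * b ≤ a * a := mul_le_mul' le_rfl h
      _ = a ^ 2 := (sq a).symm
      _ ≤ _ := le_self_add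

lemma schur (a : (Fin n → ℝ) → ℝ≥0∞) (ha : AEMeasurable a)
    (K : (Fin n → ℝ) → (Fin n → ℝ) → ℝ≥0∞) (hK : Measurable (Function.uncurry K))
    (hs : ∀ z v, K z v = K v z) :
    ∫⁻ z, ∫⁻ v, a z * a v * K z v ≤ 2 * ∫⁻ z, a z ^ 2 * ∫⁻ v, K z v := by
  have hKz : ∀ z, Measurable (K z) := fun z => hK.comp measurable_prodMk_left
  have h1 : AEMeasurable (fun p : (Fin n → ℝ) × (Fin n → ℝ) => a p.1 ^ 2 * K p.1 p.2)
      (volume.prod volume) := (ha.comp_fst.pow_const 2).mul hK.aemeasurable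
  have h2 : AEMeasurable (fun p : (Fin n → ℝ) × (Fin n → ℝ) => a p.2 ^ 2 * K p.1 p.2)
      (volume.prod volume) := (ha.comp_snd.pow_const 2).mul hK.aemeasurable
  calc ∫⁻ z, ∫⁻ v, a z * a v * K z v
      ≤ ∫⁻ z, ∫⁻ v, (a z ^ 2 * K z v + a v ^ 2 * K z v) := by
        refine lintegral_mono fun z => lintegral_mono fun v => ?_
        rw [← add_mul]
        exact mul_le_mul' (mul_le_sq_add _ _) le_rfl
    _ = ∫⁻ p, (a p.1 ^ 2 * K p.1 p.2 + a p.2 ^ 2 * K p.1 p.2) ∂(volume.prod volume) := by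
        exact (lintegral_prod (fun p : (Fin n → ℝ) × (Fin n → ℝ) =>
          a p.1 ^ 2 * K p.1 p.2 + a p.2 ^ 2 * K p.1 p.2) (h1.add h2)).symm
    _ = (∫⁻ p, a p.1 ^ 2 * K p.1 p.2 ∂(volume.prod volume)) +
        ∫⁻ p, a p.2 ^ 2 * K p.1 p.2 ∂(volume.prod volume) := lintegral_add_left' h1 _
    _ = (∫⁻ z, a z ^ 2 * ∫⁻ v, K z v) + ∫⁻ z, a z ^ 2 * ∫⁻ v, K z v := by
        congr 1
        · rw [lintegral_prod _ h1]
          refine lintegral_congr fun z => ?_
          change ∫⁻ y, a z ^ 2 * K z y = a z ^ 2 * ∫⁻ v, K z v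
          rw [lintegral_const_mul (a z ^ 2) (hKz z)]
        · rw [lintegral_prod_symm _ h2]
          refine lintegral_congr fun z => ?_
          simp only [hs _ z]
          change ∫⁻ y, a z ^ 2 * K z y = a z ^ 2 * ∫⁻ v, K z v
          rw [lintegral_const_mul (a z ^ 2) (hKz z)]
    _ = _ := by rw [two_mul]

lemma one_le_Gw (g : Fin n → ℝ) (hg : ∀ i, g i ∈ Set.Icc (1 : ℝ) 2) :
    1 ≤ ENNReal.ofReal (Real.exp (4 * π) ^ n) * ENNReal.ofReal (Gw g) := by
  rw [← ENNReal.ofReal_mul (by positivity)]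
  rw [← ENNReal.ofReal_one]
  refine ENNReal.ofReal_le_ofReal ?_
  have e : Real.exp (4 * π) ^ n * Gw g = ∏ i : Fin n, (Real.exp (4 * π) * Real.exp (-(π * g i ^ 2))) := by
    rw [Finset.prod_mul_distrib, Finset.prod_const, Finset.card_univ, Fintype.card_fin]
    rfl
  rw [e]
  have h : ∀ i ∈ (Finset.univ : Finset (Fin n)), (1 : ℝ) ≤
      Real.exp (4 * π) * Real.exp (-(π * g i ^ 2)) := by
    intro i _
    rw [← Real.exp_add]
    refine Real.one_le_exp ?_
    have h1 := hg i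
    have h2 : g i ^ 2 ≤ 4 := by nlinarith [h1.1, h1.2]
    nlinarith [Real.pi_pos]
  calc (1 : ℝ) = ∏ i : Fin n, (1 : ℝ) := by simp
    _ ≤ _ := Finset.prod_le_prod (fun _ _ => by norm_num) h

/-- the box of metrics -/
def box (n : ℕ) : Set (Fin n → ℝ) := {g | ∀ i, g i ∈ Set.Icc (1 : ℝ) 2}

lemma measurableSet_box : MeasurableSet (box n) := by
  have : box n = ⋂ i, (fun g : Fin n → ℝ => g i) ⁻¹' Set.Icc (1 : ℝ) 2 := by
    ext g
    simp [box]
  rw [this]
  exact MeasurableSet.iInter fun i => (measurable_pi_apply i) measurableSet_Icc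

/-- the estimate of the mean over the metrics -/
theorem mean_le (ε l : ℝ) (hε : 0 < ε) (hε1 : ε < 1) (hl : 0 < l) (B : (Fin n → ℝ) → ℂ)
    (hB : Integrable B) :
    ∫⁻ g in box n, ‖∫ z, os l (q g z) * B z‖ₑ ^ 2 ≤
      ENNReal.ofReal (2 * Real.exp (4 * π) ^ n) * ∫⁻ z : Fin n → ℝ, ‖B z‖ₑ ^ 2 *
        ∏ i, w1 ε l (z i) := by
  calc ∫⁻ g in box n, ‖∫ z, os l (q g z) * B z‖ₑ ^ 2
      ≤ ∫⁻ g in box n, ENNReal.ofReal (Real.exp (4 * π) ^ n) *
          (ENNReal.ofReal (Gw g) * ‖∫ z, os l (q g z) * B z‖ₑ ^ 2) := by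
        refine setLIntegral_mono' measurableSet_box fun g hg => ?_
        rw [← mul_assoc]
        exact le_mul_of_one_le_left zero_le (one_le_Gw g hg)
    _ ≤ ∫⁻ g, ENNReal.ofReal (Real.exp (4 * π) ^ n) *
          (ENNReal.ofReal (Gw g) * ‖∫ z, os l (q g z) * B z‖ₑ ^ 2) := setLIntegral_le_lintegral _ _
    _ = ENNReal.ofReal (Real.exp (4 * π) ^ n) * ∫⁻ g,
          (ENNReal.ofReal (Gw g) * ‖∫ z, os l (q g z) * B z‖ₑ ^ 2) := by
        rw [lintegral_const_mul' _ _ ENNReal.ofReal_ne_top]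
    _ ≤ ENNReal.ofReal (Real.exp (4 * π) ^ n) * (2 * ∫⁻ z, ‖B z‖ₑ ^ 2 *
          ∫⁻ v : Fin n → ℝ, ENNReal.ofReal (∏ i, K1 l (z i) (v i))) := by
        refine mul_le_mul' le_rfl ((mean_metric l B hB).trans ?_)
        refine schur (fun z => ‖B z‖ₑ) hB.aestronglyMeasurable.enorm
          (fun z v => ENNReal.ofReal (∏ i, K1 l (z i) (v i))) ?_ ?_
        · refine Measurable.ennreal_ofReal ?_
          refine Continuous.measurable ?_
          unfold K1
          fun_prop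
        · intro z v
          simp only [K1_symm l (z _) (v _)]
    _ ≤ ENNReal.ofReal (Real.exp (4 * π) ^ n) * (2 * ∫⁻ z, ‖B z‖ₑ ^ 2 * ∏ i, w1 ε l (z i)) := by
        refine mul_le_mul' le_rfl (mul_le_mul' le_rfl (lintegral_mono fun z => ?_))
        refine mul_le_mul' le_rfl ?_
        rw [prodK l z hl]
        exact Finset.prod_le_prod' fun i _ => K1_w1 ε l (z i) hε hε1 hl
    _ = _ := by
        rw [← mul_assoc]
        congr 1
        rw [mul_comm (2 : ℝ), ENNReal.ofReal_mul (by positivity), ENNReal.ofReal_ofNat]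

/-- the weight is integrable near the origin -/
lemma int_abs_rpow (ε L : ℝ) (hε : 0 < ε) :
    ∫⁻ z in Set.Icc (-L) L, ENNReal.ofReal |z| ^ (-1 + ε) < ⊤ := by
  have h0 : (volume : Measure ℝ) {0} = 0 := by simp
  have h1 : ∀ᵐ z : ℝ ∂(volume.restrict (Set.Icc (-L) L)), z ≠ 0 := by
    refine ae_restrict_of_ae ?_
    rw [ae_iff]
    simp
  have h2 : IntervalIntegrable (fun z : ℝ => |z| ^ (-1 + ε)) volume (-L) L := by
    have h3 : IntervalIntegrable (fun z : ℝ => z ^ (-1 + ε)) volume 0 |L| :=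
      intervalIntegral.intervalIntegrable_rpow' (by linarith)
    have h4 : IntervalIntegrable (fun z : ℝ => |z| ^ (-1 + ε)) volume 0 |L| := by
      refine h3.congr ?_
      intro z hz
      rw [Set.uIoc_of_le (abs_nonneg L)] at hz
      show _ = |z| ^ (-1 + ε)
      rw [abs_of_pos hz.1]
    have h5 : IntervalIntegrable (fun z : ℝ => |z| ^ (-1 + ε)) volume (-|L|) 0 := by
      have := (h4.comp_sub_left 0).symm
      simp only [zero_sub, sub_zero, abs_neg] at this
      exact this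
    refine (h5.trans h4).mono_set ?_
    intro z hz
    rw [Set.mem_uIcc] at *
    have h6 := neg_abs_le L
    have h7 := le_abs_self L
    have h8 := neg_le_abs L
    rcases hz with hz | hz
    · left
      exact ⟨by linarith [hz.1], by linarith [hz.2]⟩
    · left
      exact ⟨by linarith [hz.1], by linarith [hz.2]⟩
  by_cases hL : -L ≤ L
  · rw [intervalIntegrable_iff_integrableOn_Icc_of_le hL] at h2
    have h3 := h2.2
    unfold HasFiniteIntegral at h3
    refine lt_of_le_of_lt (le_of_eq ?_) h3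
    refine lintegral_congr_ae ?_
    filter_upwards [h1] with z hz
    rw [← ofReal_norm, Real.norm_of_nonneg (by positivity),
      ENNReal.ofReal_rpow_of_pos (abs_pos.2 hz)]
  · rw [Set.Icc_eq_empty hL]
    simp

end Pool.Agent.T9h44.LS4
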