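import Mathlib

/-!
# Local smoothing in the mean over flat metrics (helper44): geometric sums in `L^p`
-/

set_option autoImplicit false

namespace Pool.Agent.T9h44.LS4

open MeasureTheory Real
open scoped ENNReal

lemma tsum_rpow_le (a : ℕ → ℝ≥0∞) (p : ℝ) (hp : 0 < p) (r : ℝ≥0∞) (hr0 : r ≠ 0) (hr1 : r < 1) :
    (∑' j, a j) ^ p ≤ ((1 - r ^ (1 / p))⁻¹) ^ p * ∑' j, (r⁻¹) ^ j * a j ^ p := by
  set S : ℝ≥0∞ := ∑' j, (r⁻¹) ^ j * a j ^ p with hS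
  have hrt : r ≠ ⊤ := (hr1.trans ENNReal.one_lt_top).ne
  have h1 : ∀ j, a j ≤ S ^ (1 / p) * (r ^ (1 / p)) ^ j := by
    intro j
    have h2 : (r⁻¹) ^ j * a j ^ p ≤ S := ENNReal.le_tsum j
    have h3 : a j ^ p ≤ S * r ^ j := by
      calc a j ^ p = r ^ j * ((r⁻¹) ^ j * a j ^ p) := by
            rw [← mul_assoc, ← mul_pow, ENNReal.mul_inv_cancel hr0 hrt, one_pow, one_mul]
        _ ≤ r ^ j * S := mul_le_mul' le_rfl h2
        _ = _ := mul_comm _ _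
    have h4 := ENNReal.rpow_le_rpow h3 (by positivity : 0 ≤ 1 / p)
    rw [← ENNReal.rpow_mul, mul_one_div_cancel hp.ne', ENNReal.rpow_one,
      ENNReal.mul_rpow_of_nonneg _ _ (by positivity)] at h4
    refine h4.trans (le_of_eq ?_)
    rw [← ENNReal.rpow_natCast, ← ENNReal.rpow_natCast, ← ENNReal.rpow_mul, ← ENNReal.rpow_mul,
      mul_comm (j : ℝ)]
  calc (∑' j, a j) ^ p ≤ (∑' j, S ^ (1 / p) * (r ^ (1 / p)) ^ j) ^ p :=
        ENNReal.rpow_le_rpow (ENNReal.tsum_le_tsum h1) hp.le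
    _ = _ := by
        rw [ENNReal.tsum_mul_left, ENNReal.tsum_geometric, ENNReal.mul_rpow_of_nonneg _ _ hp.le,
          ← ENNReal.rpow_mul, one_div_mul_cancel hp.ne', ENNReal.rpow_one, mul_comm]

/-- geometric sums -/
theorem sum_pow {X : Type*} [MeasurableSpace X] (μ : Measure X) (w : ℕ → X → ℝ≥0∞)
    (hw : ∀ j, Measurable (w j)) (p : ℝ) (hp : 0 < p) (B r : ℝ≥0∞) (hr0 : r ≠ 0) (hr1 : r < 1)
    (h : ∀ j, ∫⁻ x, w j x ^ p ∂μ ≤ B * (r ^ j) ^ 2) :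
    ∫⁻ x, (∑' j, w j x) ^ p ∂μ ≤ ((1 - r ^ (1 / p))⁻¹) ^ p * (1 - r)⁻¹ * B := by
  have hrt : r ≠ ⊤ := (hr1.trans ENNReal.one_lt_top).ne
  have hr1p : r ^ (1 / p) < 1 := ENNReal.rpow_lt_one hr1 (by positivity)
  have hD : ((1 - r ^ (1 / p))⁻¹) ^ p ≠ ⊤ := by
    refine ENNReal.rpow_ne_top_of_nonneg hp.le ?_
    rw [ENNReal.inv_ne_top]
    exact (tsub_pos_of_lt hr1p).ne'
  calc ∫⁻ x, (∑' j, w j x) ^ p ∂μ
      ≤ ∫⁻ x, ((1 - r ^ (1 / p))⁻¹) ^ p * ∑' j, (r⁻¹) ^ j * w j x ^ p ∂μ :=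
        lintegral_mono fun x => tsum_rpow_le (fun j => w j x) p hp r hr0 hr1
    _ = ((1 - r ^ (1 / p))⁻¹) ^ p * ∑' j, (r⁻¹) ^ j * ∫⁻ x, w j x ^ p ∂μ := by
        rw [lintegral_const_mul' _ _ hD, lintegral_tsum]
        · congr 1
          refine tsum_congr fun j => ?_
          rw [lintegral_const_mul _ ((hw j).pow_const p)]
        · intro j
          exact (((hw j).pow_const p).const_mul _).aemeasurable
    _ ≤ ((1 - r ^ (1 / p))⁻¹) ^ p * ∑' j, r ^ j * B := by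
        refine mul_le_mul' le_rfl (ENNReal.tsum_le_tsum fun j => ?_)
        refine (mul_le_mul' le_rfl (h j)).trans (le_of_eq ?_)
        calc (r⁻¹) ^ j * (B * (r ^ j) ^ 2) = ((r⁻¹) ^ j * r ^ j) * (r ^ j * B) := by ring
          _ = r ^ j * B := by
              rw [← mul_pow, ENNReal.inv_mul_cancel hr0 hrt, one_pow, one_mul]
    _ = _ := by
        rw [ENNReal.tsum_mul_right, ENNReal.tsum_geometric, mul_assoc]

lemma sum_pow_const_lt (p : ℝ) (hp : 0 < p) (r : ℝ≥0∞) (hr1 : r < 1) :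
    ((1 - r ^ (1 / p))⁻¹) ^ p * (1 - r)⁻¹ < ⊤ := by
  have hr1p : r ^ (1 / p) < 1 := ENNReal.rpow_lt_one hr1 (by positivity)
  refine ENNReal.mul_lt_top (ENNReal.rpow_lt_top_of_nonneg hp.le ?_) ?_
  · rw [ENNReal.inv_ne_top]
    exact (tsub_pos_of_lt hr1p).ne'
  · rw [ENNReal.inv_lt_top]
    exact tsub_pos_of_lt hr1

end Pool.Agent.T9h44.LS4
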