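import Pool.Agent.T9h44.LS4.AS2

/-!
# Local smoothing in the mean over flat metrics (helper44): one dyadic shell, both signs
-/

set_option autoImplicit false

namespace Pool.Agent.T9h44.LS4

open MeasureTheory Real Pool.Agent.N303.LS Pool.Agent.N558.LS
open scoped ENNReal SchwartzMap RealInnerProductSpace FourierTransform ComplexConjugate

variable {n : ℕ}

/-- the conjugate of a Schwartz function -/
noncomputable def cj (h : 𝓢(E n, ℂ)) : 𝓢(E n, ℂ) :=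
  SchwartzMap.postcompCLM (𝕜 := ℝ) (Complex.conjCLE : ℂ →L[ℝ] ℂ) h

lemma cj_apply (h : 𝓢(E n, ℂ)) (x : E n) : cj h x = conj (h x) := rfl

lemma fou_cj (h : 𝓢(E n, ℂ)) (ξ : E n) :
    𝓕 (cj h : E n → ℂ) ξ = conj (𝓕 (h : E n → ℂ) (-ξ)) := by
  rw [Real.fourier_eq', Real.fourier_eq', ← integral_conj]
  refine integral_congr_ae (Filter.Eventually.of_forall fun x => ?_)
  simp only [smul_eq_mul]
  rw [cj_apply, map_mul, ← Complex.exp_conj, map_mul, Complex.conj_ofReal, Complex.conj_I,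
    inner_neg_right]
  congr 2
  push_cast
  ring

lemma enorm_conj (z : ℂ) : ‖conj z‖ₑ = ‖z‖ₑ := by
  rw [← ofReal_norm, ← ofReal_norm, RCLike.norm_conj]

/-- the wave of the opposite sign -/
lemma inv_minus (a : ℝ) (g : Fin n → ℝ) (μ : E n → ℝ) (hμ : ∀ ξ, μ (-ξ) = μ ξ) (h : 𝓢(E n, ℂ))
    (x : E n) :
    inv (fun ξ => Complex.exp (((-(a * Ng g ξ) : ℝ) : ℂ) * Complex.I) * ((μ ξ : ℝ) : ℂ) *
        𝓕 (h : E n → ℂ) ξ) x =
      conj (inv (fun ξ => Complex.exp (((a * Ng g ξ : ℝ) : ℂ) * Complex.I) * ((μ ξ : ℝ) : ℂ) *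
        𝓕 (cj h : E n → ℂ) ξ) x) := by
  unfold inv
  rw [← integral_conj, ← integral_neg_eq_self]
  refine integral_congr_ae (Filter.Eventually.of_forall fun ξ => ?_)
  simp only
  rw [fou_cj, Ng_neg, hμ]
  simp only [map_mul, Complex.conj_ofReal, Complex.conj_conj, ← Complex.exp_conj,
    Complex.conj_I, inner_neg_right]
  have e1 : (((2 * π * -⟪x, ξ⟫ : ℝ) : ℂ) * Complex.I) = (((2 * π * ⟪x, ξ⟫ : ℝ) : ℂ) *
      -Complex.I) := by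
    push_cast
    ring
  have e2 : (((-(a * Ng g ξ) : ℝ) : ℂ) * Complex.I) = (((a * Ng g ξ : ℝ) : ℂ) *
      -Complex.I) := by
    push_cast
    ring
  rw [e1, e2]

/-- one shell, negative sign -/
theorem hi_minus (p : ℝ) (hp : 1 ≤ p) (ε : ℝ) (hL : LinkSt n) (hR : RoughEst n p ε)
    (m : (Fin n → ℝ) → ℝ → E n → ℝ) (hm : ∀ g κ η, m g κ (-η) = m g κ η) (C : ℝ) (hC : 0 < C)
    (hM : ∀ t ∈ Set.Icc (1 : ℝ) 2, ∀ g ∈ box n, ∀ κ ∈ Set.Icc (0 : ℝ) 1, ∀ R : ℝ, 0 < R →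
      MulB C p fun ξ => ((Real.exp (2 * π / t * Real.sqrt (Qd (fun i => (g i)⁻¹) (R⁻¹ • ξ))) *
        m g κ (R⁻¹ • ξ) : ℝ) : ℂ)) :
    ∃ K : ℝ, 0 < K ∧ ∀ (h : 𝓢(E n, ℂ)) (R : ℝ), 1 ≤ R →
      ∫⁻ g in box n, ∫⁻ t in Set.Icc (1 : ℝ) 2, ∫⁻ x : E n,
        ‖inv (fun ξ => Complex.exp (((-(2 * π * t * Ng g ξ) : ℝ) : ℂ) * Complex.I) *
          ((m g ((R⁻¹) ^ 2) (R⁻¹ • ξ) : ℝ) : ℂ) * 𝓕 (h : E n → ℂ) ξ) x‖ₑ ^ p ≤
      ENNReal.ofReal (K * R ^ ((p - 2) / 2 + ε)) * ∫⁻ x : E n, ‖h x‖ₑ ^ p := by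
  obtain ⟨K, hK, h1⟩ := hi_plus p hp ε hL hR m C hC hM
  refine ⟨K, hK, fun h R hR1 => ?_⟩
  have h2 := h1 (cj h) R hR1
  have e1 : ∫⁻ x : E n, ‖cj h x‖ₑ ^ p = ∫⁻ x : E n, ‖h x‖ₑ ^ p := by
    refine lintegral_congr fun x => ?_
    rw [cj_apply, enorm_conj]
  rw [e1] at h2
  refine le_trans (le_of_eq ?_) h2
  refine lintegral_congr fun g => lintegral_congr fun t => lintegral_congr fun x => ?_
  rw [inv_minus (2 * π * t) g (fun ξ => m g ((R⁻¹) ^ 2) (R⁻¹ • ξ)) (fun ξ => by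
    rw [smul_neg, hm]) h x, enorm_conj]

end Pool.Agent.T9h44.LS4
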