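import Pool.Agent.T9h44.LS4.AS3
import Pool.Agent.T9h44.LS4.AS1

/-!
# Local smoothing in the mean over flat metrics (helper44): the sum over the shells
-/

set_option autoImplicit false

namespace Pool.Agent.T9h44.LS4

open MeasureTheory Real Pool.Agent.N303.LS Pool.Agent.N558.LS
open scoped ENNReal SchwartzMap RealInnerProductSpace FourierTransform ComplexConjugate Topology

variable {n : ℕ}

lemma inv_add (F G : E n → ℂ) (hF : Integrable F) (hG : Integrable G) (x : E n) :
    inv (fun ξ => F ξ + G ξ) x = inv F x + inv G x := by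
  unfold inv
  rw [← integral_add]
  · refine integral_congr_ae (Filter.Eventually.of_forall fun ξ => ?_)
    simp only
    ring
  · exact hF.bdd_mul (c := 1) (by fun_prop)
      (Filter.Eventually.of_forall fun ξ => (Complex.norm_exp_ofReal_mul_I _).le)
  · exact hG.bdd_mul (c := 1) (by fun_prop)
      (Filter.Eventually.of_forall fun ξ => (Complex.norm_exp_ofReal_mul_I _).le)

lemma inv_const_mul (c : ℂ) (F : E n → ℂ) (x : E n) :
    inv (fun ξ => c * F ξ) x = c * inv F x := by
  unfold inv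
  rw [← integral_const_mul]
  refine integral_congr_ae (Filter.Eventually.of_forall fun ξ => ?_)
  simp only
  ring

/-- the bump function -/
noncomputable def bmp (n : ℕ) : ContDiffBump (0 : E n) := ⟨1, 2, one_pos, one_lt_two⟩

/-- the cutoff of the low frequencies -/
noncomputable def phi (n : ℕ) (η : E n) : ℝ := bmp n η

/-- the cutoff of a dyadic shell -/
noncomputable def psi (n : ℕ) (η : E n) : ℝ := phi n η - phi n ((2 : ℝ) • η)

lemma phi_smooth : ContDiff ℝ (⊤ : ℕ∞) (phi n) := (bmp n).contDiff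

lemma phi_nonneg (η : E n) : 0 ≤ phi n η := (bmp n).nonneg

lemma phi_le_one (η : E n) : phi n η ≤ 1 := (bmp n).le_one

lemma phi_one (η : E n) (h : ‖η‖ ≤ 1) : phi n η = 1 := by
  refine (bmp n).one_of_mem_closedBall ?_
  rw [Metric.mem_closedBall, dist_zero_right]
  exact h

lemma phi_zero (η : E n) (h : 2 ≤ ‖η‖) : phi n η = 0 := by
  refine (bmp n).zero_of_le_dist ?_
  rw [dist_zero_right]
  exact h

lemma phi_neg (η : E n) : phi n (-η) = phi n η := (bmp n).neg η

lemma psi_smooth : ContDiff ℝ (⊤ : ℕ∞) (psi n) :=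
  phi_smooth.sub (phi_smooth.comp (contDiff_const_smul 2))

lemma psi_neg (η : E n) : psi n (-η) = psi n η := by
  unfold psi
  rw [smul_neg, phi_neg, phi_neg]

lemma psi_low (η : E n) (h : ‖η‖ < 1 / 2) : psi n η = 0 := by
  unfold psi
  rw [phi_one η (by linarith), phi_one _ (by
    rw [norm_smul, Real.norm_eq_abs, abs_of_pos (by norm_num : (0 : ℝ) < 2)]
    linarith), sub_self]

lemma psi_high (η : E n) (h : 2 < ‖η‖) : psi n η = 0 := by
  unfold psi
  rw [phi_zero η h.le, phi_zero _ (by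
    rw [norm_smul, Real.norm_eq_abs, abs_of_pos (by norm_num : (0 : ℝ) < 2)]
    linarith), sub_self]

lemma phi_abs (η : E n) : ‖((phi n η : ℝ) : ℂ)‖ ≤ 1 := by
  rw [Complex.norm_real, Real.norm_of_nonneg (phi_nonneg η)]
  exact phi_le_one η

lemma telescope (J : ℕ) (ξ : E n) :
    phi n (((2 : ℝ) ^ J)⁻¹ • ξ) = phi n ξ +
      ∑ j ∈ Finset.range J, psi n (((2 : ℝ) ^ (j + 1))⁻¹ • ξ) := by
  induction J with
  | zero => simp
  | succ J ih =>
    rw [Finset.sum_range_succ, ← add_assoc, ← ih]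
    unfold psi
    have e : (2 : ℝ) • ((2 : ℝ) ^ (J + 1))⁻¹ • ξ = ((2 : ℝ) ^ J)⁻¹ • ξ := by
      rw [smul_smul]
      congr 1
      rw [pow_succ]
      field_simp
    rw [e]
    ring

lemma phi_cont : Continuous (phi n) := phi_smooth.continuous

lemma psi_cont : Continuous (psi n) := psi_smooth.continuous

/-- the decomposition into shells, pointwise -/
lemma shells (S : E n → ℂ) (hS : Integrable S) (x : E n) :
    ‖inv S x‖ₑ ≤ ‖inv (fun ξ => ((phi n ξ : ℝ) : ℂ) * S ξ) x‖ₑ +
      ∑' j : ℕ, ‖inv (fun ξ => ((psi n (((2 : ℝ) ^ (j + 1))⁻¹ • ξ) : ℝ) : ℂ) * S ξ) x‖ₑ := by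
  have hφ : ∀ c : ℝ, Continuous fun ξ : E n => ((phi n (c • ξ) : ℝ) : ℂ) := fun c =>
    Complex.continuous_ofReal.comp (phi_cont.comp (continuous_const_smul c))
  have hψ : ∀ c : ℝ, Continuous fun ξ : E n => ((psi n (c • ξ) : ℝ) : ℂ) := fun c =>
    Complex.continuous_ofReal.comp (psi_cont.comp (continuous_const_smul c))
  have hφi : ∀ c : ℝ, Integrable fun ξ : E n => ((phi n (c • ξ) : ℝ) : ℂ) * S ξ := fun c =>
    hS.bdd_mul (c := 1) (hφ c).aestronglyMeasurable (Filter.Eventually.of_forall fun ξ => phi_abs _)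
  have hψi : ∀ c : ℝ, Integrable fun ξ : E n => ((psi n (c • ξ) : ℝ) : ℂ) * S ξ := fun c =>
    hS.bdd_mul (c := 2) (hψ c).aestronglyMeasurable (Filter.Eventually.of_forall fun ξ => by
      unfold psi
      push_cast
      refine (norm_sub_le _ _).trans ?_
      linarith [phi_abs (c • ξ), phi_abs ((2 : ℝ) • c • ξ)])
  have hφ1 : Integrable fun ξ : E n => ((phi n ξ : ℝ) : ℂ) * S ξ := by
    have := hφi 1
    simpa only [one_smul] using this
  have hpart : ∀ J : ℕ, inv (fun ξ => ((phi n (((2 : ℝ) ^ J)⁻¹ • ξ) : ℝ) : ℂ) * S ξ) x =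
      inv (fun ξ => ((phi n ξ : ℝ) : ℂ) * S ξ) x + ∑ j ∈ Finset.range J,
        inv (fun ξ => ((psi n (((2 : ℝ) ^ (j + 1))⁻¹ • ξ) : ℝ) : ℂ) * S ξ) x := by
    intro J
    induction J with
    | zero => simp
    | succ J ih =>
      rw [Finset.sum_range_succ, ← add_assoc, ← ih, ← inv_add _ _ (hφi _) (hψi _)]
      congr 1
      funext ξ
      rw [telescope (J + 1), Finset.sum_range_succ, ← add_assoc, ← telescope J]
      push_cast
      ring
  have hlim : Filter.Tendsto (fun J : ℕ =>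
      inv (fun ξ => ((phi n (((2 : ℝ) ^ J)⁻¹ • ξ) : ℝ) : ℂ) * S ξ) x) Filter.atTop
      (𝓝 (inv S x)) := by
    unfold inv
    refine tendsto_integral_of_dominated_convergence (fun ξ => ‖S ξ‖) ?_ hS.norm ?_ ?_
    · intro J
      exact ((hφi _).bdd_mul (c := 1) (by fun_prop)
        (Filter.Eventually.of_forall fun ξ =>
          (Complex.norm_exp_ofReal_mul_I _).le)).aestronglyMeasurable
    · intro J
      refine Filter.Eventually.of_forall fun ξ => ?_
      rw [norm_mul, Complex.norm_exp_ofReal_mul_I, one_mul, norm_mul]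
      exact mul_le_of_le_one_left (norm_nonneg _) (phi_abs _)
    · refine Filter.Eventually.of_forall fun ξ => ?_
      have h1 : Filter.Tendsto (fun J : ℕ => ((2 : ℝ) ^ J)⁻¹ • ξ) Filter.atTop (𝓝 (0 : E n)) := by
        have h2 : Filter.Tendsto (fun J : ℕ => ((2 : ℝ) ^ J)⁻¹) Filter.atTop (𝓝 0) :=
          (tendsto_pow_atTop_atTop_of_one_lt (by norm_num : (1 : ℝ) < 2)).inv_tendsto_atTop
        have := h2.smul_const ξ
        rwa [zero_smul] at this
      have h3 : Filter.Tendsto (fun J : ℕ => phi n (((2 : ℝ) ^ J)⁻¹ • ξ)) Filter.atTop (𝓝 1) := by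
        have h4 := (phi_cont (n := n)).tendsto 0
        rw [phi_one 0 (by simp)] at h4
        exact h4.comp h1
      have h5 : Filter.Tendsto (fun J : ℕ => ((phi n (((2 : ℝ) ^ J)⁻¹ • ξ) : ℝ) : ℂ))
          Filter.atTop (𝓝 ((1 : ℝ) : ℂ)) := (Complex.continuous_ofReal.tendsto 1).comp h3
      have h6 := (h5.mul_const (S ξ)).const_mul
        (Complex.exp (((2 * π * ⟪x, ξ⟫ : ℝ) : ℂ) * Complex.I))
      simpa only [Complex.ofReal_one, one_mul] using h6
  refine le_of_tendsto' (hlim.enorm) fun J => ?_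
  rw [hpart J]
  refine (enorm_add_le _ _).trans (add_le_add le_rfl ?_)
  refine (enorm_sum_le _ _).trans ?_
  exact ENNReal.sum_le_tsum _

/-- measurability in the parameters -/
lemma meas_inv (S : (Fin n → ℝ) × ℝ × E n → ℂ) (hS : Measurable S) :
    Measurable fun p : (Fin n → ℝ) × ℝ × E n => inv (fun ξ => S (p.1, p.2.1, ξ)) p.2.2 := by
  unfold inv
  have h1 : Measurable fun p : ((Fin n → ℝ) × ℝ × E n) × E n =>
      Complex.exp (((2 * π * ⟪p.1.2.2, p.2⟫ : ℝ) : ℂ) * Complex.I) * S (p.1.1, p.1.2.1, p.2) := by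
    refine Measurable.mul ?_ ?_
    · exact (by fun_prop : Continuous fun p : ((Fin n → ℝ) × ℝ × E n) × E n =>
        Complex.exp (((2 * π * ⟪p.1.2.2, p.2⟫ : ℝ) : ℂ) * Complex.I)).measurable
    · exact Measurable.comp (g := S) (f := fun p : ((Fin n → ℝ) × ℝ × E n) × E n =>
        (p.1.1, p.1.2.1, p.2)) hS (by fun_prop)
  exact (h1.stronglyMeasurable.integral_prod_right').measurable

/-- iterated integrals -/
lemma iter (f : (Fin n → ℝ) × ℝ × E n → ℝ≥0∞) (hf : Measurable f) :
    ∫⁻ g in box n, ∫⁻ t in Set.Icc (1 : ℝ) 2, ∫⁻ x : E n, f (g, t, x) =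
      ∫⁻ p, f p ∂((volume.restrict (box n)).prod
        ((volume.restrict (Set.Icc (1 : ℝ) 2)).prod (volume : Measure (E n)))) := by
  rw [lintegral_prod _ hf.aemeasurable]
  refine lintegral_congr fun g => ?_
  rw [lintegral_prod]
  exact (hf.comp (measurable_prodMk_left)).aemeasurable

end Pool.Agent.T9h44.LS4
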