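import Pool.Agent.T9h44.LS4.PF
import Pool.Agent.T9h44.LS4.A3

/-!
# Local smoothing in the mean over flat metrics (helper44): the kernel, and the statements
of the parts
-/

set_option autoImplicit false

namespace Pool.Agent.T9h44.LS4

open MeasureTheory Real
open scoped ENNReal ComplexConjugate

/-- the kernel of the regularised wave (`w = t² - y²/t²`) -/
noncomputable def Ker (n : ℕ) (y w : ℝ) (g z : Fin n → ℝ) : ℂ :=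
  ∫ s in Set.Ioi (0 : ℝ),
    ((s ^ (((n : ℝ) - 1) / 2) * Real.exp (-(2 * π * s * y)) : ℝ) : ℂ) * os s (q g z - w)

/-- the norm of the frequency `ξ` with respect to the metric `g` -/
noncomputable def Nm {n : ℕ} (g ξ : Fin n → ℝ) : ℝ := Real.sqrt (∑ i, ξ i ^ 2 / g i)

/-- the complex time -/
noncomputable def tau (y t : ℝ) : ℂ := (t : ℂ) + ((y / t : ℝ) : ℂ) * Complex.I

/-- statement C4 (helper82) -/
def KHat (n : ℕ) : Prop :=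
  ∀ g : Fin n → ℝ, (∀ i, 0 < g i) → ∀ y t : ℝ, 0 < y → 0 < t → ∀ ξ : Fin n → ℝ,
    ∫ z : Fin n → ℝ, Complex.exp (((-(2 * π * ∑ i, z i * ξ i) : ℝ) : ℂ) * Complex.I) *
        Ker n y (t ^ 2 - y ^ 2 / t ^ 2) g z =
      (((∏ i, g i) ^ (-(1 / 2) : ℝ) : ℝ) : ℂ) *
        Complex.exp (-(Complex.I * (π * ((n : ℝ) - 1) / 4 : ℝ))) / tau y t *
        Complex.exp (2 * π * Complex.I * (Nm g ξ : ℝ) * tau y t)

/-- the near estimate (helper44, ME.lean) -/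
def NearEst (n : ℕ) (ε L : ℝ) : Prop :=
  ∃ C : ℝ, 0 < C ∧ ∀ F : (Fin n → ℝ) → ℂ, Measurable F → (∃ B : ℝ, ∀ u, ‖F u‖ ≤ B) →
    (∀ u v, F u ≠ 0 → F v ≠ 0 → ∀ i, |u i - v i| ≤ L) → ∀ y : ℝ, 0 < y → y ≤ 1 →
    ∫⁻ g in box n, ∫⁻ x : Fin n → ℝ, ∫⁻ w : ℝ,
        ‖∫ u, Ker n y w g (x - u) * F u‖ₑ ^ (4 : ℝ) ≤
      ENNReal.ofReal (C * y ^ (-(1 + n * ε / 2))) * ∫⁻ u, ‖F u‖ₑ ^ (4 : ℝ)

/-- the estimate for all bounded integrable functions -/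
def RoughEst (n : ℕ) (p ε : ℝ) : Prop :=
  ∃ C : ℝ, 0 < C ∧ ∀ F : (Fin n → ℝ) → ℂ, Measurable F → Integrable F →
    (∃ B : ℝ, ∀ u, ‖F u‖ ≤ B) → ∀ y : ℝ, 0 < y → y ≤ 1 →
    ∫⁻ g in box n, ∫⁻ t in Set.Icc (1 : ℝ) 2, ∫⁻ x : Fin n → ℝ,
        ‖∫ u, Ker n y (t ^ 2 - y ^ 2 / t ^ 2) g (x - u) * F u‖ₑ ^ p ≤
      ENNReal.ofReal (C * y ^ (-((p - 2) / 2 + ε))) * ∫⁻ u, ‖F u‖ₑ ^ p

end Pool.Agent.T9h44.LS4
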