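import Pool.Agent.T9h44.LS4.Ker

/-!
# Local smoothing in the mean over flat metrics (helper44): one value of θ
-/

set_option autoImplicit false

namespace Pool.Agent.T9h44.LS4

open MeasureTheory Real Pool.Agent.TH280.LS
open scoped ENNReal ComplexConjugate

variable {n : ℕ}

lemma lint_prod (f : ℝ → ℝ≥0∞) (hf : Measurable f) :
    ∀ n : ℕ, ∫⁻ z : Fin n → ℝ, ∏ i, f (z i) = (∫⁻ x, f x) ^ n
  | 0 => by simp [volume_pi]
  | n + 1 => by
    have h1 := ((volume_preserving_piFinSuccAbove (fun _ : Fin (n + 1) => ℝ)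
      0).symm).lintegral_comp_emb (MeasurableEquiv.measurableEmbedding _)
      (fun z : Fin (n + 1) → ℝ => ∏ i, f (z i))
    have h2 : ∀ a : ℝ × (Fin n → ℝ), (∏ i, f ((MeasurableEquiv.piFinSuccAbove
        (fun _ : Fin (n + 1) => ℝ) 0).symm a i)) = f a.1 * ∏ i, f (a.2 i) := by
      intro a
      rw [Fin.prod_univ_succ]
      rfl
    rw [← h1]
    have h := lint_prod f hf n
    rw [pow_succ', ← h]
    refine (lintegral_congr h2).trans ?_
    exact lintegral_prod_mul (μ := (volume : Measure ℝ)) (ν := (volume : Measure (Fin n → ℝ)))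
      (g := fun z : Fin n → ℝ => ∏ i, f (z i)) hf.aemeasurable
      (Finset.measurable_prod _ fun i _ => hf.comp (measurable_pi_apply i)).aemeasurable

lemma meas_w1 (ε l : ℝ) : Measurable (w1 ε l) := by
  unfold w1
  fun_prop

lemma meas_Pw {F : (Fin n → ℝ) → ℂ} (hF : Measurable F) :
    Measurable fun p : (Fin n → ℝ) × ℝ × (Fin n → ℝ) => Pw F p.1 p.2.1 p.2.2 := by
  unfold Pw
  have hq : Continuous fun p : ((Fin n → ℝ) × ℝ × (Fin n → ℝ)) × (Fin n → ℝ) =>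
      os p.1.2.1 (q p.1.1 (p.1.2.2 - p.2)) :=
    continuous_os.comp ((by fun_prop : Continuous fun p : ((Fin n → ℝ) × ℝ × (Fin n → ℝ)) ×
      (Fin n → ℝ) => p.1.2.1).prodMk (continuous_q.comp (by fun_prop : Continuous fun p :
      ((Fin n → ℝ) × ℝ × (Fin n → ℝ)) × (Fin n → ℝ) => (p.1.1, p.1.2.2 - p.2))))
  have hm : Measurable fun p : ((Fin n → ℝ) × ℝ × (Fin n → ℝ)) × (Fin n → ℝ) =>
      os p.1.2.1 (q p.1.1 (p.1.2.2 - p.2)) * F p.2 :=
    hq.measurable.mul (hF.comp measurable_snd)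
  exact (hm.stronglyMeasurable.integral_prod_right').measurable

lemma meas_Hb {F : (Fin n → ℝ) → ℂ} (hF : Measurable F) :
    Measurable fun p : ℝ × ℝ × (Fin n → ℝ) × (Fin n → ℝ) =>
      Hb F p.1 p.2.1 p.2.2.1 p.2.2.2 := by
  unfold Hb
  have hq : Continuous fun p : (ℝ × ℝ × (Fin n → ℝ) × (Fin n → ℝ)) × (Fin n → ℝ) =>
      os (p.1.1 * (1 - p.1.1) * p.1.2.1) (q p.1.2.2.1 p.2) :=
    continuous_os.comp ((by fun_prop : Continuous fun p : (ℝ × ℝ × (Fin n → ℝ) × (Fin n → ℝ)) ×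
      (Fin n → ℝ) => p.1.1 * (1 - p.1.1) * p.1.2.1).prodMk (continuous_q.comp (by fun_prop :
      Continuous fun p : (ℝ × ℝ × (Fin n → ℝ) × (Fin n → ℝ)) × (Fin n → ℝ) =>
        (p.1.2.2.1, p.2))))
  have h1 : Measurable fun p : (ℝ × ℝ × (Fin n → ℝ) × (Fin n → ℝ)) × (Fin n → ℝ) =>
      F (p.1.2.2.2 + (1 - p.1.1) • p.2) := hF.comp (by fun_prop)
  have h2 : Measurable fun p : (ℝ × ℝ × (Fin n → ℝ) × (Fin n → ℝ)) × (Fin n → ℝ) =>
      F (p.1.2.2.2 - p.1.1 • p.2) := hF.comp (by fun_prop)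
  have hm : Measurable fun p : (ℝ × ℝ × (Fin n → ℝ) × (Fin n → ℝ)) × (Fin n → ℝ) =>
      os (p.1.1 * (1 - p.1.1) * p.1.2.1) (q p.1.2.2.1 p.2) *
        (F (p.1.2.2.2 + (1 - p.1.1) • p.2) * F (p.1.2.2.2 - p.1.1 • p.2)) :=
    hq.measurable.mul (h1.mul h2)
  exact (hm.stronglyMeasurable.integral_prod_right').measurable

/-- the product of the two Schrödinger waves -/
noncomputable def Qf (F : (Fin n → ℝ) → ℂ) (θ σ : ℝ) (g x : Fin n → ℝ) : ℂ :=
  Pw F g (θ * σ) x * Pw F g (σ - θ * σ) x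

lemma meas_Qf {F : (Fin n → ℝ) → ℂ} (hF : Measurable F) :
    Measurable fun p : ℝ × ℝ × (Fin n → ℝ) × (Fin n → ℝ) =>
      Qf F p.1 p.2.1 p.2.2.1 p.2.2.2 := by
  unfold Qf
  have h1 : Measurable fun p : ℝ × ℝ × (Fin n → ℝ) × (Fin n → ℝ) =>
      Pw F p.2.2.1 (p.1 * p.2.1) p.2.2.2 :=
    Measurable.comp (g := fun p : (Fin n → ℝ) × ℝ × (Fin n → ℝ) => Pw F p.1 p.2.1 p.2.2)
      (f := fun p : ℝ × ℝ × (Fin n → ℝ) × (Fin n → ℝ) => (p.2.2.1, p.1 * p.2.1, p.2.2.2))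
      (meas_Pw hF) (by fun_prop)
  have h2 : Measurable fun p : ℝ × ℝ × (Fin n → ℝ) × (Fin n → ℝ) =>
      Pw F p.2.2.1 (p.2.1 - p.1 * p.2.1) p.2.2.2 :=
    Measurable.comp (g := fun p : (Fin n → ℝ) × ℝ × (Fin n → ℝ) => Pw F p.1 p.2.1 p.2.2)
      (f := fun p : ℝ × ℝ × (Fin n → ℝ) × (Fin n → ℝ) =>
        (p.2.2.1, p.2.1 - p.1 * p.2.1, p.2.2.2))
      (meas_Pw hF) (by fun_prop)
  exact h1.mul h2

lemma norm_Pw (F : (Fin n → ℝ) → ℂ) (g : Fin n → ℝ) (s : ℝ) (x : Fin n → ℝ) :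
    ‖Pw F g s x‖ ≤ ∫ u, ‖F u‖ := by
  unfold Pw
  refine (norm_integral_le_integral_norm _).trans (le_of_eq ?_)
  refine integral_congr_ae (Filter.Eventually.of_forall fun u => ?_)
  simp only [norm_mul, norm_os, one_mul]

lemma norm_Qf (F : (Fin n → ℝ) → ℂ) (θ σ : ℝ) (g x : Fin n → ℝ) :
    ‖Qf F θ σ g x‖ ≤ (∫ u, ‖F u‖) ^ 2 := by
  unfold Qf
  rw [norm_mul, sq]
  exact mul_le_mul (norm_Pw _ _ _ _) (norm_Pw _ _ _ _) (norm_nonneg _)
    (integral_nonneg fun _ => norm_nonneg _)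

/-- the estimate of the bilinear average: the integral over the support -/
lemma supp_int {F : (Fin n → ℝ) → ℂ} (hF : Measurable F) (L : ℝ)
    (hL : ∀ u v, F u ≠ 0 → F v ≠ 0 → ∀ i, |u i - v i| ≤ L) (ε l θ : ℝ) :
    ∫⁻ u, ∫⁻ z : Fin n → ℝ, ‖F (u + (1 - θ) • z) * F (u - θ • z)‖ₑ ^ 2 * ∏ i, w1 ε l (z i) ≤
      (∫⁻ z in Set.Icc (-L) L, w1 ε l z) ^ n * ∫⁻ u, ‖F u‖ₑ ^ 4 := by
  have hm1 : Measurable fun p : (Fin n → ℝ) × (Fin n → ℝ) => F (p.1 + (1 - θ) • p.2) :=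
    hF.comp (by fun_prop)
  have hm2 : Measurable fun p : (Fin n → ℝ) × (Fin n → ℝ) => F (p.1 - θ • p.2) :=
    hF.comp (by fun_prop)
  have hmw : Measurable fun z : Fin n → ℝ => ∏ i, w1 ε l (z i) :=
    Finset.measurable_prod _ fun i _ => (meas_w1 ε l).comp (measurable_pi_apply i)
  have hswap : ∫⁻ u, ∫⁻ z : Fin n → ℝ, ‖F (u + (1 - θ) • z) * F (u - θ • z)‖ₑ ^ 2 *
      ∏ i, w1 ε l (z i) = ∫⁻ z : Fin n → ℝ, ∫⁻ u, ‖F (u + (1 - θ) • z) * F (u - θ • z)‖ₑ ^ 2 *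
      ∏ i, w1 ε l (z i) := by
    refine lintegral_lintegral_swap ?_
    refine Measurable.aemeasurable ?_
    exact ((hm1.mul hm2).enorm.pow_const 2).mul (hmw.comp measurable_snd)
  rw [hswap]
  have hz : ∀ z : Fin n → ℝ, ∫⁻ u, ‖F (u + (1 - θ) • z) * F (u - θ • z)‖ₑ ^ 2 *
      ∏ i, w1 ε l (z i) ≤ (∏ i, (Set.Icc (-L) L).indicator (w1 ε l) (z i)) *
        ∫⁻ u, ‖F u‖ₑ ^ 4 := by
    intro z
    by_cases hzL : ∀ i, z i ∈ Set.Icc (-L) L
    · have e : ∏ i, (Set.Icc (-L) L).indicator (w1 ε l) (z i) = ∏ i, w1 ε l (z i) :=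
        Finset.prod_congr rfl fun i _ => Set.indicator_of_mem (hzL i) _
      have hmm : Measurable fun u : Fin n → ℝ => ‖F (u + (1 - θ) • z) * F (u - θ • z)‖ₑ ^ 2 :=
        (Measurable.mul (hF.comp (by fun_prop)) (hF.comp (by fun_prop))).enorm.pow_const 2
      rw [e, lintegral_mul_const'' _ hmm.aemeasurable, mul_comm]
      refine mul_le_mul' le_rfl ?_
      have hab : ∀ a b : ℝ≥0∞, (a * b) ^ 2 ≤ (1 / 2) * a ^ 4 + (1 / 2) * b ^ 4 := by
        intro a b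
        have h := ENNReal.young_inequality (a ^ 2) (b ^ 2) Real.HolderConjugate.two_two
        have h2 : ∀ c : ℝ≥0∞, (c ^ 2) ^ (2 : ℝ) / ENNReal.ofReal 2 = (1 / 2) * c ^ 4 := by
          intro c
          rw [ENNReal.ofReal_ofNat, ← ENNReal.rpow_natCast, ← ENNReal.rpow_natCast,
            ← ENNReal.rpow_mul, ENNReal.div_eq_inv_mul, one_div]
          norm_num
        rw [h2, h2] at h
        rwa [mul_pow]
      calc ∫⁻ u, ‖F (u + (1 - θ) • z) * F (u - θ • z)‖ₑ ^ 2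
          ≤ ∫⁻ u, ((1 / 2) * ‖F (u + (1 - θ) • z)‖ₑ ^ 4 + (1 / 2) * ‖F (u - θ • z)‖ₑ ^ 4) := by
            refine lintegral_mono fun u => ?_
            rw [enorm_mul]
            exact hab _ _
        _ = (1 / 2) * (∫⁻ u, ‖F (u + (1 - θ) • z)‖ₑ ^ 4) +
            (1 / 2) * ∫⁻ u, ‖F (u - θ • z)‖ₑ ^ 4 := by
            rw [lintegral_add_left, lintegral_const_mul, lintegral_const_mul]
            · exact ((hF.comp (by fun_prop)).enorm.pow_const 4)
            · exact ((hF.comp (by fun_prop)).enorm.pow_const 4)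
            · exact ((hF.comp (by fun_prop)).enorm.pow_const 4).const_mul _
        _ = (1 / 2) * (∫⁻ u, ‖F u‖ₑ ^ 4) + (1 / 2) * ∫⁻ u, ‖F u‖ₑ ^ 4 := by
            rw [lintegral_add_right_eq_self (fun u => ‖F u‖ₑ ^ 4),
              lintegral_sub_right_eq_self (fun u => ‖F u‖ₑ ^ 4)]
        _ = ∫⁻ u, ‖F u‖ₑ ^ 4 := by
            rw [← add_mul, one_div, ENNReal.inv_two_add_inv_two, one_mul]
    · push Not at hzL
      obtain ⟨i, hi⟩ := hzL
      have h0 : ∀ u, ‖F (u + (1 - θ) • z) * F (u - θ • z)‖ₑ ^ 2 * ∏ i, w1 ε l (z i) = 0 := by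
        intro u
        have h1 : F (u + (1 - θ) • z) * F (u - θ • z) = 0 := by
          by_contra hne
          have h2 := hL _ _ (left_ne_zero_of_mul hne) (right_ne_zero_of_mul hne) i
          apply hi
          have h3 : (u + (1 - θ) • z) i - (u - θ • z) i = z i := by
            simp only [Pi.add_apply, Pi.sub_apply, Pi.smul_apply, smul_eq_mul]
            ring
          rw [h3, abs_le] at h2
          exact ⟨h2.1, h2.2⟩
        rw [h1, enorm_zero]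
        ring
      simp only [h0, lintegral_zero]
      exact zero_le
  refine (lintegral_mono hz).trans (le_of_eq ?_)
  rw [lintegral_mul_const, lint_prod _ ((meas_w1 ε l).indicator measurableSet_Icc),
    lintegral_indicator measurableSet_Icc]
  exact Finset.measurable_prod _ fun i _ =>
    ((meas_w1 ε l).indicator measurableSet_Icc).comp (measurable_pi_apply i)

end Pool.Agent.T9h44.LS4
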