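import Pool.Agent.T9h44.LS4.ME1

/-!
# Local smoothing in the mean over flat metrics (helper44): one value of θ
-/

set_option autoImplicit false

namespace Pool.Agent.T9h44.LS4

open MeasureTheory Real Pool.Agent.TH280.LS
open scoped ENNReal ComplexConjugate

variable {n : ℕ}

lemma w1_scale (ε l z : ℝ) (hl : 0 < l) :
    w1 ε l z = ENNReal.ofReal (l ^ (-1 + ε / 2)) * w1 ε 1 z := by
  unfold w1
  rw [Real.one_rpow, mul_one, ← mul_assoc, ← ENNReal.ofReal_mul (by positivity)]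
  congr 2
  ring

lemma comp_int {F : (Fin n → ℝ) → ℂ} (hF : Integrable F) (θ : ℝ) (hθ : 1 - θ ≠ 0)
    (u : Fin n → ℝ) : Integrable fun z : Fin n → ℝ => F (u + (1 - θ) • z) := by
  have h1 : Integrable fun z : Fin n → ℝ => F (u + z) := hF.comp_add_left u
  exact h1.comp_smul hθ

lemma Bu_int {F : (Fin n → ℝ) → ℂ} (hFm : Measurable F) (hF : Integrable F) (B : ℝ)
    (hB : ∀ u, ‖F u‖ ≤ B) (θ : ℝ) (hθ : 1 - θ ≠ 0) (u : Fin n → ℝ) :
    Integrable fun z : Fin n → ℝ => F (u + (1 - θ) • z) * F (u - θ • z) := by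
  have h1 := comp_int hF θ hθ u
  have h2 : Measurable fun z : Fin n → ℝ => F (u - θ • z) := hFm.comp (by fun_prop)
  exact h1.mul_bdd (c := B) h2.aestronglyMeasurable (Filter.Eventually.of_forall fun z => hB _)

lemma Hb_bound {F : (Fin n → ℝ) → ℂ} (hF : Integrable F) (B : ℝ)
    (hB : ∀ u, ‖F u‖ ≤ B) (θ σ : ℝ) (hθ : 1 - θ ≠ 0) (g u : Fin n → ℝ) :
    ‖Hb F θ σ g u‖ ≤ |((1 - θ) ^ n)⁻¹| * (∫ z, ‖F z‖) * B := by
  unfold Hb
  have h1 := comp_int hF θ hθ u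
  calc ‖∫ z, os (θ * (1 - θ) * σ) (q g z) * (F (u + (1 - θ) • z) * F (u - θ • z))‖
      ≤ ∫ z : Fin n → ℝ, ‖F (u + (1 - θ) • z)‖ * B := by
        refine norm_integral_le_of_norm_le (h1.norm.mul_const B)
          (Filter.Eventually.of_forall fun z => ?_)
        rw [norm_mul, norm_os, one_mul, norm_mul]
        exact mul_le_mul_of_nonneg_left (hB _) (norm_nonneg _)
    _ = (∫ z : Fin n → ℝ, ‖F (u + (1 - θ) • z)‖) * B := integral_mul_const _ _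
    _ = _ := by
        congr 1
        rw [Measure.integral_comp_smul volume (fun z => ‖F (u + z)‖) (1 - θ),
          integral_add_left_eq_self (fun z => ‖F z‖) u, smul_eq_mul]
        simp

lemma Hb_int {F : (Fin n → ℝ) → ℂ} (hF : Integrable F) (θ σ : ℝ)
    (g : Fin n → ℝ) : Integrable (Hb F θ σ g) := by
  have h1 := int_shear2 F F hF hF θ
  have hc : Continuous fun p : (Fin n → ℝ) × (Fin n → ℝ) => os (θ * (1 - θ) * σ) (q g p.1) :=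
    continuous_os.comp (continuous_const.prodMk (continuous_q.comp (by fun_prop :
      Continuous fun p : (Fin n → ℝ) × (Fin n → ℝ) => (g, p.1))))
  have h2 : Integrable (fun p : (Fin n → ℝ) × (Fin n → ℝ) => os (θ * (1 - θ) * σ) (q g p.1) *
      (F (p.2 + (1 - θ) • p.1) * F (p.2 - θ • p.1))) (volume.prod volume) :=
    h1.bdd_mul (c := 1) hc.aestronglyMeasurable
      (Filter.Eventually.of_forall fun z => (norm_os _ _).le)
  exact h2.swap.integral_prod_left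

lemma Hb_memLp {F : (Fin n → ℝ) → ℂ} (hF : Integrable F) (B : ℝ)
    (hB : ∀ u, ‖F u‖ ≤ B) (θ σ : ℝ) (hθ : 1 - θ ≠ 0) (g : Fin n → ℝ) :
    MemLp (Hb F θ σ g) 2 := by
  have h1 := Hb_int hF θ σ g
  refine (memLp_two_iff_integrable_sq_norm h1.aestronglyMeasurable).2 ?_
  refine (h1.norm.const_mul (|((1 - θ) ^ n)⁻¹| * (∫ z, ‖F z‖) * B)).mono'
    (h1.aestronglyMeasurable.norm.pow 2) (Filter.Eventually.of_forall fun u => ?_)
  rw [norm_pow, norm_norm, sq]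
  exact mul_le_mul_of_nonneg_right (Hb_bound hF B hB θ σ hθ g u) (norm_nonneg _)

/-- the function of `σ` -/
noncomputable def Gf (y : ℝ) (F : (Fin n → ℝ) → ℂ) (θ : ℝ) (g x : Fin n → ℝ) (σ : ℝ) : ℂ :=
  ((σ ^ n * Real.exp (-(2 * π * σ * y)) : ℝ) : ℂ) * Qf F θ σ g x

lemma meas_Gf (y : ℝ) {F : (Fin n → ℝ) → ℂ} (hF : Measurable F) :
    Measurable fun p : ℝ × ℝ × (Fin n → ℝ) × (Fin n → ℝ) =>
      Gf y F p.1 p.2.2.1 p.2.2.2 p.2.1 := by
  unfold Gf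
  exact Measurable.mul (by fun_prop) (meas_Qf hF)

lemma int_pow_exp (m : ℕ) (b : ℝ) (hb : 0 < b) :
    Integrable (fun σ : ℝ => σ ^ m * Real.exp (-b * σ)) (volume.restrict (Set.Ioi 0)) := by
  have h := integrableOn_rpow_mul_exp_neg_mul_rpow (s := (m : ℝ)) (p := 1) (b := b)
    (by have : (0 : ℝ) ≤ m := Nat.cast_nonneg m
        linarith) one_pos hb
  simp only [Real.rpow_one, Real.rpow_natCast] at h
  exact h

lemma Gf_norm (y : ℝ) (F : (Fin n → ℝ) → ℂ) (θ : ℝ) (g x : Fin n → ℝ) (σ : ℝ) (hσ : 0 ≤ σ) :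
    ‖Gf y F θ g x σ‖ = σ ^ n * Real.exp (-(2 * π * σ * y)) * ‖Qf F θ σ g x‖ := by
  unfold Gf
  rw [norm_mul, Complex.norm_real, Real.norm_of_nonneg (by positivity)]

lemma Gf_meas1 (y : ℝ) {F : (Fin n → ℝ) → ℂ} (hF : Measurable F) (θ : ℝ) (g x : Fin n → ℝ) :
    Measurable (Gf y F θ g x) :=
  Measurable.comp (g := fun p : ℝ × ℝ × (Fin n → ℝ) × (Fin n → ℝ) =>
      Gf y F p.1 p.2.2.1 p.2.2.2 p.2.1) (f := fun σ : ℝ => (θ, σ, g, x)) (meas_Gf y hF)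
    (by fun_prop)

lemma Gf_int (y : ℝ) (hy : 0 < y) {F : (Fin n → ℝ) → ℂ} (hF : Measurable F) (θ : ℝ)
    (g x : Fin n → ℝ) : Integrable (Gf y F θ g x) (volume.restrict (Set.Ioi 0)) := by
  refine ((int_pow_exp n (2 * π * y) (by positivity)).mul_const ((∫ u, ‖F u‖) ^ 2)).mono'
    (Gf_meas1 y hF θ g x).aestronglyMeasurable ?_
  filter_upwards [ae_restrict_mem measurableSet_Ioi] with σ hσ
  have hσ' : 0 < σ := hσ
  rw [Gf_norm y F θ g x σ hσ'.le]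
  have e : -(2 * π * σ * y) = -(2 * π * y) * σ := by ring
  rw [e]
  exact mul_le_mul_of_nonneg_left (norm_Qf F θ σ g x) (by positivity)

lemma Gf_memLp (y : ℝ) (hy : 0 < y) {F : (Fin n → ℝ) → ℂ} (hF : Measurable F) (θ : ℝ)
    (g x : Fin n → ℝ) : MemLp (Gf y F θ g x) 2 (volume.restrict (Set.Ioi 0)) := by
  refine (memLp_two_iff_integrable_sq_norm (Gf_meas1 y hF θ g x).aestronglyMeasurable).2 ?_
  refine ((int_pow_exp (2 * n) (4 * π * y) (by positivity)).mul_const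
    (((∫ u, ‖F u‖) ^ 2) ^ 2)).mono'
    ((Gf_meas1 y hF θ g x).norm.pow_const 2).aestronglyMeasurable ?_
  filter_upwards [ae_restrict_mem measurableSet_Ioi] with σ hσ
  have hσ' : 0 < σ := hσ
  rw [norm_pow, norm_norm, Gf_norm y F θ g x σ hσ'.le, mul_pow, mul_pow, ← pow_mul,
    ← Real.exp_nat_mul]
  have e : ((2 : ℕ) : ℝ) * -(2 * π * σ * y) = -(4 * π * y) * σ := by
    push_cast
    ring
  rw [e, mul_comm n 2]
  exact mul_le_mul_of_nonneg_left (pow_le_pow_left₀ (norm_nonneg _) (norm_Qf F θ σ g x) 2)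
    (by positivity)

/-- the mean of the bilinear average -/
lemma mean_Hb {F : (Fin n → ℝ) → ℂ} (hFm : Measurable F) (hF : Integrable F) (B : ℝ)
    (hB : ∀ u, ‖F u‖ ≤ B) (L : ℝ)
    (hL : ∀ u v, F u ≠ 0 → F v ≠ 0 → ∀ i, |u i - v i| ≤ L)
    (ε : ℝ) (hε : 0 < ε) (hε1 : ε < 1) (θ σ : ℝ) (hθ : θ ∈ Set.Ioo (0 : ℝ) 1) (hσ : 0 < σ) :
    ∫⁻ g in box n, ∫⁻ u, ‖Hb F θ σ g u‖ₑ ^ 2 ≤
      ENNReal.ofReal (2 * Real.exp (4 * π) ^ n) *
        ((∫⁻ z in Set.Icc (-L) L, w1 ε (θ * (1 - θ) * σ) z) ^ n * ∫⁻ u, ‖F u‖ₑ ^ 4) := by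
  have hθ1 : 1 - θ ≠ 0 := by
    have := hθ.2
    intro h
    linarith
  have hl : 0 < θ * (1 - θ) * σ := by
    have h1 := hθ.1
    have h2 : 0 < 1 - θ := by linarith [hθ.2]
    positivity
  have hm : Measurable fun p : (Fin n → ℝ) × (Fin n → ℝ) => ‖Hb F θ σ p.1 p.2‖ₑ ^ 2 :=
    (Measurable.comp (g := fun p : ℝ × ℝ × (Fin n → ℝ) × (Fin n → ℝ) =>
      Hb F p.1 p.2.1 p.2.2.1 p.2.2.2) (f := fun p : (Fin n → ℝ) × (Fin n → ℝ) => (θ, σ, p.1, p.2))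
      (meas_Hb hFm) (by fun_prop)).enorm.pow_const 2
  rw [lintegral_lintegral_swap hm.aemeasurable]
  calc ∫⁻ u, ∫⁻ g in box n, ‖Hb F θ σ g u‖ₑ ^ 2
      ≤ ∫⁻ u, ENNReal.ofReal (2 * Real.exp (4 * π) ^ n) * ∫⁻ z : Fin n → ℝ,
          ‖F (u + (1 - θ) • z) * F (u - θ • z)‖ₑ ^ 2 * ∏ i, w1 ε (θ * (1 - θ) * σ) (z i) := by
        refine lintegral_mono fun u => ?_
        exact mean_le ε (θ * (1 - θ) * σ) hε hε1 hl _ (Bu_int hFm hF B hB θ hθ1 u)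
    _ = ENNReal.ofReal (2 * Real.exp (4 * π) ^ n) * ∫⁻ u, ∫⁻ z : Fin n → ℝ,
          ‖F (u + (1 - θ) • z) * F (u - θ • z)‖ₑ ^ 2 * ∏ i, w1 ε (θ * (1 - θ) * σ) (z i) :=
        lintegral_const_mul' _ _ ENNReal.ofReal_ne_top
    _ ≤ _ := mul_le_mul' le_rfl (supp_int hFm L hL ε _ θ)

/-- the estimate for one `θ` -/
theorem J_le {F : (Fin n → ℝ) → ℂ} (hFm : Measurable F) (hF : Integrable F) (B : ℝ)
    (hB : ∀ u, ‖F u‖ ≤ B) (L : ℝ)
    (hL : ∀ u v, F u ≠ 0 → F v ≠ 0 → ∀ i, |u i - v i| ≤ L)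
    (ε : ℝ) (hε : 0 < ε) (hε1 : ε < 1) (y : ℝ) (hy : 0 < y) (θ : ℝ)
    (hθ : θ ∈ Set.Ioo (0 : ℝ) 1) :
    ∫⁻ g in box n, ∫⁻ x : Fin n → ℝ, ∫⁻ w : ℝ,
      ‖∫ σ in Set.Ioi (0 : ℝ), os σ (-w) * Gf y F θ g x σ‖ₑ ^ 2 ≤
    (2 * ENNReal.ofReal (2 * Real.exp (4 * π) ^ n) *
      (∫⁻ z in Set.Icc (-L) L, w1 ε 1 z) ^ n * ∫⁻ u, ‖F u‖ₑ ^ 4) *
      (ENNReal.ofReal ((θ * (1 - θ)) ^ ((-1 + ε / 2) * n)) *
      ∫⁻ σ in Set.Ioi (0 : ℝ), ENNReal.ofReal (σ ^ (n * ε / 2) * Real.exp (-(4 * π * y) * σ))) := by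
  set μσ : Measure ℝ := volume.restrict (Set.Ioi (0 : ℝ)) with hμσ
  have hmG : Measurable fun p : (Fin n → ℝ) × (Fin n → ℝ) × ℝ =>
      ‖Gf y F θ p.1 p.2.1 p.2.2‖ₑ ^ 2 :=
    (Measurable.comp (g := fun p : ℝ × ℝ × (Fin n → ℝ) × (Fin n → ℝ) =>
      Gf y F p.1 p.2.2.1 p.2.2.2 p.2.1)
      (f := fun p : (Fin n → ℝ) × (Fin n → ℝ) × ℝ => (θ, p.2.2, p.1, p.2.1))
      (meas_Gf y hFm) (by fun_prop)).enorm.pow_const 2
  have hmG2 : Measurable fun p : (Fin n → ℝ) × ℝ =>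
      ∫⁻ x : Fin n → ℝ, ‖Gf y F θ p.1 x p.2‖ₑ ^ 2 := by
    refine Measurable.lintegral_prod_right' (f := fun p : ((Fin n → ℝ) × ℝ) × (Fin n → ℝ) =>
      ‖Gf y F θ p.1.1 p.2 p.1.2‖ₑ ^ 2) ?_
    exact Measurable.comp (g := fun p : (Fin n → ℝ) × (Fin n → ℝ) × ℝ =>
      ‖Gf y F θ p.1 p.2.1 p.2.2‖ₑ ^ 2) (f := fun p : ((Fin n → ℝ) × ℝ) × (Fin n → ℝ) =>
      (p.1.1, p.2, p.1.2)) hmG (by fun_prop)
  have hb : ∀ σ : ℝ, 0 < σ → ∀ g ∈ box n, ∫⁻ x : Fin n → ℝ, ‖Gf y F θ g x σ‖ₑ ^ 2 ≤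
      ENNReal.ofReal (σ ^ n * Real.exp (-(4 * π * y) * σ)) * ∫⁻ u, ‖Hb F θ σ g u‖ₑ ^ 2 := by
    intro σ hσ g hg
    have h1 : ∀ x, ‖Gf y F θ g x σ‖ₑ ^ 2 =
        ENNReal.ofReal ((σ ^ n * Real.exp (-(2 * π * σ * y))) ^ 2) * ‖Qf F θ σ g x‖ₑ ^ 2 := by
      intro x
      unfold Gf
      rw [enorm_mul, mul_pow, ENNReal.ofReal_pow (by positivity)]
      congr 2
      rw [← ofReal_norm, Complex.norm_real, Real.norm_of_nonneg (by positivity)]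
    simp only [h1]
    rw [lintegral_const_mul' _ _ ENNReal.ofReal_ne_top]
    have h2 : ∫⁻ x : Fin n → ℝ, ‖Qf F θ σ g x‖ₑ ^ 2 ≤
        ENNReal.ofReal ((σ ^ n)⁻¹) * ∫⁻ u, ‖Hb F θ σ g u‖ₑ ^ 2 := by
      have h3 : ∀ x, Qf F θ σ g x = ∫ u, os σ (q g (x - u)) * Hb F θ σ g u := fun x =>
        prod_P F hF θ σ g x
      simp only [h3]
      refine planch_x σ hσ g (fun i => (hg i).1) _ (Hb_int hF θ σ g)
        (Hb_memLp hF B hB θ σ ?_ g)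
      have := hθ.2
      intro h
      linarith
    refine (mul_le_mul' le_rfl h2).trans (le_of_eq ?_)
    rw [← mul_assoc, ← ENNReal.ofReal_mul (by positivity)]
    congr 2
    rw [mul_pow, ← Real.exp_nat_mul]
    have e : ((2 : ℕ) : ℝ) * -(2 * π * σ * y) = -(4 * π * y) * σ := by
      push_cast
      ring
    rw [e]
    field_simp
  calc ∫⁻ g in box n, ∫⁻ x : Fin n → ℝ, ∫⁻ w : ℝ,
        ‖∫ σ in Set.Ioi (0 : ℝ), os σ (-w) * Gf y F θ g x σ‖ₑ ^ 2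
      = ∫⁻ g in box n, ∫⁻ x : Fin n → ℝ, 2 * ∫⁻ σ, ‖Gf y F θ g x σ‖ₑ ^ 2 ∂μσ := by
        refine lintegral_congr fun g => lintegral_congr fun x => ?_
        exact planch_w _ (Gf_int y hy hFm θ g x) (Gf_memLp y hy hFm θ g x)
    _ = 2 * ∫⁻ g in box n, ∫⁻ x : Fin n → ℝ, ∫⁻ σ, ‖Gf y F θ g x σ‖ₑ ^ 2 ∂μσ := by
        rw [← lintegral_const_mul' _ _ (by norm_num)]
        refine lintegral_congr fun g => ?_
        rw [← lintegral_const_mul' _ _ (by norm_num)]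
    _ = 2 * ∫⁻ g in box n, ∫⁻ σ, (∫⁻ x : Fin n → ℝ, ‖Gf y F θ g x σ‖ₑ ^ 2) ∂μσ := by
        congr 1
        refine lintegral_congr fun g => ?_
        refine lintegral_lintegral_swap ?_
        exact (Measurable.comp (g := fun p : (Fin n → ℝ) × (Fin n → ℝ) × ℝ =>
          ‖Gf y F θ p.1 p.2.1 p.2.2‖ₑ ^ 2) (f := fun p : (Fin n → ℝ) × ℝ =>
          (g, p.1, p.2)) hmG (by fun_prop)).aemeasurable
    _ = 2 * ∫⁻ σ, (∫⁻ g in box n, ∫⁻ x : Fin n → ℝ, ‖Gf y F θ g x σ‖ₑ ^ 2) ∂μσ := by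
        congr 1
        exact lintegral_lintegral_swap hmG2.aemeasurable
    _ ≤ 2 * ∫⁻ σ, ENNReal.ofReal (σ ^ n * Real.exp (-(4 * π * y) * σ)) *
          (ENNReal.ofReal (2 * Real.exp (4 * π) ^ n) *
        ((∫⁻ z in Set.Icc (-L) L, w1 ε (θ * (1 - θ) * σ) z) ^ n * ∫⁻ u, ‖F u‖ₑ ^ 4)) ∂μσ := by
        refine mul_le_mul' le_rfl ?_
        refine lintegral_mono_ae ?_
        filter_upwards [ae_restrict_mem measurableSet_Ioi] with σ hσ
        refine (setLIntegral_mono' measurableSet_box fun g hg => hb σ hσ g hg).trans ?_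
        rw [lintegral_const_mul' _ _ ENNReal.ofReal_ne_top]
        exact mul_le_mul' le_rfl (mean_Hb hFm hF B hB L hL ε hε hε1 θ σ hθ hσ)
    _ = 2 * ∫⁻ σ, (ENNReal.ofReal (2 * Real.exp (4 * π) ^ n) *
          (∫⁻ z in Set.Icc (-L) L, w1 ε 1 z) ^ n * (∫⁻ u, ‖F u‖ₑ ^ 4) *
          ENNReal.ofReal ((θ * (1 - θ)) ^ ((-1 + ε / 2) * n))) *
          ENNReal.ofReal (σ ^ (n * ε / 2) * Real.exp (-(4 * π * y) * σ)) ∂μσ := by
        congr 1
        refine lintegral_congr_ae ?_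
        filter_upwards [ae_restrict_mem measurableSet_Ioi] with σ hσ
        have hσ' : 0 < σ := hσ
        have hθ' : 0 < θ * (1 - θ) := mul_pos hθ.1 (by linarith [hθ.2])
        have h1 : ∫⁻ z in Set.Icc (-L) L, w1 ε (θ * (1 - θ) * σ) z =
            ENNReal.ofReal ((θ * (1 - θ) * σ) ^ (-1 + ε / 2)) *
              ∫⁻ z in Set.Icc (-L) L, w1 ε 1 z := by
          rw [← lintegral_const_mul' _ _ ENNReal.ofReal_ne_top]
          refine lintegral_congr fun z => ?_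
          exact w1_scale ε _ z (by positivity)
        have h2 : σ ^ (n * ε / 2) * Real.exp (-(4 * π * y) * σ) =
            (σ ^ n * Real.exp (-(4 * π * y) * σ)) * (σ ^ (-1 + ε / 2)) ^ n := by
          rw [← Real.rpow_natCast (σ ^ (-1 + ε / 2)), ← Real.rpow_mul hσ'.le,
            ← Real.rpow_natCast σ n]
          have : σ ^ (n * ε / 2) = σ ^ (n : ℝ) * σ ^ ((-1 + ε / 2) * n) := by
            rw [← Real.rpow_add hσ']
            congr 1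
            ring
          rw [this]
          ring
        rw [h1, mul_pow, ← ENNReal.ofReal_pow (by positivity), Real.mul_rpow hθ'.le hσ'.le,
          mul_pow, ENNReal.ofReal_mul (p := ((θ * (1 - θ)) ^ (-1 + ε / 2)) ^ n) (by positivity), h2,
          ENNReal.ofReal_mul (p := σ ^ n * Real.exp (-(4 * π * y) * σ)) (by positivity),
          Real.rpow_mul hθ'.le, Real.rpow_natCast]
        generalize ENNReal.ofReal (σ ^ n * Real.exp (-(4 * π * y) * σ)) = a1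
        generalize ENNReal.ofReal (2 * Real.exp (4 * π) ^ n) = a2
        generalize ENNReal.ofReal (((θ * (1 - θ)) ^ (-1 + ε / 2)) ^ n) = a3
        generalize ENNReal.ofReal ((σ ^ (-1 + ε / 2)) ^ n) = a4
        ring
    _ = _ := by
        rw [lintegral_const_mul _ (by fun_prop)]
        ring

end Pool.Agent.T9h44.LS4
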