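import Pool.Agent.T9h44.LS4.ME2

/-!
# Local smoothing in the mean over flat metrics (helper44): the estimate for functions
supported in a cube
-/

set_option autoImplicit false

namespace Pool.Agent.T9h44.LS4

open MeasureTheory Real Pool.Agent.TH280.LS
open scoped ENNReal ComplexConjugate

variable {n : ℕ}

lemma cs_sq {α : Type*} [MeasurableSpace α] {μ : Measure α} {a b : α → ℝ≥0∞}
    (ha : AEMeasurable a μ) (hb : AEMeasurable b μ) :
    (∫⁻ x, a x * b x ∂μ) ^ 2 ≤ (∫⁻ x, a x ^ 2 ∂μ) * ∫⁻ x, b x ^ 2 ∂μ := by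
  have h := ENNReal.lintegral_mul_le_Lp_mul_Lq μ Real.HolderConjugate.two_two ha hb
  simp only [Pi.mul_apply] at h
  have e : ∀ c : ℝ≥0∞, c ^ (2 : ℝ) = c ^ 2 := fun c => by
    rw [← ENNReal.rpow_natCast]
    norm_num
  simp only [e] at h
  calc (∫⁻ x, a x * b x ∂μ) ^ 2
      ≤ ((∫⁻ x, a x ^ 2 ∂μ) ^ (1 / 2 : ℝ) * (∫⁻ x, b x ^ 2 ∂μ) ^ (1 / 2 : ℝ)) ^ 2 := by
        gcongr
    _ = _ := by
        rw [mul_pow, ← ENNReal.rpow_natCast, ← ENNReal.rpow_natCast, ← ENNReal.rpow_mul,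
          ← ENNReal.rpow_mul]
        norm_num

/-- the weight -/
lemma wt_fin : ∫⁻ θ in Set.Ioo (0 : ℝ) 1, ENNReal.ofReal ((θ * (1 - θ)) ^ (-(3 / 4) : ℝ)) < ⊤ := by
  have h := Complex.betaIntegral_convergent (u := 1 / 4) (v := 1 / 4) (by norm_num) (by norm_num)
  rw [intervalIntegrable_iff_integrableOn_Ioo_of_le zero_le_one] at h
  have h2 := h.hasFiniteIntegral
  unfold HasFiniteIntegral at h2
  refine lt_of_le_of_lt (le_of_eq ?_) h2
  refine setLIntegral_congr_fun measurableSet_Ioo fun θ hθ => ?_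
  have h1 : 0 < 1 - θ := by linarith [hθ.2]
  have h0 : 0 < θ := hθ.1
  simp only
  rw [enorm_mul, ← ofReal_norm, ← ofReal_norm, Real.mul_rpow h0.le h1.le,
    ENNReal.ofReal_mul (by positivity)]
  congr 2
  · rw [Complex.norm_cpow_eq_rpow_re_of_pos h0]
    norm_num
  · have : (1 : ℂ) - (θ : ℂ) = ((1 - θ : ℝ) : ℂ) := by push_cast; ring
    rw [this, Complex.norm_cpow_eq_rpow_re_of_pos h1]
    norm_num

/-- functions supported in a cube are integrable -/
lemma int_of_supp {F : (Fin n → ℝ) → ℂ} (hFm : Measurable F) (B : ℝ) (hB : ∀ u, ‖F u‖ ≤ B) (L : ℝ)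
    (hL : ∀ u v, F u ≠ 0 → F v ≠ 0 → ∀ i, |u i - v i| ≤ L) : Integrable F := by
  by_cases h : ∃ v, F v ≠ 0
  · obtain ⟨v, hv⟩ := h
    have hs : Function.support F ⊆ Set.Icc (fun i => v i - L) (fun i => v i + L) := by
      intro u hu
      rw [Set.mem_Icc, Pi.le_def, Pi.le_def]
      constructor
      · intro i
        have := abs_le.1 (hL u v hu hv i)
        linarith [this.1]
      · intro i
        have := abs_le.1 (hL u v hu hv i)
        linarith [this.2]
    rw [← integrableOn_iff_integrable_of_support_subset hs]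
    refine Measure.integrableOn_of_bounded (M := B) ?_ hFm.aestronglyMeasurable
      (Filter.Eventually.of_forall fun u => hB u)
    exact isCompact_Icc.measure_lt_top.ne
  · push Not at h
    have : F = fun _ => 0 := funext h
    rw [this]
    exact integrable_zero _ _ _

/-- the function of `s` -/
noncomputable def fV (y w : ℝ) (F : (Fin n → ℝ) → ℂ) (g x : Fin n → ℝ) (s : ℝ) : ℂ :=
  ((s ^ (((n : ℝ) - 1) / 2) * Real.exp (-(2 * π * s * y)) : ℝ) : ℂ) * (os s (-w) * Pw F g s x)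

lemma meas_os : Measurable fun p : ℝ × ℝ => os p.1 p.2 := continuous_os.measurable

lemma fV_meas (y w : ℝ) {F : (Fin n → ℝ) → ℂ} (hF : Measurable F) (g x : Fin n → ℝ) :
    Measurable (fV y w F g x) := by
  unfold fV
  refine Measurable.mul (by fun_prop) (Measurable.mul ?_ ?_)
  · exact Measurable.comp (g := fun p : ℝ × ℝ => os p.1 p.2) (f := fun s : ℝ => (s, -w))
      meas_os (by fun_prop)
  · exact Measurable.comp (g := fun p : (Fin n → ℝ) × ℝ × (Fin n → ℝ) => Pw F p.1 p.2.1 p.2.2)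
      (f := fun s : ℝ => (g, s, x)) (meas_Pw hF) (by fun_prop)

lemma fV_bound (y w : ℝ) (F : (Fin n → ℝ) → ℂ) (g x : Fin n → ℝ) (s : ℝ) (hs : 0 < s) :
    ‖fV y w F g x s‖ ≤ (∫ u, ‖F u‖) * (s ^ (((n : ℝ) - 1) / 2) *
      Real.exp (-(2 * π * s * y))) := by
  unfold fV
  rw [norm_mul, norm_mul, norm_os, one_mul, Complex.norm_real,
    Real.norm_of_nonneg (by positivity), mul_comm]
  exact mul_le_mul_of_nonneg_right (norm_Pw _ _ _ _) (by positivity)

lemma int_rpow_exp (m b : ℝ) (hm : -1 < m) (hb : 0 < b) :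
    Integrable (fun s : ℝ => s ^ m * Real.exp (-b * s)) (volume.restrict (Set.Ioi 0)) := by
  have h := integrableOn_rpow_mul_exp_neg_mul_rpow (s := m) (p := 1) (b := b) hm one_pos hb
  simp only [Real.rpow_one] at h
  exact h

lemma half_nonneg (hn : 1 ≤ n) : 0 ≤ ((n : ℝ) - 1) / 2 := by
  have : (1 : ℝ) ≤ n := by exact_mod_cast hn
  linarith

lemma fV_int (hn : 1 ≤ n) (y w : ℝ) (hy : 0 < y) {F : (Fin n → ℝ) → ℂ} (hF : Measurable F)
    (g x : Fin n → ℝ) : Integrable (fV y w F g x) (volume.restrict (Set.Ioi 0)) := by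
  have hm := half_nonneg hn
  refine ((int_rpow_exp (((n : ℝ) - 1) / 2) (2 * π * y) (by linarith)
    (by positivity)).const_mul (∫ u, ‖F u‖)).mono' (fV_meas y w hF g x).aestronglyMeasurable ?_
  filter_upwards [ae_restrict_mem measurableSet_Ioi] with s hs
  refine (fV_bound y w F g x s hs).trans (le_of_eq ?_)
  congr 3
  ring

/-- Fubini -/
lemma V_eq (hn : 1 ≤ n) (y w : ℝ) (hy : 0 < y) {F : (Fin n → ℝ) → ℂ} (hFm : Measurable F)
    (hF : Integrable F) (g x : Fin n → ℝ) :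
    ∫ u, Ker n y w g (x - u) * F u = ∫ s in Set.Ioi (0 : ℝ), fV y w F g x s := by
  have hm := half_nonneg hn
  unfold Ker
  have h1 : ∀ u : Fin n → ℝ, (∫ s in Set.Ioi (0 : ℝ),
      ((s ^ (((n : ℝ) - 1) / 2) * Real.exp (-(2 * π * s * y)) : ℝ) : ℂ) *
        os s (q g (x - u) - w)) * F u = ∫ s in Set.Ioi (0 : ℝ),
      ((s ^ (((n : ℝ) - 1) / 2) * Real.exp (-(2 * π * s * y)) : ℝ) : ℂ) *
        os s (q g (x - u) - w) * F u := fun u => (integral_mul_const _ _).symm
  simp only [h1]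
  rw [integral_integral_swap]
  · refine integral_congr_ae (Filter.Eventually.of_forall fun s => ?_)
    simp only [fV, Pw]
    rw [← integral_const_mul, ← integral_const_mul]
    refine integral_congr_ae (Filter.Eventually.of_forall fun u => ?_)
    simp only
    rw [sub_eq_add_neg (q g (x - u)), os_add]
    ring
  · have hb : Integrable (fun p : (Fin n → ℝ) × ℝ => ‖F p.1‖ *
        (p.2 ^ (((n : ℝ) - 1) / 2) * Real.exp (-(2 * π * y) * p.2)))
        (volume.prod (volume.restrict (Set.Ioi (0 : ℝ)))) :=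
      hF.norm.mul_prod (int_rpow_exp (((n : ℝ) - 1) / 2) (2 * π * y) (by linarith)
        (by positivity))
    refine hb.mono' ?_ ?_
    · refine Measurable.aestronglyMeasurable ?_
      have hq : Continuous fun p : (Fin n → ℝ) × ℝ => os p.2 (q g (x - p.1) - w) :=
        continuous_os.comp ((by fun_prop : Continuous fun p : (Fin n → ℝ) × ℝ => p.2).prodMk
          ((continuous_q.comp (by fun_prop : Continuous fun p : (Fin n → ℝ) × ℝ =>
            (g, x - p.1))).sub continuous_const))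
      simp only [Function.uncurry_def]
      exact ((by fun_prop : Measurable fun p : (Fin n → ℝ) × ℝ =>
        ((p.2 ^ (((n : ℝ) - 1) / 2) * Real.exp (-(2 * π * p.2 * y)) : ℝ) : ℂ)).mul
          hq.measurable).mul (hFm.comp measurable_fst)
    · rw [← Measure.restrict_univ (μ := (volume : Measure (Fin n → ℝ))), Measure.prod_restrict]
      filter_upwards [ae_restrict_mem (MeasurableSet.univ.prod measurableSet_Ioi)] with p hp
      have hs : 0 < p.2 := hp.2
      simp only [Function.uncurry]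
      rw [norm_mul, norm_mul, norm_os, mul_one, Complex.norm_real,
        Real.norm_of_nonneg (by positivity), mul_comm]
      have e : -(2 * π * p.2 * y) = -(2 * π * y) * p.2 := by ring
      rw [e]

lemma os_mul_os (a b v : ℝ) : os a v * os b v = os (a + b) v := by
  unfold os
  rw [← Complex.exp_add, ← add_mul]
  congr 2
  push_cast
  ring

/-- the square of the wave -/
lemma V_sq (hn : 1 ≤ n) (y w : ℝ) (hy : 0 < y) {F : (Fin n → ℝ) → ℂ} (hFm : Measurable F)
    (hF : Integrable F) (g x : Fin n → ℝ) :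
    (∫ u, Ker n y w g (x - u) * F u) ^ 2 = ∫ θ in Set.Ioo (0 : ℝ) 1,
      (((θ * (1 - θ)) ^ (((n : ℝ) - 1) / 2) : ℝ) : ℂ) *
        ∫ σ in Set.Ioi (0 : ℝ), os σ (-w) * Gf y F θ g x σ := by
  have hm := half_nonneg hn
  rw [V_eq hn y w hy hFm hF g x, sq_half_line _ (fV_int hn y w hy hFm g x) (fV_meas y w hFm g x)
    (∫ u, ‖F u‖) (((n : ℝ) - 1) / 2) y (integral_nonneg fun _ => norm_nonneg _) hm hy
    (fun s hs => fV_bound y w F g x s hs)]
  refine setIntegral_congr_fun measurableSet_Ioo fun θ hθ => ?_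
  rw [← integral_const_mul]
  refine setIntegral_congr_fun measurableSet_Ioi fun σ hσ => ?_
  have hσ' : 0 < σ := hσ
  have h0 : 0 < θ := hθ.1
  have h1 : 0 < 1 - θ := by linarith [hθ.2]
  have h2 : σ - θ * σ = (1 - θ) * σ := by ring
  simp only [fV, Gf, Qf]
  have e1 : σ * ((θ * σ) ^ (((n : ℝ) - 1) / 2) * Real.exp (-(2 * π * (θ * σ) * y)) *
      ((σ - θ * σ) ^ (((n : ℝ) - 1) / 2) * Real.exp (-(2 * π * (σ - θ * σ) * y)))) =
      (θ * (1 - θ)) ^ (((n : ℝ) - 1) / 2) * (σ ^ n * Real.exp (-(2 * π * σ * y))) := by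
    have e2 : Real.exp (-(2 * π * σ * y)) = Real.exp (-(2 * π * (θ * σ) * y)) *
        Real.exp (-(2 * π * (σ - θ * σ) * y)) := by
      rw [← Real.exp_add]
      congr 1
      ring
    have e3 : σ ^ n = σ * (σ ^ (((n : ℝ) - 1) / 2) * σ ^ (((n : ℝ) - 1) / 2)) := by
      rw [← Real.rpow_add hσ', ← Real.rpow_natCast, mul_comm σ, ← Real.rpow_add_one hσ'.ne']
      congr 1
      ring
    rw [e2, e3, Real.mul_rpow h0.le hσ'.le, h2, Real.mul_rpow h1.le hσ'.le,
      Real.mul_rpow h0.le h1.le]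
    ring
  have e4 : os σ (-w) = os (θ * σ) (-w) * os (σ - θ * σ) (-w) := by
    rw [os_mul_os]
    congr 1
    ring
  rw [e4]
  have e5 := congrArg (fun r : ℝ => (r : ℂ)) e1
  simp only [Complex.ofReal_mul] at e5
  push_cast at e5 ⊢
  linear_combination (os (θ * σ) (-w) * os (σ - θ * σ) (-w) * Pw F g (θ * σ) x *
    Pw F g (σ - θ * σ) x) * e5

/-- joint measurability -/
lemma meas_Wf (y : ℝ) {F : (Fin n → ℝ) → ℂ} (hF : Measurable F) :
    Measurable fun p : (Fin n → ℝ) × (Fin n → ℝ) × ℝ × ℝ =>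
      ∫ σ in Set.Ioi (0 : ℝ), os σ (-p.2.2.1) * Gf y F p.2.2.2 p.1 p.2.1 σ := by
  have h1 : Measurable fun p : ((Fin n → ℝ) × (Fin n → ℝ) × ℝ × ℝ) × ℝ =>
      Gf y F p.1.2.2.2 p.1.1 p.1.2.1 p.2 :=
    Measurable.comp (g := fun p : ℝ × ℝ × (Fin n → ℝ) × (Fin n → ℝ) =>
      Gf y F p.1 p.2.2.1 p.2.2.2 p.2.1)
      (f := fun p : ((Fin n → ℝ) × (Fin n → ℝ) × ℝ × ℝ) × ℝ =>
        (p.1.2.2.2, p.2, p.1.1, p.1.2.1)) (meas_Gf y hF) (by fun_prop)
  have h2 : Measurable fun p : ((Fin n → ℝ) × (Fin n → ℝ) × ℝ × ℝ) × ℝ =>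
      os p.2 (-p.1.2.2.1) :=
    Measurable.comp (g := fun p : ℝ × ℝ => os p.1 p.2)
      (f := fun p : ((Fin n → ℝ) × (Fin n → ℝ) × ℝ × ℝ) × ℝ => (p.2, -p.1.2.2.1))
      meas_os (by fun_prop)
  exact ((h2.mul h1).stronglyMeasurable.integral_prod_right'
    (ν := volume.restrict (Set.Ioi (0 : ℝ)))).measurable

end Pool.Agent.T9h44.LS4
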