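import Pool.Agent.T9h44.LS4.ME3

/-!
# Local smoothing in the mean over flat metrics (helper44): the estimate for functions
supported in a cube, end
-/

set_option autoImplicit false

namespace Pool.Agent.T9h44.LS4

open MeasureTheory Real Pool.Agent.TH280.LS
open scoped ENNReal ComplexConjugate

variable {n : ℕ}

/-- Cauchy–Schwarz in `θ` -/
lemma V_four (hn : 1 ≤ n) (y w : ℝ) (hy : 0 < y) {F : (Fin n → ℝ) → ℂ} (hFm : Measurable F)
    (hF : Integrable F) (g x : Fin n → ℝ) :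
    ‖∫ u, Ker n y w g (x - u) * F u‖ₑ ^ (4 : ℝ) ≤
      (∫⁻ θ in Set.Ioo (0 : ℝ) 1, ENNReal.ofReal ((θ * (1 - θ)) ^ (-(3 / 4) : ℝ))) *
      ∫⁻ θ in Set.Ioo (0 : ℝ) 1, ENNReal.ofReal ((θ * (1 - θ)) ^ ((n : ℝ) - 1 / 4)) *
        ‖∫ σ in Set.Ioi (0 : ℝ), os σ (-w) * Gf y F θ g x σ‖ₑ ^ 2 := by
  set W : ℝ → ℂ := fun θ => ∫ σ in Set.Ioi (0 : ℝ), os σ (-w) * Gf y F θ g x σ with hW
  have hWm : Measurable W :=
    Measurable.comp (g := fun p : (Fin n → ℝ) × (Fin n → ℝ) × ℝ × ℝ =>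
      ∫ σ in Set.Ioi (0 : ℝ), os σ (-p.2.2.1) * Gf y F p.2.2.2 p.1 p.2.1 σ)
      (f := fun θ : ℝ => (g, x, w, θ)) (meas_Wf y hFm) (by fun_prop)
  have h1 : ‖∫ u, Ker n y w g (x - u) * F u‖ₑ ^ (4 : ℝ) =
      (‖(∫ u, Ker n y w g (x - u) * F u) ^ 2‖ₑ) ^ 2 := by
    rw [enorm_pow, ← pow_mul, ← ENNReal.rpow_natCast]
    norm_num
  rw [h1, V_sq hn y w hy hFm hF g x]
  have h2 : ‖∫ θ in Set.Ioo (0 : ℝ) 1, (((θ * (1 - θ)) ^ (((n : ℝ) - 1) / 2) : ℝ) : ℂ) * W θ‖ₑ ≤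
      ∫⁻ θ in Set.Ioo (0 : ℝ) 1, ENNReal.ofReal ((θ * (1 - θ)) ^ (-(3 / 8) : ℝ)) *
        (ENNReal.ofReal ((θ * (1 - θ)) ^ (((n : ℝ) - 1) / 2 + 3 / 8)) * ‖W θ‖ₑ) := by
    refine (enorm_integral_le_lintegral_enorm _).trans (le_of_eq ?_)
    refine setLIntegral_congr_fun measurableSet_Ioo fun θ hθ => ?_
    have h0 : 0 < θ * (1 - θ) := mul_pos hθ.1 (by linarith [hθ.2])
    rw [enorm_mul, ← mul_assoc, ← ENNReal.ofReal_mul (by positivity), ← Real.rpow_add h0,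
      ← ofReal_norm, Complex.norm_real, Real.norm_of_nonneg (by positivity)]
    congr 3
    ring
  refine (pow_le_pow_left₀ zero_le h2 2).trans ?_
  refine (cs_sq ?_ ?_).trans ?_
  · exact Measurable.aemeasurable (by fun_prop)
  · exact Measurable.aemeasurable ((by fun_prop : Measurable fun θ : ℝ =>
      ENNReal.ofReal ((θ * (1 - θ)) ^ (((n : ℝ) - 1) / 2 + 3 / 8))).mul hWm.enorm)
  · refine le_of_eq ?_
    congr 1
    · refine setLIntegral_congr_fun measurableSet_Ioo fun θ hθ => ?_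
      have h0 : 0 < θ * (1 - θ) := mul_pos hθ.1 (by linarith [hθ.2])
      rw [← ENNReal.ofReal_pow (by positivity), ← Real.rpow_natCast, ← Real.rpow_mul h0.le]
      norm_num
    · refine setLIntegral_congr_fun measurableSet_Ioo fun θ hθ => ?_
      have h0 : 0 < θ * (1 - θ) := mul_pos hθ.1 (by linarith [hθ.2])
      rw [mul_pow, ← ENNReal.ofReal_pow (by positivity), ← Real.rpow_natCast,
        ← Real.rpow_mul h0.le]
      congr 3
      push_cast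
      ring

/-- Tonelli -/
lemma V_int (hn : 1 ≤ n) (y : ℝ) (hy : 0 < y) {F : (Fin n → ℝ) → ℂ} (hFm : Measurable F)
    (hF : Integrable F) :
    ∫⁻ g in box n, ∫⁻ x : Fin n → ℝ, ∫⁻ w : ℝ, ‖∫ u, Ker n y w g (x - u) * F u‖ₑ ^ (4 : ℝ) ≤
      (∫⁻ θ in Set.Ioo (0 : ℝ) 1, ENNReal.ofReal ((θ * (1 - θ)) ^ (-(3 / 4) : ℝ))) *
      ∫⁻ θ in Set.Ioo (0 : ℝ) 1, ENNReal.ofReal ((θ * (1 - θ)) ^ ((n : ℝ) - 1 / 4)) *
        ∫⁻ g in box n, ∫⁻ x : Fin n → ℝ, ∫⁻ w : ℝ,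
          ‖∫ σ in Set.Ioi (0 : ℝ), os σ (-w) * Gf y F θ g x σ‖ₑ ^ 2 := by
  set A : ℝ≥0∞ := ∫⁻ θ in Set.Ioo (0 : ℝ) 1, ENNReal.ofReal ((θ * (1 - θ)) ^ (-(3 / 4) : ℝ))
    with hA
  have hAt : A ≠ ⊤ := wt_fin.ne
  set Φ : (Fin n → ℝ) → (Fin n → ℝ) → ℝ → ℝ → ℝ≥0∞ := fun g x w θ =>
    ‖∫ σ in Set.Ioi (0 : ℝ), os σ (-w) * Gf y F θ g x σ‖ₑ ^ 2 with hΦ
  have hΦm : Measurable fun p : (Fin n → ℝ) × (Fin n → ℝ) × ℝ × ℝ => Φ p.1 p.2.1 p.2.2.1 p.2.2.2 :=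
    (meas_Wf y hFm).enorm.pow_const 2
  set c : ℝ → ℝ≥0∞ := fun θ => ENNReal.ofReal ((θ * (1 - θ)) ^ ((n : ℝ) - 1 / 4)) with hc
  have hcm : Measurable c := by
    rw [hc]
    fun_prop
  have hct : ∀ θ, c θ ≠ ⊤ := fun θ => ENNReal.ofReal_ne_top
  -- measurability of the partial integrals
  have hm1 : Measurable fun p : (Fin n → ℝ) × (Fin n → ℝ) × ℝ => ∫⁻ w : ℝ, Φ p.1 p.2.1 w p.2.2 := by
    refine Measurable.lintegral_prod_right' (f := fun p : ((Fin n → ℝ) × (Fin n → ℝ) × ℝ) × ℝ =>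
      Φ p.1.1 p.1.2.1 p.2 p.1.2.2) ?_
    exact Measurable.comp (g := fun p : (Fin n → ℝ) × (Fin n → ℝ) × ℝ × ℝ =>
      Φ p.1 p.2.1 p.2.2.1 p.2.2.2) (f := fun p : ((Fin n → ℝ) × (Fin n → ℝ) × ℝ) × ℝ =>
      (p.1.1, p.1.2.1, p.2, p.1.2.2)) hΦm (by fun_prop)
  have hm2 : Measurable fun p : (Fin n → ℝ) × ℝ =>
      ∫⁻ x : Fin n → ℝ, ∫⁻ w : ℝ, Φ p.1 x w p.2 := by
    refine Measurable.lintegral_prod_right' (f := fun p : ((Fin n → ℝ) × ℝ) × (Fin n → ℝ) =>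
      ∫⁻ w : ℝ, Φ p.1.1 p.2 w p.1.2) ?_
    exact Measurable.comp (g := fun p : (Fin n → ℝ) × (Fin n → ℝ) × ℝ =>
      ∫⁻ w : ℝ, Φ p.1 p.2.1 w p.2.2) (f := fun p : ((Fin n → ℝ) × ℝ) × (Fin n → ℝ) =>
      (p.1.1, p.2, p.1.2)) hm1 (by fun_prop)
  calc ∫⁻ g in box n, ∫⁻ x : Fin n → ℝ, ∫⁻ w : ℝ, ‖∫ u, Ker n y w g (x - u) * F u‖ₑ ^ (4 : ℝ)
      ≤ ∫⁻ g in box n, ∫⁻ x : Fin n → ℝ, ∫⁻ w : ℝ, A * ∫⁻ θ in Set.Ioo (0 : ℝ) 1,
          c θ * Φ g x w θ :=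
        lintegral_mono fun g => lintegral_mono fun x => lintegral_mono fun w =>
          V_four hn y w hy hFm hF g x
    _ = A * ∫⁻ g in box n, ∫⁻ x : Fin n → ℝ, ∫⁻ w : ℝ, ∫⁻ θ in Set.Ioo (0 : ℝ) 1,
          c θ * Φ g x w θ := by
        rw [← lintegral_const_mul' _ _ hAt]
        refine lintegral_congr fun g => ?_
        rw [← lintegral_const_mul' _ _ hAt]
        refine lintegral_congr fun x => ?_
        rw [← lintegral_const_mul' _ _ hAt]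
    _ = A * ∫⁻ g in box n, ∫⁻ x : Fin n → ℝ, ∫⁻ θ in Set.Ioo (0 : ℝ) 1,
          c θ * ∫⁻ w : ℝ, Φ g x w θ := by
        congr 1
        refine lintegral_congr fun g => lintegral_congr fun x => ?_
        rw [lintegral_lintegral_swap]
        · refine lintegral_congr fun θ => ?_
          rw [lintegral_const_mul' _ _ (hct θ)]
        · refine Measurable.aemeasurable (Measurable.mul (hcm.comp measurable_snd) ?_)
          exact Measurable.comp (g := fun p : (Fin n → ℝ) × (Fin n → ℝ) × ℝ × ℝ =>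
            Φ p.1 p.2.1 p.2.2.1 p.2.2.2) (f := fun p : ℝ × ℝ => (g, x, p.1, p.2)) hΦm
            (by fun_prop)
    _ = A * ∫⁻ g in box n, ∫⁻ θ in Set.Ioo (0 : ℝ) 1, c θ *
          ∫⁻ x : Fin n → ℝ, ∫⁻ w : ℝ, Φ g x w θ := by
        congr 1
        refine lintegral_congr fun g => ?_
        rw [lintegral_lintegral_swap]
        · refine lintegral_congr fun θ => ?_
          rw [lintegral_const_mul' _ _ (hct θ)]
        · refine Measurable.aemeasurable (Measurable.mul (hcm.comp measurable_snd) ?_)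
          exact Measurable.comp (g := fun p : (Fin n → ℝ) × (Fin n → ℝ) × ℝ =>
            ∫⁻ w : ℝ, Φ p.1 p.2.1 w p.2.2) (f := fun p : (Fin n → ℝ) × ℝ => (g, p.1, p.2)) hm1
            (by fun_prop)
    _ = A * ∫⁻ θ in Set.Ioo (0 : ℝ) 1, c θ * ∫⁻ g in box n,
          ∫⁻ x : Fin n → ℝ, ∫⁻ w : ℝ, Φ g x w θ := by
        congr 1
        rw [lintegral_lintegral_swap]
        · refine lintegral_congr fun θ => ?_
          rw [lintegral_const_mul' _ _ (hct θ)]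
        · exact Measurable.aemeasurable (Measurable.mul (hcm.comp measurable_snd) hm2)

/-- the near estimate -/
theorem nearEst (hn : 1 ≤ n) (ε : ℝ) (hε : 0 < ε) (hε1 : ε < 1) (L : ℝ) : NearEst n ε L := by
  set A : ℝ≥0∞ := ∫⁻ θ in Set.Ioo (0 : ℝ) 1, ENNReal.ofReal ((θ * (1 - θ)) ^ (-(3 / 4) : ℝ))
    with hA
  have hAt : A < ⊤ := wt_fin
  have hn0 : (0 : ℝ) < n := by exact_mod_cast hn
  set I : ℝ≥0∞ := ∫⁻ z in Set.Icc (-L) L, w1 ε 1 z with hI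
  have hIt : I < ⊤ := by
    rw [hI]
    unfold w1
    rw [lintegral_const_mul' _ _ ENNReal.ofReal_ne_top]
    exact ENNReal.mul_lt_top ENNReal.ofReal_lt_top (int_abs_rpow ε L hε)
  set K : ℝ≥0∞ := A * (2 * ENNReal.ofReal (2 * Real.exp (4 * π) ^ n) * I ^ n) * A with hK
  have hKt : K < ⊤ := by
    refine ENNReal.mul_lt_top (ENNReal.mul_lt_top hAt (ENNReal.mul_lt_top (ENNReal.mul_lt_top
      (by norm_num) ENNReal.ofReal_lt_top) (ENNReal.pow_lt_top hIt))) hAt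
  refine ⟨(K.toReal + 1) * ((4 * π) ^ (-(1 + n * ε / 2)) * Real.Gamma (1 + n * ε / 2)),
    ?_, ?_⟩
  · have : 0 < Real.Gamma (1 + n * ε / 2) := Real.Gamma_pos_of_pos (by positivity)
    have := ENNReal.toReal_nonneg (a := K)
    positivity
  intro F hFm hFb hFL y hy hy1
  obtain ⟨B, hB⟩ := hFb
  have hF := int_of_supp hFm B hB L hFL
  refine (V_int hn y hy hFm hF).trans ?_
  rw [← hA]
  set N : ℝ≥0∞ := ∫⁻ u, ‖F u‖ₑ ^ (4 : ℝ) with hN
  have hN4 : ∫⁻ u, ‖F u‖ₑ ^ 4 = N := by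
    rw [hN]
    refine lintegral_congr fun u => ?_
    rw [← ENNReal.rpow_natCast]
    norm_num
  set S : ℝ≥0∞ := ∫⁻ σ in Set.Ioi (0 : ℝ),
    ENNReal.ofReal (σ ^ (n * ε / 2) * Real.exp (-(4 * π * y) * σ)) with hS
  have hSe : S = ENNReal.ofReal ((4 * π) ^ (-(1 + n * ε / 2)) * Real.Gamma (1 + n * ε / 2) *
      y ^ (-(1 + n * ε / 2))) := by
    have h1 := Real.integral_rpow_mul_exp_neg_mul_Ioi (a := 1 + n * ε / 2) (r := 4 * π * y)
      (by positivity) (by positivity)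
    rw [hS, ← ofReal_integral_eq_lintegral_ofReal]
    · congr 1
      rw [add_sub_cancel_left] at h1
      simp only [neg_mul]
      rw [h1, one_div, Real.inv_rpow (by positivity), ← Real.rpow_neg (by positivity),
        Real.mul_rpow (by positivity) hy.le]
      ring
    · exact int_rpow_exp _ _ (by have : 0 < n * ε / 2 := by positivity
                                 linarith) (by positivity)
    · filter_upwards [ae_restrict_mem measurableSet_Ioi] with σ hσ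
      have : 0 < σ := hσ
      positivity
  have hb : ∫⁻ θ in Set.Ioo (0 : ℝ) 1, ENNReal.ofReal ((θ * (1 - θ)) ^ ((n : ℝ) - 1 / 4)) *
      ∫⁻ g in box n, ∫⁻ x : Fin n → ℝ, ∫⁻ w : ℝ,
        ‖∫ σ in Set.Ioi (0 : ℝ), os σ (-w) * Gf y F θ g x σ‖ₑ ^ 2 ≤
      ∫⁻ θ in Set.Ioo (0 : ℝ) 1, ENNReal.ofReal ((θ * (1 - θ)) ^ (-(3 / 4) : ℝ)) *
        (2 * ENNReal.ofReal (2 * Real.exp (4 * π) ^ n) * I ^ n * N * S) := by
    refine setLIntegral_mono' measurableSet_Ioo fun θ hθ => ?_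
    refine (mul_le_mul' le_rfl (J_le hFm hF B hB L hFL ε hε hε1 y hy θ hθ)).trans ?_
    rw [hN4, ← hI, ← hS]
    have h0 : 0 < θ * (1 - θ) := mul_pos hθ.1 (by linarith [hθ.2])
    have h1 : θ * (1 - θ) ≤ 1 := by nlinarith [hθ.1, hθ.2]
    have h2 : ENNReal.ofReal ((θ * (1 - θ)) ^ ((n : ℝ) - 1 / 4)) *
        ENNReal.ofReal ((θ * (1 - θ)) ^ ((-1 + ε / 2) * n)) ≤
        ENNReal.ofReal ((θ * (1 - θ)) ^ (-(3 / 4) : ℝ)) := by
      rw [← ENNReal.ofReal_mul (by positivity), ← Real.rpow_add h0]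
      refine ENNReal.ofReal_le_ofReal (Real.rpow_le_rpow_of_exponent_ge h0 h1 ?_)
      have : 0 < ε / 2 * n := by positivity
      linarith
    calc ENNReal.ofReal ((θ * (1 - θ)) ^ ((n : ℝ) - 1 / 4)) *
          (2 * ENNReal.ofReal (2 * Real.exp (4 * π) ^ n) * I ^ n * N *
            (ENNReal.ofReal ((θ * (1 - θ)) ^ ((-1 + ε / 2) * n)) * S))
        = (ENNReal.ofReal ((θ * (1 - θ)) ^ ((n : ℝ) - 1 / 4)) *
          ENNReal.ofReal ((θ * (1 - θ)) ^ ((-1 + ε / 2) * n))) *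
            (2 * ENNReal.ofReal (2 * Real.exp (4 * π) ^ n) * I ^ n * N * S) := by
          generalize ENNReal.ofReal ((θ * (1 - θ)) ^ ((n : ℝ) - 1 / 4)) = a1
          generalize ENNReal.ofReal ((θ * (1 - θ)) ^ ((-1 + ε / 2) * n)) = a2
          ring
      _ ≤ _ := mul_le_mul' h2 le_rfl
  refine (mul_le_mul' le_rfl hb).trans ?_
  rw [lintegral_mul_const _ (by fun_prop), ← hA]
  calc A * (A * (2 * ENNReal.ofReal (2 * Real.exp (4 * π) ^ n) * I ^ n * N * S))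
      = K * S * N := by
        rw [hK]
        ring
    _ ≤ ENNReal.ofReal (K.toReal + 1) * S * N := by
        refine mul_le_mul' (mul_le_mul' ?_ le_rfl) le_rfl
        rw [← ENNReal.ofReal_toReal hKt.ne, ENNReal.toReal_ofReal ENNReal.toReal_nonneg]
        exact ENNReal.ofReal_le_ofReal (by linarith)
    _ = _ := by
        rw [hSe, ← ENNReal.ofReal_mul (by positivity)]
        congr 2
        ring

end Pool.Agent.T9h44.LS4
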