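import Pool.Agent.T9h44.LS4.PL

/-!
# Local smoothing in the mean over flat metrics (helper44): the square of the wave
-/

set_option autoImplicit false

namespace Pool.Agent.T9h44.LS4

open MeasureTheory Real Pool.Agent.TH280.LS
open scoped ENNReal ComplexConjugate

variable {n : ℕ}

/-- the square of an integral over the half line -/
theorem sq_half_line (f : ℝ → ℂ) (hf : Integrable f (volume.restrict (Set.Ioi 0)))
    (hfm : Measurable f) (C m y : ℝ) (hC : 0 ≤ C) (hm : 0 ≤ m) (hy : 0 < y)
    (hb : ∀ s, 0 < s → ‖f s‖ ≤ C * (s ^ m * Real.exp (-(2 * π * s * y)))) :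
    (∫ s in Set.Ioi (0 : ℝ), f s) ^ 2 =
      ∫ θ in Set.Ioo (0 : ℝ) 1, ∫ σ in Set.Ioi (0 : ℝ), (σ : ℂ) * (f (θ * σ) * f (σ - θ * σ)) := by
  have h1 := integral_posConvolution (μ := volume) (ν := volume) (f := f) (g := f)
    hf hf (ContinuousLinearMap.mul ℝ ℂ)
  simp only [ContinuousLinearMap.mul_apply'] at h1
  rw [sq, ← h1]
  have h2 : ∀ σ : ℝ, σ ∈ Set.Ioi (0 : ℝ) → (∫ t in (0 : ℝ)..σ, f t * f (σ - t)) =
      ∫ θ in Set.Ioo (0 : ℝ) 1, (σ : ℂ) * (f (θ * σ) * f (σ - θ * σ)) := by
    intro σ hσ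
    have h3 := intervalIntegral.smul_integral_comp_mul_right (a := (0 : ℝ)) (b := 1)
      (fun t => f t * f (σ - t)) σ
    rw [zero_mul, one_mul] at h3
    rw [← h3, intervalIntegral.integral_of_le zero_le_one, integral_Ioc_eq_integral_Ioo,
      Complex.real_smul, ← integral_const_mul]
  rw [setIntegral_congr_fun measurableSet_Ioi h2]
  refine integral_integral_swap ?_
  -- integrability
  have hb2 : Integrable (fun p : ℝ × ℝ => (C ^ 2 * (p.1 ^ (2 * m + 1) *
      Real.exp (-(2 * π * y) * p.1))) * (1 : ℝ)) ((volume.restrict (Set.Ioi (0 : ℝ))).prod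
        (volume.restrict (Set.Ioo (0 : ℝ) 1))) := by
    refine Integrable.mul_prod (f := fun s : ℝ => C ^ 2 * (s ^ (2 * m + 1) *
      Real.exp (-(2 * π * y) * s))) (g := fun _ : ℝ => (1 : ℝ)) ?_ ?_
    · refine Integrable.const_mul ?_ _
      have := integrableOn_rpow_mul_exp_neg_mul_rpow (s := 2 * m + 1) (p := 1) (b := 2 * π * y)
        (by linarith) one_pos (by positivity)
      simp only [Real.rpow_one] at this
      exact this
    · exact integrable_const 1
  refine hb2.mono' ?_ ?_
  · refine Measurable.aestronglyMeasurable ?_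
    simp only [Function.uncurry_def]
    fun_prop
  · rw [Measure.prod_restrict]
    filter_upwards [ae_restrict_mem (measurableSet_Ioi.prod measurableSet_Ioo)] with p hp
    obtain ⟨hp1, hp2⟩ := hp
    have hσ : 0 < p.1 := hp1
    have h3 : 0 < p.2 * p.1 := mul_pos hp2.1 hσ
    have h4 : 0 < p.1 - p.2 * p.1 := by nlinarith [hp2.2]
    have h5 := hb _ h3
    have h6 := hb _ h4
    simp only [Function.uncurry]
    rw [norm_mul, norm_mul, Complex.norm_real, Real.norm_of_nonneg hσ.le, mul_one]
    have h7 : (p.2 * p.1) ^ m ≤ p.1 ^ m :=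
      Real.rpow_le_rpow h3.le (by nlinarith [hp2.2]) hm
    have h8 : (p.1 - p.2 * p.1) ^ m ≤ p.1 ^ m :=
      Real.rpow_le_rpow h4.le (by nlinarith [hp2.1]) hm
    calc p.1 * (‖f (p.2 * p.1)‖ * ‖f (p.1 - p.2 * p.1)‖)
        ≤ p.1 * ((C * ((p.2 * p.1) ^ m * Real.exp (-(2 * π * (p.2 * p.1) * y)))) *
          (C * ((p.1 - p.2 * p.1) ^ m * Real.exp (-(2 * π * (p.1 - p.2 * p.1) * y))))) := by
          gcongr
      _ ≤ p.1 * ((C * (p.1 ^ m * Real.exp (-(2 * π * (p.2 * p.1) * y)))) *
          (C * (p.1 ^ m * Real.exp (-(2 * π * (p.1 - p.2 * p.1) * y))))) := by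
          gcongr
      _ = C ^ 2 * ((p.1 * (p.1 ^ m * p.1 ^ m)) * (Real.exp (-(2 * π * (p.2 * p.1) * y)) *
          Real.exp (-(2 * π * (p.1 - p.2 * p.1) * y)))) := by ring
      _ = _ := by
          rw [← Real.exp_add, ← Real.rpow_add hσ, mul_comm p.1, ← Real.rpow_add_one hσ.ne']
          congr 3
          · ring
          · ring_nf

/-- the Schrödinger wave with the metric `g` -/
noncomputable def Pw (F : (Fin n → ℝ) → ℂ) (g : Fin n → ℝ) (s : ℝ) (x : Fin n → ℝ) : ℂ :=
  ∫ u, os s (q g (x - u)) * F u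

/-- the bilinear average -/
noncomputable def Hb (F : (Fin n → ℝ) → ℂ) (θ σ : ℝ) (g u : Fin n → ℝ) : ℂ :=
  ∫ z, os (θ * (1 - θ) * σ) (q g z) * (F (u + (1 - θ) • z) * F (u - θ • z))

lemma q_id (g x u z : Fin n → ℝ) (θ σ : ℝ) :
    os (θ * σ) (q g (x - (u + (1 - θ) • z))) * os (σ - θ * σ) (q g (x - (u - θ • z))) =
      os σ (q g (x - u)) * os (θ * (1 - θ) * σ) (q g z) := by
  unfold os
  rw [← Complex.exp_add, ← Complex.exp_add, ← add_mul, ← add_mul]
  congr 2
  norm_cast
  have key : θ * q g (x - (u + (1 - θ) • z)) + (1 - θ) * q g (x - (u - θ • z)) =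
      q g (x - u) + θ * (1 - θ) * q g z := by
    unfold q
    rw [Finset.mul_sum, Finset.mul_sum, Finset.mul_sum, ← Finset.sum_add_distrib,
      ← Finset.sum_add_distrib]
    refine Finset.sum_congr rfl fun i _ => ?_
    simp only [Pi.sub_apply, Pi.add_apply, Pi.smul_apply, smul_eq_mul]
    ring
  linear_combination (-(π * σ)) * key

lemma int_shear1 (A B : (Fin n → ℝ) → ℂ) (hA : Integrable A) (hB : Integrable B) :
    Integrable (fun p : (Fin n → ℝ) × (Fin n → ℝ) => A (p.1 + p.2) * B p.1)
      (volume.prod volume) := by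
  have h1 : Integrable (fun p : (Fin n → ℝ) × (Fin n → ℝ) => B p.1 * A p.2)
      (volume.prod volume) := hB.mul_prod hA
  have h2 := (measurePreserving_prod_add (volume : Measure (Fin n → ℝ))
    (volume : Measure (Fin n → ℝ))).integrable_comp_of_integrable h1
  refine h2.congr (Filter.Eventually.of_forall fun p => ?_)
  simp only [Function.comp]
  ring

lemma int_shear2 (A B : (Fin n → ℝ) → ℂ) (hA : Integrable A) (hB : Integrable B) (θ : ℝ) :
    Integrable (fun p : (Fin n → ℝ) × (Fin n → ℝ) =>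
      A (p.2 + (1 - θ) • p.1) * B (p.2 - θ • p.1)) (volume.prod volume) := by
  have h1 := (int_shear1 A B hA hB).swap
  have h2 : MeasurePreserving (fun p : (Fin n → ℝ) × (Fin n → ℝ) => (p.1, p.2 - θ • p.1))
      (volume.prod volume) (volume.prod volume) := by
    refine (MeasurePreserving.id _).skew_product (g := fun (z u : Fin n → ℝ) => u - θ • z)
      (by fun_prop) (Filter.Eventually.of_forall fun z => ?_)
    exact (measurePreserving_sub_right (volume : Measure (Fin n → ℝ)) (θ • z)).map_eq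
  have h3 := h2.integrable_comp_of_integrable h1
  refine h3.congr (Filter.Eventually.of_forall fun p => ?_)
  simp only [Function.comp, Prod.swap]
  congr 2
  rw [sub_smul, one_smul]
  abel

/-- the product of two Schrödinger waves -/
theorem prod_P (F : (Fin n → ℝ) → ℂ) (hF : Integrable F) (θ σ : ℝ) (g x : Fin n → ℝ) :
    Pw F g (θ * σ) x * Pw F g (σ - θ * σ) x = ∫ u, os σ (q g (x - u)) * Hb F θ σ g u := by
  have hc : ∀ s, Continuous fun u : Fin n → ℝ => os s (q g (x - u)) := fun s =>
    continuous_os.comp (continuous_const.prodMk (continuous_q.comp (by fun_prop :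
      Continuous fun u : Fin n → ℝ => (g, x - u))))
  have hi : ∀ s, Integrable fun u : Fin n → ℝ => os s (q g (x - u)) * F u := fun s =>
    hF.bdd_mul (c := 1) (hc s).aestronglyMeasurable
      (Filter.Eventually.of_forall fun z => (norm_os _ _).le)
  set A : (Fin n → ℝ) → ℂ := fun u => os (θ * σ) (q g (x - u)) * F u with hA
  set B : (Fin n → ℝ) → ℂ := fun u => os (σ - θ * σ) (q g (x - u)) * F u with hB
  have hAi : Integrable A := hi _
  have hBi : Integrable B := hi _
  have h1 : Pw F g (θ * σ) x * Pw F g (σ - θ * σ) x = ∫ v, ∫ z, A (v + z) * B v := by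
    unfold Pw
    rw [← integral_const_mul]
    refine integral_congr_ae (Filter.Eventually.of_forall fun v => ?_)
    simp only
    rw [integral_mul_const, integral_add_left_eq_self A v]
  have h2 : (∫ v, ∫ z, A (v + z) * B v) = ∫ z, ∫ v, A (v + z) * B v :=
    integral_integral_swap (int_shear1 A B hAi hBi)
  have h3 : ∀ z, (∫ v, A (v + z) * B v) = ∫ u, A (u + (1 - θ) • z) * B (u - θ • z) := by
    intro z
    rw [← integral_sub_right_eq_self (fun v => A (v + z) * B v) (θ • z)]
    refine integral_congr_ae (Filter.Eventually.of_forall fun u => ?_)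
    simp only
    congr 2
    rw [sub_smul, one_smul]
    abel
  have h4 : (∫ z, ∫ u, A (u + (1 - θ) • z) * B (u - θ • z)) =
      ∫ u, ∫ z, A (u + (1 - θ) • z) * B (u - θ • z) :=
    integral_integral_swap (int_shear2 A B hAi hBi θ)
  rw [h1, h2]
  simp_rw [h3]
  rw [h4]
  refine integral_congr_ae (Filter.Eventually.of_forall fun u => ?_)
  simp only [hA, hB, Hb]
  rw [← integral_const_mul]
  refine integral_congr_ae (Filter.Eventually.of_forall fun z => ?_)
  simp only
  have := q_id g x u z θ σ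
  linear_combination (F (u + (1 - θ) • z) * F (u - θ • z)) * this

end Pool.Agent.T9h44.LS4
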