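import Pool.Agent.T9h44.LS4.ME4
import Pool.Agent.T9h82.LS.KBd

/-!
# Local smoothing in the mean over flat metrics (helper44): localisation
-/

set_option autoImplicit false

namespace Pool.Agent.T9h44.LS4

open MeasureTheory Real Pool.Agent.T9h82.LS
open scoped ENNReal

variable {n : ℕ}

lemma sq_norm_le_q (hn : 1 ≤ n) (g : Fin n → ℝ) (hg : g ∈ box n) (z : Fin n → ℝ) :
    ‖z‖ ^ 2 ≤ q g z := by
  have : Nonempty (Fin n) := ⟨⟨0, hn⟩⟩
  obtain ⟨i, -, hi⟩ := Finset.exists_max_image Finset.univ (fun i => ‖z i‖) ⟨⟨0, hn⟩,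
    Finset.mem_univ _⟩
  have h1 : ‖z‖ ≤ ‖z i‖ := by
    rw [pi_norm_le_iff_of_nonneg (norm_nonneg _)]
    exact fun j => hi j (Finset.mem_univ _)
  calc ‖z‖ ^ 2 ≤ ‖z i‖ ^ 2 := pow_le_pow_left₀ (norm_nonneg _) h1 2
    _ = z i ^ 2 := by rw [Real.norm_eq_abs, sq_abs]
    _ ≤ g i * z i ^ 2 := by nlinarith [(hg i).1, sq_nonneg (z i)]
    _ ≤ q g z := by
        unfold q
        exact Finset.single_le_sum (f := fun i => g i * z i ^ 2)
          (fun j _ => mul_nonneg (by linarith [(hg j).1]) (sq_nonneg _)) (Finset.mem_univ i)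

/-- the majorant of the kernel far away -/
noncomputable def kf (n : ℕ) (z : Fin n → ℝ) : ℝ :=
  Real.Gamma (((n : ℝ) + 1) / 2) * (5 / 4) ^ ((n : ℝ) + 1) * (1 + ‖z‖) ^ (-((n : ℝ) + 1))

lemma kf_nonneg (z : Fin n → ℝ) : 0 ≤ kf n z := by
  unfold kf
  have : 0 < Real.Gamma (((n : ℝ) + 1) / 2) := Real.Gamma_pos_of_pos (by positivity)
  positivity

lemma kf_int : Integrable (kf n) := by
  unfold kf
  refine Integrable.const_mul ?_ _
  refine integrable_one_add_norm (E := Fin n → ℝ) ?_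
  rw [Module.finrank_fin_fun]
  linarith

lemma kf_meas : Measurable (kf n) := by
  unfold kf
  fun_prop

/-- the kernel far away -/
lemma ker_far (hn : 1 ≤ n) (y w : ℝ) (hy : 0 < y) (hw : w ≤ 4) (g : Fin n → ℝ) (hg : g ∈ box n)
    (z : Fin n → ℝ) (hz : 4 ≤ ‖z‖) : ‖Ker n y w g z‖ ≤ kf n z := by
  rw [norm_Ker hy]
  unfold kf
  have hG : 0 < Real.Gamma (((n : ℝ) + 1) / 2) := Real.Gamma_pos_of_pos (by positivity)
  have h1 := sq_norm_le_q hn g hg z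
  have h2 : ‖z‖ ^ 2 ≤ ‖((2 * π * y : ℝ) : ℂ) + ((π * (q g z - w) : ℝ) : ℂ) * Complex.I‖ := by
    have h3 := Complex.abs_im_le_norm (((2 * π * y : ℝ) : ℂ) + ((π * (q g z - w) : ℝ) : ℂ) *
      Complex.I)
    have e : (((2 * π * y : ℝ) : ℂ) + ((π * (q g z - w) : ℝ) : ℂ) * Complex.I).im =
        π * (q g z - w) := by
      simp
    rw [e] at h3
    refine le_trans ?_ h3
    have h4 : 0 ≤ q g z - w := by nlinarith
    rw [abs_of_nonneg (by positivity)]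
    have h5 := Real.pi_gt_three
    nlinarith
  have hz0 : 0 < ‖z‖ := by linarith
  have h6 : ‖z‖ ^ ((n : ℝ) + 1) ≤
      ‖((2 * π * y : ℝ) : ℂ) + ((π * (q g z - w) : ℝ) : ℂ) * Complex.I‖ ^ (((n : ℝ) + 1) / 2) := by
    calc ‖z‖ ^ ((n : ℝ) + 1) = (‖z‖ ^ 2) ^ (((n : ℝ) + 1) / 2) := by
          rw [← Real.rpow_natCast, ← Real.rpow_mul hz0.le]
          congr 1
          push_cast
          ring
      _ ≤ _ := Real.rpow_le_rpow (by positivity) h2 (by positivity)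
  calc Real.Gamma (((n : ℝ) + 1) / 2) /
        ‖((2 * π * y : ℝ) : ℂ) + ((π * (q g z - w) : ℝ) : ℂ) * Complex.I‖ ^ (((n : ℝ) + 1) / 2)
      ≤ Real.Gamma (((n : ℝ) + 1) / 2) / ‖z‖ ^ ((n : ℝ) + 1) :=
        div_le_div_of_nonneg_left hG.le (by positivity) h6
    _ ≤ _ := by
        have h7 : (1 + ‖z‖) ^ ((n : ℝ) + 1) ≤ (5 / 4) ^ ((n : ℝ) + 1) * ‖z‖ ^ ((n : ℝ) + 1) := by
          rw [← Real.mul_rpow (by norm_num) hz0.le]
          exact Real.rpow_le_rpow (by positivity) (by linarith) (by positivity)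
        rw [Real.rpow_neg (by positivity), mul_assoc, div_eq_mul_inv]
        refine mul_le_mul_of_nonneg_left ?_ hG.le
        rw [← div_eq_mul_inv, le_div_iff₀ (by positivity), inv_mul_le_iff₀ (by positivity)]
        linarith

/-- Young's inequality with the exponent `4` -/
lemma young4 (k f : (Fin n → ℝ) → ℝ≥0∞) (hk : Measurable k) (hf : Measurable f) :
    ∫⁻ x, (∫⁻ u, k (x - u) * f u) ^ 4 ≤ (∫⁻ z, k z) ^ 4 * ∫⁻ u, f u ^ 4 := by
  set K : ℝ≥0∞ := ∫⁻ z, k z with hK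
  have hkx : ∀ x : Fin n → ℝ, Measurable fun u : Fin n → ℝ => k (x - u) := fun x =>
    hk.comp (by fun_prop)
  have hKx : ∀ x : Fin n → ℝ, ∫⁻ u, k (x - u) = K := fun x =>
    lintegral_sub_left_eq_self k x
  have h1 : ∀ (φ : (Fin n → ℝ) → ℝ≥0∞), Measurable φ → ∀ x : Fin n → ℝ,
      (∫⁻ u, k (x - u) * φ u) ^ 2 ≤ K * ∫⁻ u, k (x - u) * φ u ^ 2 := by
    intro φ hφ x
    have h2 := cs_sq (μ := (volume : Measure (Fin n → ℝ)))
      (a := fun u => k (x - u) ^ (1 / 2 : ℝ))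
      (b := fun u => k (x - u) ^ (1 / 2 : ℝ) * φ u) ((hkx x).pow_const _).aemeasurable
      (((hkx x).pow_const _).mul hφ).aemeasurable
    have e1 : ∀ c : ℝ≥0∞, c ^ (1 / 2 : ℝ) * c ^ (1 / 2 : ℝ) = c := fun c => by
      rw [← ENNReal.rpow_add_of_nonneg _ _ (by norm_num) (by norm_num)]
      norm_num
    have e2 : ∀ u, k (x - u) ^ (1 / 2 : ℝ) * (k (x - u) ^ (1 / 2 : ℝ) * φ u) =
        k (x - u) * φ u := fun u => by rw [← mul_assoc, e1]
    have e3 : ∀ u, (k (x - u) ^ (1 / 2 : ℝ)) ^ 2 = k (x - u) := fun u => by rw [sq, e1]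
    have e4 : ∀ u, (k (x - u) ^ (1 / 2 : ℝ) * φ u) ^ 2 = k (x - u) * φ u ^ 2 := fun u => by
      rw [mul_pow, e3]
    simp only [e2, e3, e4] at h2
    rwa [hKx] at h2
  have h2 : ∀ x, (∫⁻ u, k (x - u) * f u) ^ 4 ≤ K ^ 3 * ∫⁻ u, k (x - u) * f u ^ 4 := by
    intro x
    calc (∫⁻ u, k (x - u) * f u) ^ 4 = ((∫⁻ u, k (x - u) * f u) ^ 2) ^ 2 := by
          rw [← pow_mul]
      _ ≤ (K * ∫⁻ u, k (x - u) * f u ^ 2) ^ 2 := pow_le_pow_left₀ zero_le (h1 f hf x) 2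
      _ = K ^ 2 * (∫⁻ u, k (x - u) * f u ^ 2) ^ 2 := mul_pow _ _ _
      _ ≤ K ^ 2 * (K * ∫⁻ u, k (x - u) * (f u ^ 2) ^ 2) :=
          mul_le_mul' le_rfl (h1 (fun u => f u ^ 2) (hf.pow_const 2) x)
      _ = _ := by
          rw [← mul_assoc, ← pow_succ]
          congr 1
          refine lintegral_congr fun u => ?_
          rw [← pow_mul]
  refine (lintegral_mono h2).trans ?_
  have hm : Measurable fun p : (Fin n → ℝ) × (Fin n → ℝ) => k (p.1 - p.2) * f p.2 ^ 4 :=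
    (hk.comp (by fun_prop)).mul ((hf.comp measurable_snd).pow_const 4)
  rw [lintegral_const_mul _ (Measurable.lintegral_prod_right' hm),
    lintegral_lintegral_swap hm.aemeasurable]
  refine le_of_eq ?_
  have h3 : ∀ u : Fin n → ℝ, ∫⁻ x, k (x - u) * f u ^ 4 = K * f u ^ 4 := by
    intro u
    have hku : Measurable fun x : Fin n → ℝ => k (x - u) := hk.comp (by fun_prop)
    rw [lintegral_mul_const _ hku, lintegral_sub_right_eq_self k u]
  simp only [h3]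
  rw [lintegral_const_mul _ (hf.pow_const 4), ← mul_assoc, ← pow_succ]

/-- joint measurability of the kernel -/
lemma meas_Ker3 (y : ℝ) :
    Measurable fun p : ℝ × (Fin n → ℝ) × (Fin n → ℝ) => Ker n y p.1 p.2.1 p.2.2 := by
  unfold Ker
  have hq : Continuous fun p : (ℝ × (Fin n → ℝ) × (Fin n → ℝ)) × ℝ =>
      os p.2 (q p.1.2.1 p.1.2.2 - p.1.1) :=
    continuous_os.comp ((by fun_prop : Continuous fun p : (ℝ × (Fin n → ℝ) × (Fin n → ℝ)) × ℝ =>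
      p.2).prodMk ((continuous_q.comp (by fun_prop : Continuous fun p :
      (ℝ × (Fin n → ℝ) × (Fin n → ℝ)) × ℝ => (p.1.2.1, p.1.2.2))).sub (by fun_prop)))
  have hm : Measurable fun p : (ℝ × (Fin n → ℝ) × (Fin n → ℝ)) × ℝ =>
      ((p.2 ^ (((n : ℝ) - 1) / 2) * Real.exp (-(2 * π * p.2 * y)) : ℝ) : ℂ) *
        os p.2 (q p.1.2.1 p.1.2.2 - p.1.1) :=
    (by fun_prop : Measurable fun p : (ℝ × (Fin n → ℝ) × (Fin n → ℝ)) × ℝ =>
      ((p.2 ^ (((n : ℝ) - 1) / 2) * Real.exp (-(2 * π * p.2 * y)) : ℝ) : ℂ)).mul hq.measurable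
  exact (hm.stronglyMeasurable.integral_prod_right'
    (ν := volume.restrict (Set.Ioi (0 : ℝ)))).measurable

/-- the wave -/
noncomputable def Vt (y : ℝ) (F : (Fin n → ℝ) → ℂ) (g : Fin n → ℝ) (t : ℝ) (x : Fin n → ℝ) : ℂ :=
  ∫ u, Ker n y (t ^ 2 - y ^ 2 / t ^ 2) g (x - u) * F u

/-- the localised function -/
noncomputable def loc (F : (Fin n → ℝ) → ℂ) (a u : Fin n → ℝ) : ℂ :=
  if ‖u - a‖ ≤ 5 then F u else 0

lemma meas_loc {F : (Fin n → ℝ) → ℂ} (hF : Measurable F) :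
    Measurable fun p : (Fin n → ℝ) × (Fin n → ℝ) => loc F p.1 p.2 := by
  unfold loc
  refine Measurable.ite ?_ (hF.comp measurable_snd) measurable_const
  exact measurableSet_le (by fun_prop) measurable_const

lemma meas_Vloc (y : ℝ) {F : (Fin n → ℝ) → ℂ} (hF : Measurable F) :
    Measurable fun p : (Fin n → ℝ) × (Fin n → ℝ) × ℝ × (Fin n → ℝ) =>
      Vt y (loc F p.1) p.2.1 p.2.2.1 p.2.2.2 := by
  unfold Vt
  have h1 : Measurable fun p : ((Fin n → ℝ) × (Fin n → ℝ) × ℝ × (Fin n → ℝ)) × (Fin n → ℝ) =>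
      Ker n y (p.1.2.2.1 ^ 2 - y ^ 2 / p.1.2.2.1 ^ 2) p.1.2.1 (p.1.2.2.2 - p.2) :=
    Measurable.comp (g := fun p : ℝ × (Fin n → ℝ) × (Fin n → ℝ) => Ker n y p.1 p.2.1 p.2.2)
      (f := fun p : ((Fin n → ℝ) × (Fin n → ℝ) × ℝ × (Fin n → ℝ)) × (Fin n → ℝ) =>
        (p.1.2.2.1 ^ 2 - y ^ 2 / p.1.2.2.1 ^ 2, p.1.2.1, p.1.2.2.2 - p.2))
      (meas_Ker3 y) (by fun_prop)
  have h2 : Measurable fun p : ((Fin n → ℝ) × (Fin n → ℝ) × ℝ × (Fin n → ℝ)) × (Fin n → ℝ) =>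
      loc F p.1.1 p.2 :=
    Measurable.comp (g := fun p : (Fin n → ℝ) × (Fin n → ℝ) => loc F p.1 p.2)
      (f := fun p : ((Fin n → ℝ) × (Fin n → ℝ) × ℝ × (Fin n → ℝ)) × (Fin n → ℝ) => (p.1.1, p.2))
      (meas_loc hF) (by fun_prop)
  exact ((h1.mul h2).stronglyMeasurable.integral_prod_right').measurable

lemma meas_Vt (y : ℝ) {F : (Fin n → ℝ) → ℂ} (hF : Measurable F) :
    Measurable fun p : (Fin n → ℝ) × ℝ × (Fin n → ℝ) => Vt y F p.1 p.2.1 p.2.2 := by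
  unfold Vt
  have h1 : Measurable fun p : ((Fin n → ℝ) × ℝ × (Fin n → ℝ)) × (Fin n → ℝ) =>
      Ker n y (p.1.2.1 ^ 2 - y ^ 2 / p.1.2.1 ^ 2) p.1.1 (p.1.2.2 - p.2) :=
    Measurable.comp (g := fun p : ℝ × (Fin n → ℝ) × (Fin n → ℝ) => Ker n y p.1 p.2.1 p.2.2)
      (f := fun p : ((Fin n → ℝ) × ℝ × (Fin n → ℝ)) × (Fin n → ℝ) =>
        (p.1.2.1 ^ 2 - y ^ 2 / p.1.2.1 ^ 2, p.1.1, p.1.2.2 - p.2))
      (meas_Ker3 y) (by fun_prop)
  exact ((h1.mul (hF.comp measurable_snd)).stronglyMeasurable.integral_prod_right').measurable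

end Pool.Agent.T9h44.LS4
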