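import Pool.Agent.T9h44.LS4.R1

/-!
# Local smoothing in the mean over flat metrics (helper44): the estimate with the exponent 4
-/

set_option autoImplicit false

namespace Pool.Agent.T9h44.LS4

open MeasureTheory Real Pool.Agent.T9h82.LS
open scoped ENNReal

variable {n : ℕ}

lemma ker_bdd (y w : ℝ) (hy : 0 < y) (g z : Fin n → ℝ) :
    ‖Ker n y w g z‖ ≤ Real.Gamma (((n : ℝ) + 1) / 2) / (2 * π * y) ^ (((n : ℝ) + 1) / 2) := by
  rw [norm_Ker hy]
  have hG : 0 < Real.Gamma (((n : ℝ) + 1) / 2) := Real.Gamma_pos_of_pos (by positivity)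
  refine div_le_div_of_nonneg_left hG.le (by positivity) ?_
  refine Real.rpow_le_rpow (by positivity) ?_ (by positivity)
  have h3 := Complex.abs_re_le_norm (((2 * π * y : ℝ) : ℂ) + ((π * (q g z - w) : ℝ) : ℂ) *
    Complex.I)
  have e : (((2 * π * y : ℝ) : ℂ) + ((π * (q g z - w) : ℝ) : ℂ) * Complex.I).re =
      2 * π * y := by
    simp
  rw [e, abs_of_pos (by positivity)] at h3
  exact h3

lemma kerF_int (y w : ℝ) (hy : 0 < y) (g x : Fin n → ℝ) {F : (Fin n → ℝ) → ℂ}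
    (hF : Integrable F) : Integrable fun u => Ker n y w g (x - u) * F u := by
  refine hF.bdd_mul
    (c := Real.Gamma (((n : ℝ) + 1) / 2) / (2 * π * y) ^ (((n : ℝ) + 1) / 2)) ?_
    (Filter.Eventually.of_forall fun u => ker_bdd y w hy g _)
  exact ((measurable_Ker hy w g).comp (by fun_prop)).aestronglyMeasurable

lemma meas_loc1 {F : (Fin n → ℝ) → ℂ} (hFm : Measurable F) (a : Fin n → ℝ) :
    Measurable (loc F a) :=
  Measurable.comp (g := fun p : (Fin n → ℝ) × (Fin n → ℝ) => loc F p.1 p.2)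
    (f := fun u : Fin n → ℝ => (a, u)) (meas_loc hFm) (by fun_prop)

lemma loc_int {F : (Fin n → ℝ) → ℂ} (hFm : Measurable F) (hF : Integrable F)
    (a : Fin n → ℝ) : Integrable (loc F a) := by
  refine hF.mono (meas_loc1 hFm a).aestronglyMeasurable (Filter.Eventually.of_forall fun u => ?_)
  unfold loc
  split_ifs
  · exact le_rfl
  · rw [norm_zero]
    exact norm_nonneg _

/-- the part far away -/
noncomputable def Yf (F : (Fin n → ℝ) → ℂ) (x : Fin n → ℝ) : ℝ≥0∞ :=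
  ∫⁻ u, ENNReal.ofReal (kf n (x - u)) * ‖F u‖ₑ

lemma near_far (hn : 1 ≤ n) (y : ℝ) (hy : 0 < y) {F : (Fin n → ℝ) → ℂ} (hFm : Measurable F)
    (hF : Integrable F) (g : Fin n → ℝ) (hg : g ∈ box n) (t : ℝ) (ht : t ∈ Set.Icc (1 : ℝ) 2)
    (a x : Fin n → ℝ) (hxa : ‖x - a‖ ≤ 1 / 2) :
    ‖Vt y F g t x‖ₑ ≤ ‖Vt y (loc F a) g t x‖ₑ + Yf F x := by
  have hw : t ^ 2 - y ^ 2 / t ^ 2 ≤ 4 := by
    have h1 : t ^ 2 ≤ 4 := by nlinarith [ht.1, ht.2]
    have h2 : 0 ≤ y ^ 2 / t ^ 2 := by positivity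
    linarith
  have e1 : Vt y F g t x = Vt y (loc F a) g t x +
      ∫ u, Ker n y (t ^ 2 - y ^ 2 / t ^ 2) g (x - u) * (F u - loc F a u) := by
    unfold Vt
    have i2 : Integrable fun u => Ker n y (t ^ 2 - y ^ 2 / t ^ 2) g (x - u) *
        (F u - loc F a u) := kerF_int y _ hy g x (hF.sub (loc_int hFm hF a))
    rw [← integral_add (kerF_int y _ hy g x (loc_int hFm hF a)) i2]
    refine integral_congr_ae (Filter.Eventually.of_forall fun u => ?_)
    simp only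
    ring
  rw [e1]
  refine (enorm_add_le _ _).trans (add_le_add le_rfl ?_)
  refine (enorm_integral_le_lintegral_enorm _).trans (lintegral_mono fun u => ?_)
  by_cases hu : ‖u - a‖ ≤ 5
  · have : F u - loc F a u = 0 := by
      unfold loc
      rw [if_pos hu, sub_self]
    rw [this, mul_zero, enorm_zero]
    exact zero_le
  · have h0 : loc F a u = 0 := by
      unfold loc
      rw [if_neg hu]
    rw [h0, sub_zero, enorm_mul]
    refine mul_le_mul' ?_ le_rfl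
    rw [← ofReal_norm]
    refine ENNReal.ofReal_le_ofReal (ker_far hn y _ hy hw g hg _ ?_)
    push Not at hu
    have h1 : ‖u - a‖ ≤ ‖x - u‖ + ‖x - a‖ := by
      have : u - a = (x - a) - (x - u) := by abel
      rw [this]
      refine (norm_sub_le _ _).trans ?_
      linarith
    linarith

lemma add_pow4 (a b : ℝ≥0∞) : (a + b) ^ 4 ≤ 16 * a ^ 4 + 16 * b ^ 4 := by
  rcases le_total a b with h | h
  · calc (a + b) ^ 4 ≤ (2 * b) ^ 4 := by
          refine pow_le_pow_left₀ zero_le ?_ 4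
          rw [two_mul]
          exact add_le_add h le_rfl
      _ = 16 * b ^ 4 := by
          rw [mul_pow]
          norm_num
      _ ≤ _ := le_add_self
  · calc (a + b) ^ 4 ≤ (2 * a) ^ 4 := by
          refine pow_le_pow_left₀ zero_le ?_ 4
          rw [two_mul]
          exact add_le_add le_rfl h
      _ = 16 * a ^ 4 := by
          rw [mul_pow]
          norm_num
      _ ≤ _ := le_self_add

lemma meas_Yf {F : (Fin n → ℝ) → ℂ} (hF : Measurable F) : Measurable (Yf F) := by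
  unfold Yf
  refine Measurable.lintegral_prod_right' (f := fun p : (Fin n → ℝ) × (Fin n → ℝ) =>
    ENNReal.ofReal (kf n (p.1 - p.2)) * ‖F p.2‖ₑ) ?_
  exact ((kf_meas.comp (by fun_prop : Measurable fun p : (Fin n → ℝ) × (Fin n → ℝ) =>
    p.1 - p.2)).ennreal_ofReal).mul ((hF.comp measurable_snd).enorm)

lemma ball_int (x : Fin n → ℝ) (r : ℝ) (hr : 0 ≤ r) (c : ℝ≥0∞) :
    ∫⁻ a : Fin n → ℝ, (if ‖x - a‖ ≤ r then c else 0) = ENNReal.ofReal ((2 * r) ^ n) * c := by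
  have h1 : ∀ a : Fin n → ℝ, (if ‖x - a‖ ≤ r then c else 0) =
      (Metric.closedBall x r).indicator (fun _ => c) a := by
    intro a
    have h2 : a ∈ Metric.closedBall x r ↔ ‖x - a‖ ≤ r := by
      rw [Metric.mem_closedBall, dist_comm, dist_eq_norm]
    by_cases h : ‖x - a‖ ≤ r
    · rw [if_pos h, Set.indicator_of_mem (h2.2 h)]
    · rw [if_neg h, Set.indicator_of_notMem (fun h3 => h (h2.1 h3))]
  simp only [h1]
  rw [lintegral_indicator Metric.isClosed_closedBall.measurableSet, setLIntegral_const,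
    Real.volume_pi_closedBall x hr, Fintype.card_fin, mul_comm]

/-- localisation in space -/
lemma loc_x (hn : 1 ≤ n) (y : ℝ) (hy : 0 < y) {F : (Fin n → ℝ) → ℂ} (hFm : Measurable F)
    (hF : Integrable F) (g : Fin n → ℝ) (hg : g ∈ box n) (t : ℝ) (ht : t ∈ Set.Icc (1 : ℝ) 2) :
    ∫⁻ x, ‖Vt y F g t x‖ₑ ^ 4 ≤
      16 * (∫⁻ x, ∫⁻ a, ‖Vt y (loc F a) g t x‖ₑ ^ 4) + 16 * ∫⁻ x, Yf F x ^ 4 := by
  have hYm := meas_Yf hFm
  have hVm : Measurable fun p : (Fin n → ℝ) × (Fin n → ℝ) =>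
      ‖Vt y (loc F p.2) g t p.1‖ₑ ^ 4 :=
    (Measurable.comp (g := fun p : (Fin n → ℝ) × (Fin n → ℝ) × ℝ × (Fin n → ℝ) =>
      Vt y (loc F p.1) p.2.1 p.2.2.1 p.2.2.2) (f := fun p : (Fin n → ℝ) × (Fin n → ℝ) =>
      (p.2, g, t, p.1)) (meas_Vloc y hFm) (by fun_prop)).enorm.pow_const 4
  calc ∫⁻ x, ‖Vt y F g t x‖ₑ ^ 4
      = ∫⁻ x, ∫⁻ a : Fin n → ℝ, (if ‖x - a‖ ≤ 1 / 2 then ‖Vt y F g t x‖ₑ ^ 4 else 0) := by
        refine lintegral_congr fun x => ?_
        rw [ball_int x (1 / 2) (by norm_num)]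
        norm_num
    _ ≤ ∫⁻ x, ∫⁻ a : Fin n → ℝ, (16 * ‖Vt y (loc F a) g t x‖ₑ ^ 4 +
          (if ‖x - a‖ ≤ 1 / 2 then 16 * Yf F x ^ 4 else 0)) := by
        refine lintegral_mono fun x => lintegral_mono fun a => ?_
        simp only
        split_ifs with h
        · refine (pow_le_pow_left₀ zero_le
            (near_far hn y hy hFm hF g hg t ht a x h) 4).trans (add_pow4 _ _)
        · exact zero_le
    _ = ∫⁻ x, (16 * (∫⁻ a, ‖Vt y (loc F a) g t x‖ₑ ^ 4) + 16 * Yf F x ^ 4) := by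
        refine lintegral_congr fun x => ?_
        have h1 : Measurable fun a : Fin n → ℝ => ‖Vt y (loc F a) g t x‖ₑ ^ 4 :=
          Measurable.comp (g := fun p : (Fin n → ℝ) × (Fin n → ℝ) =>
            ‖Vt y (loc F p.2) g t p.1‖ₑ ^ 4) (f := fun a : Fin n → ℝ => (x, a)) hVm
            (by fun_prop)
        rw [lintegral_add_left (h1.const_mul 16), lintegral_const_mul _ h1,
          ball_int x (1 / 2) (by norm_num)]
        norm_num
    _ = _ := by
        rw [lintegral_add_left, lintegral_const_mul, lintegral_const_mul]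
        · exact hYm.pow_const 4
        · exact Measurable.lintegral_prod_right' hVm
        · exact (Measurable.lintegral_prod_right' hVm).const_mul 16

/-- iterated integrals -/
lemma iter' (f : (Fin n → ℝ) × ℝ × (Fin n → ℝ) → ℝ≥0∞) (hf : Measurable f) :
    ∫⁻ g in box n, ∫⁻ t in Set.Icc (1 : ℝ) 2, ∫⁻ x : Fin n → ℝ, f (g, t, x) =
      ∫⁻ p, f p ∂((volume.restrict (box n)).prod
        ((volume.restrict (Set.Icc (1 : ℝ) 2)).prod (volume : Measure (Fin n → ℝ)))) := by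
  rw [lintegral_prod _ hf.aemeasurable]
  refine lintegral_congr fun g => ?_
  rw [lintegral_prod]
  exact (hf.comp (measurable_prodMk_left)).aemeasurable

lemma vol_box' : (volume : Measure (Fin n → ℝ)) (box n) = 1 := by
  have h1 : box n = Set.Icc (fun _ => (1 : ℝ)) (fun _ => (2 : ℝ)) := by
    ext g
    simp only [box, Set.mem_ofPred_eq, Set.mem_Icc, Pi.le_def]
    exact ⟨fun h => ⟨fun i => (h i).1, fun i => (h i).2⟩, fun h i => ⟨h.1 i, h.2 i⟩⟩
  rw [h1, Real.volume_Icc_pi]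
  norm_num

/-- the local estimate -/
lemma near_a (ε : ℝ) (hN : NearEst n ε 10) : ∃ C : ℝ, 0 < C ∧
    ∀ F : (Fin n → ℝ) → ℂ, Measurable F → (∃ B : ℝ, ∀ u, ‖F u‖ ≤ B) →
    ∀ y : ℝ, 0 < y → y ≤ 1 → ∀ a : Fin n → ℝ,
    ∫⁻ g in box n, ∫⁻ t in Set.Icc (1 : ℝ) 2, ∫⁻ x, ‖Vt y (loc F a) g t x‖ₑ ^ 4 ≤
      ENNReal.ofReal (C * y ^ (-(1 + n * ε / 2))) * ∫⁻ u, ‖loc F a u‖ₑ ^ 4 := by
  obtain ⟨C, hC, h⟩ := hN
  refine ⟨C, hC, ?_⟩
  intro F hFm hFb y hy hy1 a
  obtain ⟨B, hB⟩ := hFb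
  have hlm : Measurable (loc F a) := meas_loc1 hFm a
  have h1 := h (loc F a) hlm ⟨B, fun u => by
    unfold loc
    split_ifs
    · exact hB u
    · rw [norm_zero]
      exact (norm_nonneg _).trans (hB u)⟩ (by
    intro u v hu hv i
    have hu' : ‖u - a‖ ≤ 5 := by
      by_contra hne
      exact hu (by unfold loc; rw [if_neg hne])
    have hv' : ‖v - a‖ ≤ 5 := by
      by_contra hne
      exact hv (by unfold loc; rw [if_neg hne])
    have h2 : ‖(u - v) i‖ ≤ ‖u - v‖ := norm_le_pi_norm (u - v) i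
    rw [Pi.sub_apply, Real.norm_eq_abs] at h2
    have h3 : ‖u - v‖ ≤ ‖u - a‖ + ‖v - a‖ := by
      have : u - v = (u - a) - (v - a) := by abel
      rw [this]
      exact norm_sub_le _ _
    linarith) y hy hy1
  have e4 : ∀ c : ℝ≥0∞, c ^ (4 : ℝ) = c ^ 4 := fun c => by
    rw [← ENNReal.rpow_natCast]
    norm_num
  simp only [e4] at h1
  refine le_trans ?_ h1
  refine lintegral_mono fun g => ?_
  have hm : Measurable fun p : ℝ × (Fin n → ℝ) => ‖Vt y (loc F a) g p.1 p.2‖ₑ ^ 4 :=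
    (Measurable.comp (g := fun p : (Fin n → ℝ) × ℝ × (Fin n → ℝ) =>
      Vt y (loc F a) p.1 p.2.1 p.2.2) (f := fun p : ℝ × (Fin n → ℝ) => (g, p.1, p.2))
      (meas_Vt y hlm) (by fun_prop)).enorm.pow_const 4
  rw [lintegral_lintegral_swap hm.aemeasurable]
  refine lintegral_mono fun x => ?_
  exact lint_time y fun w => ‖∫ u, Ker n y w g (x - u) * loc F a u‖ₑ ^ 4

/-- the estimate with the exponent `4` -/
theorem rough4 (hn : 1 ≤ n) (ε : ℝ) (hN : NearEst n ε 10) : ∃ C : ℝ, 0 < C ∧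
    ∀ F : (Fin n → ℝ) → ℂ, Measurable F → Integrable F → (∃ B : ℝ, ∀ u, ‖F u‖ ≤ B) →
    ∀ y : ℝ, 0 < y → y ≤ 1 →
    ∫⁻ g in box n, ∫⁻ t in Set.Icc (1 : ℝ) 2, ∫⁻ x, ‖Vt y F g t x‖ₑ ^ 4 ≤
      ENNReal.ofReal (C * y ^ (-(1 + n * ε / 2)) + C) * ∫⁻ u, ‖F u‖ₑ ^ 4 := by
  obtain ⟨C, hC, h⟩ := near_a ε hN
  set Kf : ℝ := ∫ z : Fin n → ℝ, kf n z with hKf
  have hKf0 : 0 ≤ Kf := integral_nonneg fun z => kf_nonneg z
  refine ⟨16 * C * 10 ^ n + 16 * Kf ^ 4 + 1, by positivity, ?_⟩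
  intro F hFm hFi hFb y hy hy1
  have hYm := meas_Yf hFm
  set N : ℝ≥0∞ := ∫⁻ u, ‖F u‖ₑ ^ 4 with hN'
  have hY : ∫⁻ x, Yf F x ^ 4 ≤ ENNReal.ofReal (Kf ^ 4) * N := by
    refine (young4 (fun z => ENNReal.ofReal (kf n z)) (fun u => ‖F u‖ₑ) kf_meas.ennreal_ofReal
      hFm.enorm).trans (le_of_eq ?_)
    rw [← ofReal_integral_eq_lintegral_ofReal kf_int
      (Filter.Eventually.of_forall fun z => kf_nonneg z), ENNReal.ofReal_pow hKf0]
  set Φ : (Fin n → ℝ) → (Fin n → ℝ) × ℝ × (Fin n → ℝ) → ℝ≥0∞ := fun a p =>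
    ‖Vt y (loc F a) p.1 p.2.1 p.2.2‖ₑ ^ 4 with hΦ
  have hΦm : Measurable fun p : ((Fin n → ℝ) × ℝ × (Fin n → ℝ)) × (Fin n → ℝ) => Φ p.2 p.1 :=
    (Measurable.comp (g := fun p : (Fin n → ℝ) × (Fin n → ℝ) × ℝ × (Fin n → ℝ) =>
      Vt y (loc F p.1) p.2.1 p.2.2.1 p.2.2.2)
      (f := fun p : ((Fin n → ℝ) × ℝ × (Fin n → ℝ)) × (Fin n → ℝ) =>
      (p.2, p.1.1, p.1.2.1, p.1.2.2)) (meas_Vloc y hFm) (by fun_prop)).enorm.pow_const 4
  have hA : ∫⁻ g in box n, ∫⁻ t in Set.Icc (1 : ℝ) 2, ∫⁻ x, ∫⁻ a, Φ a (g, t, x) ≤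
      ENNReal.ofReal (C * y ^ (-(1 + n * ε / 2))) * (ENNReal.ofReal (10 ^ n) * N) := by
    rw [iter' (fun p => ∫⁻ a, Φ a p) (Measurable.lintegral_prod_right' hΦm),
      lintegral_lintegral_swap hΦm.aemeasurable]
    calc ∫⁻ a, ∫⁻ p, Φ a p ∂((volume.restrict (box n)).prod
          ((volume.restrict (Set.Icc (1 : ℝ) 2)).prod (volume : Measure (Fin n → ℝ))))
        ≤ ∫⁻ a, ENNReal.ofReal (C * y ^ (-(1 + n * ε / 2))) * ∫⁻ u, ‖loc F a u‖ₑ ^ 4 := by
          refine lintegral_mono fun a => ?_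
          rw [← iter' (fun p => Φ a p) (Measurable.comp
            (g := fun p : ((Fin n → ℝ) × ℝ × (Fin n → ℝ)) × (Fin n → ℝ) => Φ p.2 p.1)
            (f := fun p : (Fin n → ℝ) × ℝ × (Fin n → ℝ) => (p, a)) hΦm (by fun_prop))]
          exact h F hFm hFb y hy hy1 a
      _ = ENNReal.ofReal (C * y ^ (-(1 + n * ε / 2))) * ∫⁻ a, ∫⁻ u, ‖loc F a u‖ₑ ^ 4 :=
          lintegral_const_mul' _ _ ENNReal.ofReal_ne_top
      _ = _ := by
          congr 1
          rw [lintegral_lintegral_swap ((meas_loc hFm).enorm.pow_const 4).aemeasurable, hN',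
            ← lintegral_const_mul' _ _ ENNReal.ofReal_ne_top]
          refine lintegral_congr fun u => ?_
          have e : ∀ a : Fin n → ℝ, ‖loc F a u‖ₑ ^ 4 =
              if ‖u - a‖ ≤ 5 then ‖F u‖ₑ ^ 4 else 0 := by
            intro a
            unfold loc
            split_ifs
            · rfl
            · rw [enorm_zero]
              norm_num
          simp only [e]
          rw [ball_int u 5 (by norm_num)]
          norm_num
  have hAm : Measurable fun p : (Fin n → ℝ) × ℝ => ∫⁻ x, ∫⁻ a, Φ a (p.1, p.2, x) := by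
    refine Measurable.lintegral_prod_right' (f := fun p : ((Fin n → ℝ) × ℝ) × (Fin n → ℝ) =>
      ∫⁻ a, Φ a (p.1.1, p.1.2, p.2)) ?_
    exact Measurable.comp (g := fun p : (Fin n → ℝ) × ℝ × (Fin n → ℝ) => ∫⁻ a, Φ a p)
      (f := fun p : ((Fin n → ℝ) × ℝ) × (Fin n → ℝ) => (p.1.1, p.1.2, p.2))
      (Measurable.lintegral_prod_right' hΦm) (by fun_prop)
  calc ∫⁻ g in box n, ∫⁻ t in Set.Icc (1 : ℝ) 2, ∫⁻ x, ‖Vt y F g t x‖ₑ ^ 4
      ≤ ∫⁻ g in box n, ∫⁻ t in Set.Icc (1 : ℝ) 2, (16 * (∫⁻ x, ∫⁻ a, Φ a (g, t, x)) +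
          16 * ∫⁻ x, Yf F x ^ 4) := by
        refine setLIntegral_mono' measurableSet_box fun g hg => ?_
        refine setLIntegral_mono' measurableSet_Icc fun t ht => ?_
        exact loc_x hn y hy hFm hFi g hg t ht
    _ = 16 * (∫⁻ g in box n, ∫⁻ t in Set.Icc (1 : ℝ) 2, ∫⁻ x, ∫⁻ a, Φ a (g, t, x)) +
          16 * ∫⁻ x, Yf F x ^ 4 := by
        have h1 : ∀ g : Fin n → ℝ, ∫⁻ t in Set.Icc (1 : ℝ) 2,
            (16 * (∫⁻ x, ∫⁻ a, Φ a (g, t, x)) + 16 * ∫⁻ x, Yf F x ^ 4) =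
            16 * (∫⁻ t in Set.Icc (1 : ℝ) 2, ∫⁻ x, ∫⁻ a, Φ a (g, t, x)) +
              16 * ∫⁻ x, Yf F x ^ 4 := by
          intro g
          rw [lintegral_add_right _ measurable_const, lintegral_const_mul' _ _ (by norm_num),
            setLIntegral_const, Real.volume_Icc]
          norm_num
        simp only [h1]
        rw [lintegral_add_right _ measurable_const, lintegral_const_mul' _ _ (by norm_num),
          setLIntegral_const, vol_box', mul_one]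
    _ ≤ 16 * (ENNReal.ofReal (C * y ^ (-(1 + n * ε / 2))) * (ENNReal.ofReal (10 ^ n) * N)) +
          16 * (ENNReal.ofReal (Kf ^ 4) * N) :=
        add_le_add (mul_le_mul' le_rfl hA) (mul_le_mul' le_rfl hY)
    _ = ENNReal.ofReal (16 * (C * y ^ (-(1 + n * ε / 2))) * 10 ^ n + 16 * Kf ^ 4) * N := by
        have h16 : ENNReal.ofReal 16 = 16 := by rw [ENNReal.ofReal_ofNat]
        rw [ENNReal.ofReal_add (by positivity) (by positivity), ENNReal.ofReal_mul
          (p := 16 * (C * y ^ (-(1 + n * ε / 2)))) (q := 10 ^ n) (by positivity),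
          ENNReal.ofReal_mul (p := (16 : ℝ)) (q := C * y ^ (-(1 + n * ε / 2))) (by norm_num),
          ENNReal.ofReal_mul (p := (16 : ℝ)) (q := Kf ^ 4) (by norm_num), h16]
        ring
    _ ≤ _ := by
        refine mul_le_mul' (ENNReal.ofReal_le_ofReal ?_) le_rfl
        have h1 : 0 ≤ y ^ (-(1 + n * ε / 2)) := by positivity
        have h2 : 0 ≤ Kf ^ 4 := by positivity
        have h3 : (0 : ℝ) ≤ 10 ^ n := by positivity
        have h4 : 0 ≤ C * 10 ^ n := by positivity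
        nlinarith [mul_nonneg h1 h2, mul_nonneg h4 h1]

end Pool.Agent.T9h44.LS4
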