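import Pool.Agent.T9h44.LS4.R2
import Pool.Agent.T9h82.LS.L2
import Pool.Agent.T9h19.LS.Interp

/-!
# Local smoothing in the mean over flat metrics (helper44): the estimate for rough functions
-/

set_option autoImplicit false

namespace Pool.Agent.T9h44.LS4

open MeasureTheory Real Pool.Agent.T9h82.LS Pool.Agent.T9h19.LS
open scoped ENNReal

variable {n : ℕ}

lemma l2_all (hn : 1 ≤ n) (y : ℝ) (hy : 0 < y) (F : (Fin n → ℝ) → ℂ) (hFm : Measurable F)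
    (hFi : Integrable F) (hFb : ∃ B : ℝ, ∀ u, ‖F u‖ ≤ B) :
    ∫⁻ g in box n, ∫⁻ t in Set.Icc (1 : ℝ) 2, ∫⁻ x, ‖Vt y F g t x‖ₑ ^ (2 : ℝ) ≤
      ∫⁻ u, ‖F u‖ₑ ^ (2 : ℝ) := by
  calc ∫⁻ g in box n, ∫⁻ t in Set.Icc (1 : ℝ) 2, ∫⁻ x, ‖Vt y F g t x‖ₑ ^ (2 : ℝ)
      ≤ ∫⁻ g in box n, ∫⁻ t in Set.Icc (1 : ℝ) 2, ∫⁻ u, ‖F u‖ₑ ^ (2 : ℝ) := by
        refine setLIntegral_mono' measurableSet_box fun g hg => ?_
        refine setLIntegral_mono' measurableSet_Icc fun t ht => ?_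
        exact l2 n hn F hFm hFi hFb y t hy ht.1 g fun i => (hg i).1
    _ = _ := by
        rw [setLIntegral_const, setLIntegral_const, vol_box', Real.volume_Icc]
        norm_num

lemma four_bd (hn : 1 ≤ n) (ε : ℝ) (hε : 0 < ε) : ∃ C : ℝ, 0 < C ∧
    ∀ F : (Fin n → ℝ) → ℂ, Measurable F → Integrable F → (∃ B : ℝ, ∀ u, ‖F u‖ ≤ B) →
    ∀ y : ℝ, 0 < y → y ≤ 1 →
    ∫⁻ g in box n, ∫⁻ t in Set.Icc (1 : ℝ) 2, ∫⁻ x, ‖Vt y F g t x‖ₑ ^ (4 : ℝ) ≤
      ENNReal.ofReal (C * y ^ (-(1 + ε))) * ∫⁻ u, ‖F u‖ₑ ^ (4 : ℝ) := by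
  have hn0 : (0 : ℝ) < n := by exact_mod_cast hn
  set ε' : ℝ := min (1 / 2) (ε / n) with hε'
  have h1 : 0 < ε' := lt_min (by norm_num) (by positivity)
  have h2 : ε' < 1 := lt_of_le_of_lt (min_le_left _ _) (by norm_num)
  have h3 : n * ε' / 2 ≤ ε := by
    have : ε' ≤ ε / n := min_le_right _ _
    rw [le_div_iff₀ hn0] at this
    linarith [mul_comm ε' (n : ℝ)]
  obtain ⟨C, hC, h⟩ := rough4 hn ε' (nearEst hn ε' h1 h2 10)
  refine ⟨2 * C, by positivity, ?_⟩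
  intro F hFm hFi hFb y hy hy1
  have e4 : ∀ c : ℝ≥0∞, c ^ (4 : ℝ) = c ^ 4 := fun c => by
    rw [← ENNReal.rpow_natCast]
    norm_num
  simp only [e4]
  refine (h F hFm hFi hFb y hy hy1).trans (mul_le_mul' (ENNReal.ofReal_le_ofReal ?_) le_rfl)
  have h4 : y ^ (-(1 + n * ε' / 2)) ≤ y ^ (-(1 + ε)) :=
    Real.rpow_le_rpow_of_exponent_ge hy hy1 (by linarith)
  have h5 : 1 ≤ y ^ (-(1 + ε)) := Real.one_le_rpow_of_pos_of_le_one_of_nonpos hy hy1 (by linarith)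
  nlinarith

/-- the estimate for rough functions -/
theorem rough (hn : 1 ≤ n) (p : ℝ) (hp2 : 2 ≤ p) (hp4 : p ≤ 4) (ε : ℝ) (hε : 0 < ε) :
    RoughEst n p ε := by
  obtain ⟨C4, hC4, h4⟩ := four_bd hn ε hε
  rcases hp2.eq_or_lt with rfl | hp2'
  · refine ⟨1, one_pos, ?_⟩
    intro F hFm hFi hFb y hy hy1
    refine (l2_all hn y hy F hFm hFi hFb).trans ?_
    refine le_mul_of_one_le_left zero_le ?_
    rw [← ENNReal.ofReal_one]
    refine ENNReal.ofReal_le_ofReal ?_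
    rw [one_mul]
    exact Real.one_le_rpow_of_pos_of_le_one_of_nonpos hy hy1 (by norm_num; exact hε.le)
  rcases hp4.eq_or_lt with rfl | hp4'
  · refine ⟨C4, hC4, ?_⟩
    intro F hFm hFi hFb y hy hy1
    refine (h4 F hFm hFi hFb y hy hy1).trans (le_of_eq ?_)
    norm_num
  obtain ⟨C0, hC0, hI⟩ := interp_volume hp2' hp4'
  refine ⟨C0 * C4 ^ ((p - 2) / 2), by positivity, ?_⟩
  intro F hFm hFi hFb y hy hy1
  set μ : Measure ((Fin n → ℝ) × ℝ × (Fin n → ℝ)) := (volume.restrict (box n)).prod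
    ((volume.restrict (Set.Icc (1 : ℝ) 2)).prod (volume : Measure (Fin n → ℝ))) with hμ
  have hm : ∀ (F : (Fin n → ℝ) → ℂ), Measurable F → ∀ r : ℝ,
      Measurable fun q : (Fin n → ℝ) × ℝ × (Fin n → ℝ) => ‖Vt y F q.1 q.2.1 q.2.2‖ₑ ^ r :=
    fun F hF r => (meas_Vt y hF).enorm.pow_const r
  have h5 := hI ((Fin n → ℝ) × ℝ × (Fin n → ℝ)) μ n
    (fun F q => Vt y F q.1 q.2.1 q.2.2) 1 (ENNReal.ofReal (C4 * y ^ (-(1 + ε))))
    (fun F hF _ _ => (meas_Vt y hF).aestronglyMeasurable)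
    (fun F hF hi hb => by
      rw [hμ, ← iter' _ (hm F hF 2), one_mul]
      exact l2_all hn y hy F hF hi hb)
    (fun F hF hi hb => by
      rw [hμ, ← iter' _ (hm F hF 4)]
      exact h4 F hF hi hb y hy hy1)
    (fun F G hF hFi' _ hG hGi' _ q => by
      have e : Vt y (F + G) q.1 q.2.1 q.2.2 = Vt y F q.1 q.2.1 q.2.2 +
          Vt y G q.1 q.2.1 q.2.2 := by
        unfold Vt
        rw [← integral_add (kerF_int y _ hy q.1 q.2.2 hFi') (kerF_int y _ hy q.1 q.2.2 hGi')]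
        refine integral_congr_ae (Filter.Eventually.of_forall fun u => ?_)
        simp only [Pi.add_apply]
        ring
      rw [e]
      exact norm_add_le _ _)
    F hFm hFi hFb
  rw [hμ, ← iter' _ (hm F hFm p)] at h5
  refine h5.trans ?_
  rw [ENNReal.one_rpow, mul_one]
  refine mul_le_mul' ?_ le_rfl
  rw [ENNReal.ofReal_rpow_of_nonneg (by positivity) (by linarith), ← ENNReal.ofReal_mul hC0.le]
  refine ENNReal.ofReal_le_ofReal ?_
  rw [Real.mul_rpow hC4.le (by positivity), ← Real.rpow_mul hy.le, mul_assoc]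
  refine mul_le_mul_of_nonneg_left (mul_le_mul_of_nonneg_left ?_ (by positivity)) hC0.le
  refine Real.rpow_le_rpow_of_exponent_ge hy hy1 ?_
  nlinarith

end Pool.Agent.T9h44.LS4
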