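import Pool.Agent.N303.LS.Stm

/-!
# Local smoothing in the mean over flat metrics (helper44): the multipliers, statements
-/

set_option autoImplicit false

namespace Pool.Agent.T9h44.LS4

open MeasureTheory Real Pool.Agent.N303.LS
open scoped ENNReal SchwartzMap RealInnerProductSpace ContDiff

/-- the quadratic form with the coefficients `γ` -/
noncomputable def Qd {n : ℕ} (γ : Fin n → ℝ) (η : E n) : ℝ := ∑ i, γ i * η i ^ 2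

/-- the multiplier `m` is bounded on `L^p` with the constant `C` -/
def MulB {n : ℕ} (C p : ℝ) (m : E n → ℂ) : Prop :=
  ∀ G : E n → ℂ, Integrable G →
    ∫⁻ x : E n, ‖inv (fun ξ => m ξ * G ξ) x‖ₑ ^ p ≤
      ENNReal.ofReal (C ^ p) * ∫⁻ x : E n, ‖inv G x‖ₑ ^ p

/-- (E1) families of Schwartz functions with bounded seminorms -/
def S_E2 (n : ℕ) : Prop :=
  ∀ (ι : Type) (Θ : ι → 𝓢(E n, ℂ)),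
    (∀ k m : ℕ, ∃ C : ℝ, ∀ i, SchwartzMap.seminorm ℝ k m (Θ i) ≤ C) →
    ∃ C : ℝ, 0 < C ∧ ∀ i, ∀ R : ℝ, 0 < R → ∀ p : ℝ, 1 ≤ p → MulB C p fun ξ => Θ i (R⁻¹ • ξ)

/-- (E3) smooth families -/
def S_E3 (n : ℕ) : Prop :=
  ∀ (P : Type) [NormedAddCommGroup P] [NormedSpace ℝ P] [FiniteDimensional ℝ P]
    (U K : Set P), IsOpen U → IsCompact K → K ⊆ U → ∀ (Θ : P × E n → ℂ),
    ContDiffOn ℝ ∞ Θ (U ×ˢ Set.univ) → ∀ (S : Set (E n)), IsCompact S →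
    (∀ p ∈ U, ∀ ξ ∉ S, Θ (p, ξ) = 0) →
    ∃ C : ℝ, 0 < C ∧ ∀ a ∈ K, ∀ R : ℝ, 0 < R → ∀ p : ℝ, 1 ≤ p → MulB C p fun ξ => Θ (a, R⁻¹ • ξ)

/-- (S1) the multipliers of the high frequencies -/
def S_HI (n : ℕ) : Prop :=
  ∀ (a b : ℝ) (ψ : E n → ℝ), ContDiff ℝ ∞ ψ → (∀ η, ‖η‖ < 1 / 2 → ψ η = 0) →
    (∀ η, 2 < ‖η‖ → ψ η = 0) →
    ∃ C : ℝ, 0 < C ∧ ∀ t ∈ Set.Icc (1 : ℝ) 2, ∀ γ : Fin n → ℝ, (∀ i, γ i ∈ Set.Icc (1 / 2 : ℝ) 1) →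
    ∀ κ ∈ Set.Icc (0 : ℝ) 1, ∀ R : ℝ, 0 < R → ∀ p : ℝ, 1 ≤ p → MulB C p fun ξ =>
      ((Real.exp (2 * π / t * Real.sqrt (Qd γ (R⁻¹ • ξ))) * Qd γ (R⁻¹ • ξ) ^ b *
        (κ + 4 * π ^ 2 * ‖R⁻¹ • ξ‖ ^ 2) ^ a * ψ (R⁻¹ • ξ) : ℝ) : ℂ)

/-- (S3) the multipliers of the low frequencies -/
def S_LO (n : ℕ) : Prop :=
  ∀ (a : ℝ) (φ : E n → ℝ), ContDiff ℝ ∞ φ → (∀ η, 2 < ‖η‖ → φ η = 0) →
    ∃ C : ℝ, 0 < C ∧ ∀ t ∈ Set.Icc (1 : ℝ) 2, ∀ γ : Fin n → ℝ, (∀ i, γ i ∈ Set.Icc (1 / 2 : ℝ) 1) →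
    ∀ p : ℝ, 1 ≤ p →
      MulB C p (fun ξ => ((Real.cos (2 * π * t * Real.sqrt (Qd γ ξ)) *
        (1 + 4 * π ^ 2 * ‖ξ‖ ^ 2) ^ a * φ ξ : ℝ) : ℂ)) ∧
      MulB C p (fun ξ => ((Real.sin (2 * π * t * Real.sqrt (Qd γ ξ)) /
        (2 * π * Real.sqrt (Qd γ ξ)) * (1 + 4 * π ^ 2 * ‖ξ‖ ^ 2) ^ a * φ ξ : ℝ) : ℂ))

end Pool.Agent.T9h44.LS4
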