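import Pool.Agent.T9h44.LS4.Stm
import Pool.Agent.T9h44.LS4.Ker

/-!
# Local smoothing in the mean over flat metrics (helper44): the link
-/

set_option autoImplicit false

namespace Pool.Agent.T9h44.LS4

open MeasureTheory Real Pool.Agent.N303.LS
open scoped ENNReal SchwartzMap RealInnerProductSpace FourierTransform

/-- the norm of the frequency `ξ` for the metric `g` -/
noncomputable def Ng {n : ℕ} (g : Fin n → ℝ) (ξ : E n) : ℝ := Real.sqrt (∑ i, ξ i ^ 2 / g i)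

/-- (C6) the regularised wave is the convolution with the kernel -/
def LinkSt (n : ℕ) : Prop :=
  ∀ g : Fin n → ℝ, (∀ i, 0 < g i) → ∀ y t : ℝ, 0 < y → 0 < t → ∀ (h : 𝓢(E n, ℂ)) (x : E n),
    inv (fun ξ => Complex.exp (2 * π * Complex.I * (Ng g ξ : ℝ) * tau y t) *
        𝓕 (h : E n → ℂ) ξ) x =
      ((((∏ i, g i) ^ (1 / 2 : ℝ) : ℝ) : ℂ) *
        Complex.exp (Complex.I * (π * ((n : ℝ) - 1) / 4 : ℝ)) * tau y t) *
        ∫ u : Fin n → ℝ, Ker n y (t ^ 2 - y ^ 2 / t ^ 2) g (x.ofLp - u) * h (WithLp.toLp 2 u)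

end Pool.Agent.T9h44.LS4
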